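import Pool.Agent.N656.LL.Asm

set_option autoImplicit false
set_option linter.unusedSectionVars false

/-! From the counts at single points to the limit law: general normalisation. -/

open Filter Topology Finset

namespace Pool.Agent.N656.SE

open Pool.Agent.N656.LL (bonf)

/-- the data of the counting problem -/
structure GData where
  α : Type
  dec : DecidableEq α
  β : Type
  decβ : DecidableEq β
  sz : β → ℕ
  fin' : ∀ T : ℕ, {P | sz P ≤ T}.Finite
  S : ℕ → Finset α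
  Z : α → β → Prop
  v : β → ℝ
  X : ℕ → ℝ
  t : ℕ → ℝ
  hX : ∀ᶠ H : ℕ in atTop, 0 < X H
  hv : ∀ P, 0 < v P
  lim : ∀ P, Tendsto (fun H : ℕ => (Set.ncard {a | a ∈ S H ∧ Z a P} : ℝ) / X H) atTop (𝓝 (v P))
  two : ∀ P Q, P ≠ Q → Tendsto (fun H : ℕ =>
    (Set.ncard {a | a ∈ S H ∧ Z a P ∧ Z a Q} : ℝ) / X H) atTop (𝓝 0)
  ht : Tendsto t atTop (𝓝 0)
  tail : ∀ T : ℕ, ∀ᶠ H : ℕ in atTop, (Set.ncard {a | a ∈ S H ∧ ∃ P, T < sz P ∧ Z a P} : ℝ) ≤
    t T * X H

namespace GData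

variable (D : GData)

/-- the points of size at most `T` -/
noncomputable def bx (T : ℕ) : Finset D.β := (D.fin' T).toFinset

lemma mem_bx {T : ℕ} {P : D.β} : P ∈ D.bx T ↔ D.sz P ≤ T := by
  unfold bx
  rw [Set.Finite.mem_toFinset]
  rfl

lemma fin (H : ℕ) (p : D.α → Prop) : {a | a ∈ D.S H ∧ p a}.Finite :=
  (D.S H).finite_toSet.subset fun _ h => h.1

/-- the number of members with a zero in `A` -/
noncomputable def N (A : Set D.β) (H : ℕ) : ℝ :=
  (Set.ncard {a | a ∈ D.S H ∧ ∃ P ∈ A, D.Z a P} : ℝ)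

lemma N_nonneg (A : Set D.β) (H : ℕ) : 0 ≤ D.N A H := Nat.cast_nonneg _

lemma N_mono {A B : Set D.β} (h : A ⊆ B) (H : ℕ) : D.N A H ≤ D.N B H := by
  unfold N
  have h1 : {a | a ∈ D.S H ∧ ∃ P ∈ A, D.Z a P} ⊆ {a | a ∈ D.S H ∧ ∃ P ∈ B, D.Z a P} := by
    rintro a ⟨ha, P, hP, hz⟩
    exact ⟨ha, P, h hP, hz⟩
  exact_mod_cast Set.ncard_le_ncard h1 (D.fin H _)

open Classical in
/-- the largest number of members with two given zeros -/
noncomputable def M (F : Finset D.β) (H : ℕ) : ℝ :=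
  ∑ P ∈ F, ∑ Q ∈ F, if P = Q then 0 else (Set.ncard {a | a ∈ D.S H ∧ D.Z a P ∧ D.Z a Q} : ℝ)

lemma M_nonneg (F : Finset D.β) (H : ℕ) : 0 ≤ D.M F H := by
  classical
  unfold M
  refine sum_nonneg fun P _ => sum_nonneg fun Q _ => ?_
  split_ifs
  · exact le_rfl
  · exact Nat.cast_nonneg _

lemma M_le (F : Finset D.β) (H : ℕ) {P Q : D.β} (hP : P ∈ F) (hQ : Q ∈ F) (h : P ≠ Q) :
    (Set.ncard {a | a ∈ D.S H ∧ D.Z a P ∧ D.Z a Q} : ℝ) ≤ D.M F H := by
  classical
  unfold M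
  have h0 : ∀ P Q : D.β, 0 ≤ (if P = Q then 0 else
      (Set.ncard {a | a ∈ D.S H ∧ D.Z a P ∧ D.Z a Q} : ℝ)) := by
    intro P Q
    split_ifs
    · exact le_rfl
    · exact Nat.cast_nonneg _
  calc (Set.ncard {a | a ∈ D.S H ∧ D.Z a P ∧ D.Z a Q} : ℝ)
      = (if P = Q then 0 else (Set.ncard {a | a ∈ D.S H ∧ D.Z a P ∧ D.Z a Q} : ℝ)) := by
        rw [if_neg h]
    _ ≤ ∑ Q ∈ F, (if P = Q then 0 else (Set.ncard {a | a ∈ D.S H ∧ D.Z a P ∧ D.Z a Q} : ℝ)) :=
        single_le_sum (f := fun Q => (if P = Q then 0 else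
          (Set.ncard {a | a ∈ D.S H ∧ D.Z a P ∧ D.Z a Q} : ℝ))) (fun Q _ => h0 P Q) hQ
    _ ≤ _ := single_le_sum (f := fun P => ∑ Q ∈ F, (if P = Q then 0 else
          (Set.ncard {a | a ∈ D.S H ∧ D.Z a P ∧ D.Z a Q} : ℝ)))
          (fun P _ => sum_nonneg fun Q _ => h0 P Q) hP

lemma M_lim (F : Finset D.β) : Tendsto (fun H : ℕ => D.M F H / D.X H) atTop (𝓝 0) := by
  classical
  have h1 : (fun H : ℕ => D.M F H / D.X H) = fun H : ℕ => ∑ P ∈ F, ∑ Q ∈ F,
      (if P = Q then 0 else (Set.ncard {a | a ∈ D.S H ∧ D.Z a P ∧ D.Z a Q} : ℝ)) / D.X H := by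
    funext H
    unfold M
    rw [sum_div]
    refine sum_congr rfl fun P _ => ?_
    rw [sum_div]
  rw [h1]
  have h3 : Tendsto (fun H : ℕ => ∑ P ∈ F, ∑ Q ∈ F,
      (if P = Q then 0 else (Set.ncard {a | a ∈ D.S H ∧ D.Z a P ∧ D.Z a Q} : ℝ)) / D.X H)
      atTop (𝓝 (∑ P ∈ F, ∑ Q ∈ F, (0 : ℝ))) := by
    refine tendsto_finsetSum _ fun P _ => tendsto_finsetSum _ fun Q _ => ?_
    by_cases h : P = Q
    · simp only [if_pos h, zero_div]
      exact tendsto_const_nhds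
    · simp only [if_neg h]
      exact D.two P Q h
  have h2 : ∑ P ∈ F, ∑ Q ∈ F, (0 : ℝ) = 0 := by simp
  rwa [h2] at h3

/-- upper and lower bound for finite sets -/
lemma N_finset (F : Finset D.β) (H : ℕ) :
    D.N F H ≤ ∑ P ∈ F, (Set.ncard {a | a ∈ D.S H ∧ D.Z a P} : ℝ) ∧
    ∑ P ∈ F, (Set.ncard {a | a ∈ D.S H ∧ D.Z a P} : ℝ) -
      (F.card : ℝ) ^ 2 * D.M F H ≤ D.N F H := by
  classical
  have e1 : ∀ (p : D.α → Prop) [DecidablePred p],
      Set.ncard {a | a ∈ D.S H ∧ p a} = ((D.S H).filter p).card := by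
    intro p _
    rw [← Set.ncard_coe_finset]
    congr 1
    ext a
    simp
  have e2 : (D.S H).filter (fun a => ∃ P, P ∈ F ∧ D.Z a P) =
      F.biUnion fun P => (D.S H).filter fun a => D.Z a P := by
    ext a
    simp only [mem_filter, mem_biUnion]
    constructor
    · rintro ⟨h1, P, h2, h3⟩
      exact ⟨P, h2, h1, h3⟩
    · rintro ⟨P, h2, h1, h3⟩
      exact ⟨h1, P, h2, h3⟩
  have e3 : D.N F H = ((F.biUnion fun P => (D.S H).filter fun a => D.Z a P).card : ℝ) := by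
    rw [← e2, ← e1]
    rfl
  have e4 : ∀ P, (Set.ncard {a | a ∈ D.S H ∧ D.Z a P} : ℝ) =
      (((D.S H).filter fun a => D.Z a P).card : ℝ) := fun P => by rw [e1]
  rw [e3]
  simp only [e4]
  constructor
  · exact_mod_cast card_biUnion_le
  · refine bonf F _ _ ?_ (D.M_nonneg F H)
    intro P hP Q hQ hPQ
    have h1 := D.M_le F H hP hQ hPQ
    rw [e1 (fun a => D.Z a P ∧ D.Z a Q)] at h1
    refine le_trans ?_ h1
    have : ((D.S H).filter fun a => D.Z a P) ∩ ((D.S H).filter fun a => D.Z a Q) ⊆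
        (D.S H).filter fun a => D.Z a P ∧ D.Z a Q := by
      intro a ha
      rw [mem_inter, mem_filter, mem_filter] at ha
      rw [mem_filter]
      exact ⟨ha.1.1, ha.1.2, ha.2.2⟩
    exact_mod_cast card_le_card this

lemma N_union (A B : Set D.β) (H : ℕ) : D.N (A ∪ B) H ≤ D.N A H + D.N B H := by
  unfold N
  have h1 : {a | a ∈ D.S H ∧ ∃ P ∈ A ∪ B, D.Z a P} ⊆
      {a | a ∈ D.S H ∧ ∃ P ∈ A, D.Z a P} ∪ {a | a ∈ D.S H ∧ ∃ P ∈ B, D.Z a P} := by
    rintro a ⟨ha, P, hP, hz⟩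
    rcases hP with hP | hP
    · exact Or.inl ⟨ha, P, hP, hz⟩
    · exact Or.inr ⟨ha, P, hP, hz⟩
  exact_mod_cast (Set.ncard_le_ncard h1 ((D.fin H _).union (D.fin H _))).trans
    (Set.ncard_union_le _ _)

/-- finite sets: the limit -/
lemma sum_lim (F : Finset D.β) :
    Tendsto (fun H : ℕ => (∑ P ∈ F, (Set.ncard {a | a ∈ D.S H ∧ D.Z a P} : ℝ)) / D.X H)
      atTop (𝓝 (∑ P ∈ F, D.v P)) := by
  simp only [sum_div]
  exact tendsto_finsetSum _ fun P _ => D.lim P

/-- finite sets of large points have small weight -/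
lemma finset_tail (T : ℕ) (F : Finset D.β) (hF : ∀ P ∈ F, T < D.sz P) :
    ∑ P ∈ F, D.v P ≤ D.t T := by
  have h1 := D.sum_lim F
  have h2 : Tendsto (fun H : ℕ => D.t T + (F.card : ℝ) ^ 2 * (D.M F H / D.X H)) atTop
      (𝓝 (D.t T + (F.card : ℝ) ^ 2 * 0)) := tendsto_const_nhds.add ((D.M_lim F).const_mul _)
  rw [mul_zero, add_zero] at h2
  refine le_of_tendsto_of_tendsto h1 h2 ?_
  filter_upwards [D.tail T, D.hX] with H hH hX
  have h4 := (D.N_finset F H).2
  have h5 : D.N F H ≤ (Set.ncard {a | a ∈ D.S H ∧ ∃ P, T < D.sz P ∧ D.Z a P} : ℝ) := by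
    unfold N
    have h6 : {a | a ∈ D.S H ∧ ∃ P ∈ (F : Set D.β), D.Z a P} ⊆
        {a | a ∈ D.S H ∧ ∃ P, T < D.sz P ∧ D.Z a P} := by
      rintro a ⟨ha, P, hP, hz⟩
      exact ⟨ha, P, hF P (mem_coe.1 hP), hz⟩
    exact_mod_cast Set.ncard_le_ncard h6 (D.fin H _)
  rw [← mul_div_assoc, div_le_iff₀ hX, add_mul, div_mul_cancel₀ _ hX.ne']
  linarith

lemma t_nonneg (T : ℕ) : 0 ≤ D.t T := by
  have := D.finset_tail T ∅ (by simp)
  simpa using this

lemma summable : Summable D.v := by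
  classical
  apply summable_of_sum_le (c := ∑ P ∈ D.bx 0, D.v P + D.t 0) (fun P => (D.hv P).le)
  intro F
  have h1 := D.finset_tail 0 (F \ D.bx 0) (by
    intro P hP
    rw [Finset.mem_sdiff, D.mem_bx] at hP
    omega)
  have h2 : ∑ P ∈ F, D.v P ≤ ∑ P ∈ D.bx 0 ∪ (F \ D.bx 0), D.v P := by
    apply sum_le_sum_of_subset_of_nonneg
    · intro P hP
      rw [mem_union, Finset.mem_sdiff]
      tauto
    · intro P _ _
      exact (D.hv P).le
  rw [sum_union disjoint_sdiff] at h2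
  linarith

/-- the weight of a set -/
noncomputable def wt (A : Set D.β) : ℝ := ∑' P, A.indicator D.v P

lemma summable_ind (A : Set D.β) : Summable (A.indicator D.v) := D.summable.indicator A

lemma wt_nonneg (A : Set D.β) : 0 ≤ D.wt A :=
  tsum_nonneg fun P => Set.indicator_nonneg (fun P _ => (D.hv P).le) P

lemma wt_mono {A B : Set D.β} (h : A ⊆ B) : D.wt A ≤ D.wt B := by
  unfold wt
  refine (D.summable_ind A).tsum_le_tsum (fun P => ?_) (D.summable_ind B)
  exact Set.indicator_le_indicator_of_subset h (fun P => (D.hv P).le) P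

lemma wt_pos {A : Set D.β} {P : D.β} (h : P ∈ A) : 0 < D.wt A := by
  refine (D.summable_ind A).tsum_pos (fun Q => Set.indicator_nonneg (fun P _ => (D.hv P).le) Q) P ?_
  rw [Set.indicator_of_mem h]
  exact D.hv P

/-- large points -/
def big (T : ℕ) : Set D.β := {P | T < D.sz P}

lemma wt_tail (T : ℕ) : D.wt (D.big T) ≤ D.t T := by
  unfold wt
  refine Real.tsum_le_of_sum_le
    (fun P => Set.indicator_nonneg (fun P _ => (D.hv P).le) P) fun F => ?_
  classical
  have h1 := D.finset_tail T (F.filter fun P => T < D.sz P) (fun P hP => (mem_filter.1 hP).2)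
  refine le_trans (le_of_eq ?_) h1
  rw [sum_filter]
  refine sum_congr rfl fun P _ => ?_
  by_cases hP : T < D.sz P
  · rw [if_pos hP, Set.indicator_of_mem (show P ∈ D.big T from hP)]
  · rw [if_neg hP, Set.indicator_of_notMem (show P ∉ D.big T from hP)]

lemma wt_split (A : Set D.β) (T : ℕ) :
    ∃ F : Finset D.β, F ⊆ D.bx T ∧ (F : Set D.β) = A ∩ (D.big T)ᶜ ∧
      D.wt A ≤ ∑ P ∈ F, D.v P + D.wt (D.big T) ∧ ∑ P ∈ F, D.v P ≤ D.wt A := by
  classical
  refine ⟨(D.bx T).filter fun P => P ∈ A, filter_subset _ _, ?_, ?_, ?_⟩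
  · ext P
    simp only [coe_filter, mem_bx, Set.mem_ofPred_eq, Set.mem_inter_iff, Set.mem_compl_iff, big,
      not_lt]
    tauto
  · unfold wt
    have h1 : ∑ P ∈ (D.bx T).filter (fun P => P ∈ A), D.v P =
        ∑' P, (((D.bx T).filter fun P => P ∈ A : Finset D.β) : Set D.β).indicator D.v P := by
      rw [← _root_.tsum_subtype, Finset.tsum_subtype']
    rw [h1, ← (D.summable_ind _).tsum_add (D.summable_ind _)]
    refine (D.summable_ind _).tsum_le_tsum (fun P => ?_) ((D.summable_ind _).add (D.summable_ind _))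
    by_cases hA : P ∈ A
    · rw [Set.indicator_of_mem hA]
      by_cases hT : P ∈ D.big T
      · rw [Set.indicator_of_mem hT]
        have := Set.indicator_nonneg (s := (((D.bx T).filter fun P => P ∈ A : Finset D.β) :
          Set D.β)) (f := D.v) (fun P _ => (D.hv P).le) P
        linarith
      · have hm : P ∈ (((D.bx T).filter fun P => P ∈ A : Finset D.β) : Set D.β) := by
          rw [mem_coe, mem_filter, mem_bx]
          exact ⟨not_lt.1 hT, hA⟩
        rw [Set.indicator_of_mem hm, Set.indicator_of_notMem hT, add_zero]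
    · rw [Set.indicator_of_notMem hA]
      exact add_nonneg (Set.indicator_nonneg (fun P _ => (D.hv P).le) P)
        (Set.indicator_nonneg (fun P _ => (D.hv P).le) P)
  · unfold wt
    have h1 : ∑ P ∈ (D.bx T).filter (fun P => P ∈ A), D.v P =
        ∑ P ∈ (D.bx T).filter (fun P => P ∈ A), A.indicator D.v P := by
      refine sum_congr rfl fun P hP => ?_
      rw [Set.indicator_of_mem (mem_filter.1 hP).2]
    rw [h1]
    exact (D.summable_ind A).sum_le_tsum _
      fun P _ => Set.indicator_nonneg (fun P _ => (D.hv P).le) P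

/-- the tail bound in the form used below -/
lemma tail_eventually (T : ℕ) : ∀ᶠ H : ℕ in atTop, D.N (D.big T) H / D.X H ≤ D.t T := by
  filter_upwards [D.tail T, D.hX] with H hH hX
  rw [div_le_iff₀ hX]
  exact hH

lemma exists_T {η : ℝ} (hη : 0 < η) : ∃ T : ℕ, D.t T ≤ η :=
  (D.ht.eventually (eventually_le_nhds hη)).exists

/-- **The limit law, uniformly in the set.** -/
theorem law {η : ℝ} (hη : 0 < η) : ∀ᶠ H : ℕ in atTop, ∀ A : Set D.β,
    |D.N A H / D.X H - D.wt A| ≤ η := by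
  classical
  obtain ⟨T, hT⟩ := D.exists_T (by positivity : 0 < η / 8)
  have ht := D.tail_eventually T
  have hs : ∀ᶠ H : ℕ in atTop, ∀ P ∈ D.bx T,
      |(Set.ncard {a | a ∈ D.S H ∧ D.Z a P} : ℝ) / D.X H - D.v P| ≤
        η / (8 * ((D.bx T).card + 1)) := by
    rw [Filter.eventually_all_finset]
    intro P _
    have h1 := D.lim P
    rw [Metric.tendsto_nhds] at h1
    have h2 := h1 (η / (8 * ((D.bx T).card + 1))) (by positivity)
    filter_upwards [h2] with H hH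
    rw [Real.dist_eq] at hH
    exact hH.le
  have hp : ∀ᶠ H : ℕ in atTop, ∀ F ∈ (D.bx T).powerset,
      ((D.bx T).card : ℝ) ^ 2 * (D.M F H / D.X H) ≤ η / 8 := by
    rw [Filter.eventually_all_finset]
    intro F _
    have h1 := (D.M_lim F).const_mul (((D.bx T).card : ℝ) ^ 2)
    rw [mul_zero] at h1
    exact h1.eventually (eventually_le_nhds (by positivity))
  filter_upwards [ht, hs, hp, D.hX] with H h1 h2 h3 hX A
  obtain ⟨F, hFT, hFA, hF1, hF2⟩ := D.wt_split A T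
  have hFc : (F.card : ℝ) ≤ (D.bx T).card := by exact_mod_cast card_le_card hFT
  have h3' := h3 F (mem_powerset.2 hFT)
  obtain ⟨g1, g2⟩ := D.N_finset F H
  obtain ⟨s, hs⟩ : ∃ s : ℝ, s = (∑ P ∈ F, (Set.ncard {a | a ∈ D.S H ∧ D.Z a P} : ℝ)) /
    D.X H := ⟨_, rfl⟩
  have hsv : |s - ∑ P ∈ F, D.v P| ≤ η / 8 := by
    rw [hs, sum_div, ← sum_sub_distrib]
    refine (abs_sum_le_sum_abs _ _).trans ?_
    calc ∑ P ∈ F, |(Set.ncard {a | a ∈ D.S H ∧ D.Z a P} : ℝ) / D.X H - D.v P|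
        ≤ ∑ _P ∈ F, η / (8 * ((D.bx T).card + 1)) := sum_le_sum fun P hP => h2 P (hFT hP)
      _ = (F.card : ℝ) * (η / (8 * ((D.bx T).card + 1))) := by rw [sum_const, nsmul_eq_mul]
      _ ≤ ((D.bx T).card + 1) * (η / (8 * ((D.bx T).card + 1))) := by
          apply mul_le_mul_of_nonneg_right _ (by positivity)
          linarith
      _ = η / 8 := by field_simp
  have hNF1 : D.N F H / D.X H ≤ s := by
    rw [hs]
    gcongr
  have hM0 : 0 ≤ D.M F H / D.X H := div_nonneg (D.M_nonneg F H) hX.le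
  have hNF2 : s - η / 8 ≤ D.N F H / D.X H := by
    have h4 : s - (F.card : ℝ) ^ 2 * (D.M F H / D.X H) ≤ D.N F H / D.X H := by
      rw [hs, ← mul_div_assoc, ← sub_div]
      gcongr
    have h5 : (F.card : ℝ) ^ 2 * (D.M F H / D.X H) ≤
        ((D.bx T).card : ℝ) ^ 2 * (D.M F H / D.X H) := by
      gcongr
    linarith
  have hN1 : D.N F H ≤ D.N A H := by
    apply D.N_mono
    rw [hFA]
    exact Set.inter_subset_left
  have hN2 : D.N A H ≤ D.N F H + D.N (D.big T) H := by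
    refine le_trans (D.N_mono ?_ H) (D.N_union _ _ H)
    intro P hP
    by_cases hb : P ∈ D.big T
    · exact Or.inr hb
    · left
      rw [hFA]
      exact ⟨hP, hb⟩
  have hN1' : D.N F H / D.X H ≤ D.N A H / D.X H := by gcongr
  have hN2' : D.N A H / D.X H ≤ D.N F H / D.X H + D.N (D.big T) H / D.X H := by
    rw [← add_div]
    gcongr
  have hb := D.wt_tail T
  have hsv' := abs_le.1 hsv
  rw [abs_le]
  constructor <;> linarith [hsv'.1, hsv'.2]

/-- the number of members with two zeros -/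
noncomputable def N2 (H : ℕ) : ℝ :=
  (Set.ncard {a | a ∈ D.S H ∧ ∃ P Q, P ≠ Q ∧ D.Z a P ∧ D.Z a Q} : ℝ)

/-- **Two zeros are rare.** -/
theorem two_rare : Tendsto (fun H : ℕ => D.N2 H / D.X H) atTop (𝓝 0) := by
  classical
  rw [Metric.tendsto_nhds]
  intro η hη
  obtain ⟨T, hT⟩ := D.exists_T (by positivity : 0 < η / 4)
  have ht := D.tail_eventually T
  have hp : ∀ᶠ H : ℕ in atTop, ((D.bx T ×ˢ D.bx T).card : ℝ) *
      (D.M (D.bx T) H / D.X H) ≤ η / 4 := by
    have h1 := (D.M_lim (D.bx T)).const_mul ((D.bx T ×ˢ D.bx T).card : ℝ)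
    rw [mul_zero] at h1
    exact h1.eventually (eventually_le_nhds (by positivity))
  filter_upwards [ht, hp, D.hX] with H h1 h3 hX
  have h4 : D.N2 H ≤ D.N (D.big T) H + ((D.bx T ×ˢ D.bx T).card : ℝ) * D.M (D.bx T) H := by
    have h5 : {a | a ∈ D.S H ∧ ∃ P Q, P ≠ Q ∧ D.Z a P ∧ D.Z a Q} ⊆
        {a | a ∈ D.S H ∧ ∃ P ∈ D.big T, D.Z a P} ∪
        ⋃ q ∈ (D.bx T ×ˢ D.bx T).filter (fun q => q.1 ≠ q.2),
          {a | a ∈ D.S H ∧ D.Z a q.1 ∧ D.Z a q.2} := by
      rintro a ⟨ha, P, Q, hPQ, hP, hQ⟩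
      by_cases hP1 : P ∈ D.big T
      · exact Or.inl ⟨ha, P, hP1, hP⟩
      by_cases hQ1 : Q ∈ D.big T
      · exact Or.inl ⟨ha, Q, hQ1, hQ⟩
      · right
        rw [Set.mem_iUnion₂]
        refine ⟨(P, Q), ?_, ha, hP, hQ⟩
        rw [mem_filter, mem_product, mem_bx, mem_bx]
        exact ⟨⟨not_lt.1 hP1, not_lt.1 hQ1⟩, hPQ⟩
    have h6 := Set.ncard_le_ncard h5 ((D.fin H _).union
      (Set.Finite.biUnion (finite_toSet _) fun q _ => D.fin H _))
    have h7 := h6.trans (Set.ncard_union_le _ _)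
    have h8 : Set.ncard (⋃ q ∈ (D.bx T ×ˢ D.bx T).filter (fun q => q.1 ≠ q.2),
          {a | a ∈ D.S H ∧ D.Z a q.1 ∧ D.Z a q.2}) ≤
        ∑ q ∈ (D.bx T ×ˢ D.bx T).filter (fun q => q.1 ≠ q.2),
          Set.ncard {a | a ∈ D.S H ∧ D.Z a q.1 ∧ D.Z a q.2} :=
      Finset.set_ncard_biUnion_le _ _
    have h9 : ((∑ q ∈ (D.bx T ×ˢ D.bx T).filter (fun q => q.1 ≠ q.2),
          Set.ncard {a | a ∈ D.S H ∧ D.Z a q.1 ∧ D.Z a q.2} : ℕ) : ℝ) ≤
        ((D.bx T ×ˢ D.bx T).card : ℝ) * D.M (D.bx T) H := by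
      push_cast
      calc ∑ q ∈ (D.bx T ×ˢ D.bx T).filter (fun q => q.1 ≠ q.2),
          (Set.ncard {a | a ∈ D.S H ∧ D.Z a q.1 ∧ D.Z a q.2} : ℝ)
          ≤ ∑ _q ∈ (D.bx T ×ˢ D.bx T).filter (fun q => q.1 ≠ q.2), D.M (D.bx T) H := by
            refine sum_le_sum fun q hq => ?_
            rw [mem_filter, mem_product] at hq
            exact D.M_le _ H hq.1.1 hq.1.2 hq.2
        _ = (((D.bx T ×ˢ D.bx T).filter (fun q => q.1 ≠ q.2)).card : ℝ) * D.M (D.bx T) H := by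
            rw [sum_const, nsmul_eq_mul]
        _ ≤ _ := by
            apply mul_le_mul_of_nonneg_right _ (D.M_nonneg _ _)
            exact_mod_cast card_le_card (filter_subset _ _)
    have h10 : (Set.ncard {a | a ∈ D.S H ∧ ∃ P Q, P ≠ Q ∧ D.Z a P ∧ D.Z a Q} : ℝ) ≤
        (Set.ncard {a | a ∈ D.S H ∧ ∃ P ∈ D.big T, D.Z a P} : ℝ) +
        ((∑ q ∈ (D.bx T ×ˢ D.bx T).filter (fun q => q.1 ≠ q.2),
          Set.ncard {a | a ∈ D.S H ∧ D.Z a q.1 ∧ D.Z a q.2} : ℕ) : ℝ) := by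
      exact_mod_cast h7.trans (Nat.add_le_add_left h8 _)
    unfold N2 N
    linarith
  have h5 : D.N2 H / D.X H ≤ D.N (D.big T) H / D.X H +
      ((D.bx T ×ˢ D.bx T).card : ℝ) * (D.M (D.bx T) H / D.X H) := by
    rw [← mul_div_assoc, ← add_div]
    gcongr
  have h6 : 0 ≤ D.N2 H / D.X H := by
    apply div_nonneg _ hX.le
    unfold N2
    positivity
  rw [Real.dist_eq, sub_zero, abs_of_nonneg h6]
  linarith

lemma lim_set (A : Set D.β) :
    Tendsto (fun H : ℕ => D.N A H / D.X H) atTop (𝓝 (D.wt A)) := by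
  rw [Metric.tendsto_nhds]
  intro η hη
  filter_upwards [D.law (by positivity : 0 < η / 2)] with H hH
  rw [Real.dist_eq]
  have := hH A
  linarith

/-- ratios, uniformly -/
theorem ratio [Nonempty D.β] {ε : ℝ} (hε : 0 < ε) : ∀ᶠ H : ℕ in atTop, ∀ A : Set D.β,
    |D.N A H / D.N Set.univ H - D.wt A / D.wt Set.univ| ≤ ε := by
  have hc : 0 < D.wt Set.univ := D.wt_pos (Set.mem_univ (Classical.arbitrary D.β))
  obtain ⟨c, hcd⟩ : ∃ c, c = D.wt Set.univ := ⟨_, rfl⟩
  rw [← hcd] at hc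
  obtain ⟨η, hη, hη1, hη2⟩ : ∃ η : ℝ, 0 < η ∧ η ≤ c / 2 ∧ 4 * η ≤ ε * c := by
    refine ⟨min (c / 2) (ε * c / 4), by positivity, min_le_left _ _, ?_⟩
    have := min_le_right (c / 2) (ε * c / 4)
    linarith
  filter_upwards [D.law hη, D.hX] with H hH hX A
  obtain ⟨a, ha⟩ : ∃ a, a = D.N A H / D.X H := ⟨_, rfl⟩
  obtain ⟨u, hu⟩ : ∃ u, u = D.N Set.univ H / D.X H := ⟨_, rfl⟩
  have h1 := hH A
  have h2 := hH Set.univ
  rw [← ha] at h1
  rw [← hu, ← hcd] at h2
  have h3 : D.N A H / D.N Set.univ H = a / u := by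
    rw [ha, hu, div_div_div_cancel_right₀ hX.ne']
  rw [h3, ← hcd]
  have h1' := abs_le.1 h1
  have h2' := abs_le.1 h2
  have hw0 := D.wt_nonneg A
  have hw1 : D.wt A ≤ c := by
    rw [hcd]
    exact D.wt_mono (Set.subset_univ A)
  have hu0 : c / 2 ≤ u := by linarith [h2'.1]
  have hu1 : 0 < u := by linarith
  have e1 : a / u - D.wt A / c = ((a - D.wt A) * c + D.wt A * (c - u)) / (u * c) := by
    field_simp
    ring
  rw [e1, abs_div, abs_of_pos (by positivity : 0 < u * c), div_le_iff₀ (by positivity)]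
  calc |(a - D.wt A) * c + D.wt A * (c - u)| ≤ |(a - D.wt A) * c| + |D.wt A * (c - u)| :=
        abs_add_le _ _
    _ = |a - D.wt A| * c + D.wt A * |c - u| := by
        rw [abs_mul, abs_mul, abs_of_pos hc, abs_of_nonneg hw0]
    _ ≤ η * c + c * η := by
        have h4 : |c - u| ≤ η := by rw [abs_sub_comm]; exact h2
        gcongr
    _ ≤ ε * (u * c) := by nlinarith

/-- two zeros are rare among the members with a zero -/
theorem two_ratio [Nonempty D.β] :
    Tendsto (fun H : ℕ => D.N2 H / D.N Set.univ H) atTop (𝓝 0) := by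
  have hc : 0 < D.wt Set.univ := D.wt_pos (Set.mem_univ (Classical.arbitrary D.β))
  have h1 := D.two_rare.div (D.lim_set Set.univ) hc.ne'
  rw [zero_div] at h1
  refine h1.congr' ?_
  filter_upwards [D.hX] with H hX
  simp only [Pi.div_apply]
  rw [div_div_div_cancel_right₀ hX.ne']

/-- **Bound functions.** -/
theorem bound_iff (hbig : ∀ T, (D.big T).Nonempty) (B : ℕ → ℕ) :
    Tendsto (fun H : ℕ => D.N (D.big (B H)) H / D.N Set.univ H) atTop (𝓝 0) ↔
      Tendsto B atTop atTop := by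
  have : Nonempty D.β := ⟨(hbig 0).some⟩
  have hc : 0 < D.wt Set.univ := D.wt_pos (Set.mem_univ (Classical.arbitrary D.β))
  constructor
  · intro h
    rw [tendsto_atTop]
    intro T
    have h1 : 0 < D.wt (D.big T) := D.wt_pos (hbig T).some_mem
    obtain ⟨q, hq⟩ : ∃ q, q = D.wt (D.big T) / D.wt Set.univ := ⟨_, rfl⟩
    have hq0 : 0 < q := by rw [hq]; positivity
    have h2 : ∀ᶠ H : ℕ in atTop, D.N (D.big (B H)) H / D.N Set.univ H < q / 2 :=
      h.eventually (gt_mem_nhds (by positivity : (0 : ℝ) < q / 2))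
    filter_upwards [h2, D.ratio (by positivity : 0 < q / 2)] with H h3 h4
    by_contra h5
    rw [not_le] at h5
    have h6 := (abs_le.1 (h4 (D.big T))).1
    rw [← hq] at h6
    have h7 : D.N (D.big T) H ≤ D.N (D.big (B H)) H := by
      apply D.N_mono
      intro P hP
      have hP' : T < D.sz P := hP
      show B H < D.sz P
      omega
    have h8 : D.N (D.big T) H / D.N Set.univ H ≤ D.N (D.big (B H)) H / D.N Set.univ H := by
      have := D.N_nonneg Set.univ H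
      gcongr
    linarith
  · intro h
    rw [Metric.tendsto_nhds]
    intro η hη
    obtain ⟨T, hT⟩ := D.exists_T (by positivity : 0 < D.wt Set.univ * (η / 4))
    filter_upwards [h.eventually (eventually_ge_atTop T), D.ratio (by positivity : 0 < η / 4)]
      with H h1 h2
    have h3 : D.N (D.big (B H)) H ≤ D.N (D.big T) H := by
      apply D.N_mono
      intro P hP
      have hP' : B H < D.sz P := hP
      show T < D.sz P
      omega
    have h4 : D.N (D.big (B H)) H / D.N Set.univ H ≤ D.N (D.big T) H / D.N Set.univ H := by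
      have := D.N_nonneg Set.univ H
      gcongr
    have h5 := (abs_le.1 (h2 (D.big T))).2
    have h6 : D.wt (D.big T) / D.wt Set.univ ≤ η / 4 := by
      rw [div_le_iff₀ hc]
      have := D.wt_tail T
      linarith
    have h7 : 0 ≤ D.N (D.big (B H)) H / D.N Set.univ H :=
      div_nonneg (D.N_nonneg _ _) (D.N_nonneg _ _)
    rw [Real.dist_eq, sub_zero, abs_of_nonneg h7]
    linarith

end GData

end Pool.Agent.N656.SE
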