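import Pool.Agent.N656.SE.Big
import Pool.Agent.N656.SE.Gen

set_option autoImplicit false
set_option linter.unusedSectionVars false

/-! The tail, the lower bound for the weights, and the data of the limit law. -/

open MeasureTheory Finset Filter Topology

namespace Pool.Agent.N656.SE

open Pool.Agent.R414.DN

/-- the exponent -/
noncomputable def se (m n : ℕ) : ℝ := (n : ℝ) * (1 - 1 / (m : ℝ))

lemma se_ge {m n k : ℕ} (hm : 2 ≤ m) (hn : n + 1 = m * k) (hmk : 4 ≤ (m - 1) * k) :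
    2 ≤ se m n := by
  have hm0 : (0 : ℝ) < m := by
    have : 0 < m := by omega
    exact_mod_cast this
  obtain ⟨p, rfl⟩ : ∃ p, m = p + 1 := ⟨m - 1, by omega⟩
  rw [Nat.add_sub_cancel] at hmk
  have h1 : (n : ℝ) = (p + 1) * k - 1 := by
    have : ((n + 1 : ℕ) : ℝ) = (((p + 1) * k : ℕ) : ℝ) := by rw [hn]
    push_cast at this
    linarith
  have h2 : (4 : ℝ) ≤ p * k := by exact_mod_cast hmk
  unfold se
  push_cast at hm0 ⊢
  have h3 : (1 : ℝ) - 1 / ((p : ℝ) + 1) = p / (p + 1) := by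
    field_simp
    ring
  rw [h3, h1]
  have h4 : (((p : ℝ) + 1) * k - 1) * (p / (p + 1)) = p * k - p / (p + 1) := by
    field_simp
  rw [h4]
  have h5 : (p : ℝ) / (p + 1) ≤ 1 := by
    rw [div_le_one hm0]
    linarith
  linarith

lemma sum_sq (T : ℕ) (F : Finset ℤ) (hF : ∀ x ∈ F, T < x.natAbs) :
    ∑ x ∈ F, 1 / (x : ℝ) ^ 2 ≤ 4 / ((T : ℝ) + 1) := by
  classical
  obtain ⟨M, hM⟩ : ∃ M, M = F.sup Int.natAbs := ⟨_, rfl⟩
  have hMF : ∀ x ∈ F, x.natAbs ≤ M := by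
    intro x hx
    rw [hM]
    exact le_sup (f := Int.natAbs) hx
  have hsub : F ⊆ (Ioo T (M + 1)).image (fun j : ℕ => (j : ℤ)) ∪
      (Ioo T (M + 1)).image (fun j : ℕ => -(j : ℤ)) := by
    intro x hx
    have h1 := hF x hx
    have h2 := hMF x hx
    rw [mem_union, mem_image, mem_image]
    rcases Int.natAbs_eq x with h | h
    · left
      exact ⟨x.natAbs, by rw [mem_Ioo]; omega, h.symm⟩
    · right
      exact ⟨x.natAbs, by rw [mem_Ioo]; omega, h.symm⟩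
  have h0 : ∀ x : ℤ, 0 ≤ 1 / (x : ℝ) ^ 2 := fun x => by positivity
  have h1 := sum_le_sum_of_subset_of_nonneg hsub (f := fun x : ℤ => 1 / (x : ℝ) ^ 2)
    (fun x _ _ => h0 x)
  refine h1.trans ?_
  have h2 := sum_union_inter (s₁ := (Ioo T (M + 1)).image (fun j : ℕ => (j : ℤ)))
    (s₂ := (Ioo T (M + 1)).image (fun j : ℕ => -(j : ℤ))) (f := fun x : ℤ => 1 / (x : ℝ) ^ 2)
  have h3 : 0 ≤ ∑ x ∈ (Ioo T (M + 1)).image (fun j : ℕ => (j : ℤ)) ∩
      (Ioo T (M + 1)).image (fun j : ℕ => -(j : ℤ)), 1 / (x : ℝ) ^ 2 :=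
    sum_nonneg fun x _ => h0 x
  have h4 : ∑ x ∈ (Ioo T (M + 1)).image (fun j : ℕ => (j : ℤ)), 1 / (x : ℝ) ^ 2 ≤
      2 / ((T : ℝ) + 1) := by
    rw [sum_image (fun a _ b _ h => by exact_mod_cast h)]
    refine le_trans (le_of_eq ?_) (sum_Ioo_inv_sq_le (α := ℝ) T (M + 1))
    refine sum_congr rfl fun j _ => ?_
    push_cast
    rw [one_div]
  have h5 : ∑ x ∈ (Ioo T (M + 1)).image (fun j : ℕ => -(j : ℤ)), 1 / (x : ℝ) ^ 2 ≤
      2 / ((T : ℝ) + 1) := by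
    rw [sum_image (fun a _ b _ h => by
      have h6 : (a : ℤ) = b := neg_injective h
      exact_mod_cast h6)]
    refine le_trans (le_of_eq ?_) (sum_Ioo_inv_sq_le (α := ℝ) T (M + 1))
    refine sum_congr rfl fun j _ => ?_
    push_cast
    rw [one_div, neg_sq]
  have h6 : 4 / ((T : ℝ) + 1) = 2 / ((T : ℝ) + 1) + 2 / ((T : ℝ) + 1) := by ring
  linarith

lemma sum_rpow {s : ℝ} (hs : 2 ≤ s) (T : ℕ) (F : Finset ℤ) (hF : ∀ x ∈ F, T < x.natAbs) :
    ∑ x ∈ F, |(x : ℝ)| ^ (-s) ≤ 4 * ((T : ℝ) + 1) ^ (1 - s) := by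
  have hT0 : (0 : ℝ) < (T : ℝ) + 1 := by positivity
  have h1 : ∀ x ∈ F, |(x : ℝ)| ^ (-s) ≤ ((T : ℝ) + 1) ^ (2 - s) * (1 / (x : ℝ) ^ 2) := by
    intro x hx
    have h2 : (T : ℝ) + 1 ≤ |(x : ℝ)| := by
      have h3 := hF x hx
      have h4 : ((T + 1 : ℕ) : ℝ) ≤ (x.natAbs : ℝ) := by exact_mod_cast h3
      rw [Nat.cast_natAbs, Int.cast_abs] at h4
      push_cast at h4
      exact h4
    have h3 : 0 < |(x : ℝ)| := by linarith
    have e1 : |(x : ℝ)| ^ (-s) = |(x : ℝ)| ^ (2 - s) * (1 / (x : ℝ) ^ 2) := by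
      have e2 : 1 / (x : ℝ) ^ 2 = |(x : ℝ)| ^ (-(2 : ℝ)) := by
        rw [Real.rpow_neg h3.le, ← sq_abs, one_div]
        norm_cast
      rw [e2, ← Real.rpow_add h3]
      congr 1
      ring
    rw [e1]
    apply mul_le_mul_of_nonneg_right _ (by positivity)
    exact Real.rpow_le_rpow_of_nonpos hT0 h2 (by linarith)
  refine (sum_le_sum h1).trans ?_
  rw [← mul_sum]
  have h2 := sum_sq T F hF
  calc ((T : ℝ) + 1) ^ (2 - s) * ∑ x ∈ F, 1 / (x : ℝ) ^ 2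
      ≤ ((T : ℝ) + 1) ^ (2 - s) * (4 / ((T : ℝ) + 1)) := by gcongr
    _ = 4 * ((T : ℝ) + 1) ^ (1 - s) := by
        have e1 : (1 : ℝ) - s = (2 - s) - 1 := by ring
        rw [e1, Real.rpow_sub hT0 (2 - s) 1, Real.rpow_one]
        ring

/-- the error of the large ranges -/
noncomputable def err (m k A : ℕ) (D : ℝ) (H : ℕ) : ℝ :=
  (2 * (A * (H : ℝ) ^ 3) + 1) * ((Lc m k : ℝ) * H * (2 * H + 1) ^ (k - 1)) +
    D * (((H : ℝ) ^ k / (H : ℝ) ^ 2 + 1) * ((H : ℝ) * (H : ℝ) ^ (1 / (2 * (m : ℝ))))) *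
        (H : ℝ) ^ k

lemma err_lim {m n k A : ℕ} {D : ℝ} (hD : 0 < D) (hm : 2 ≤ m) (hk : 1 ≤ k) (hn : n + 1 = m * k)
    (hmk : 4 ≤ (m - 1) * k) :
    Tendsto (fun H : ℕ => err m k A D H / ((H : ℝ) ^ n * (H : ℝ) ^ (1 / (m : ℝ)))) atTop
      (𝓝 0) := by
  have hm0 : (0 : ℝ) < m := by
    have : 0 < m := by omega
    exact_mod_cast this
  have hn' : k + 3 ≤ n := by
    obtain ⟨p, rfl⟩ : ∃ p, m = p + 1 := ⟨m - 1, by omega⟩
    rw [Nat.add_sub_cancel] at hmk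
    have : (p + 1) * k = p * k + k := by ring
    omega
  have h2k : 2 * k ≤ n + 1 := by
    rw [hn]
    exact Nat.mul_le_mul_right k hm
  obtain ⟨C, hC⟩ : ∃ C : ℝ, C = (2 * A + 1) * ((Lc m k : ℝ) * 3 ^ (k - 1)) := ⟨_, rfl⟩
  have hC0 : 0 ≤ C := by rw [hC]; positivity
  have e1 : Tendsto (fun H : ℕ => C * (H : ℝ) ^ (-(1 / (m : ℝ))) +
      2 * D * (H : ℝ) ^ (-(1 / (2 * (m : ℝ))))) atTop (𝓝 0) := by
    have h1 := ((tendsto_rpow_neg_atTop (by positivity : 0 < 1 / (m : ℝ))).comp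
      tendsto_natCast_atTop_atTop).const_mul C
    have h2 := ((tendsto_rpow_neg_atTop (by positivity : 0 < 1 / (2 * (m : ℝ)))).comp
      tendsto_natCast_atTop_atTop).const_mul (2 * D)
    have h3 := h1.add h2
    rw [mul_zero, mul_zero, add_zero] at h3
    exact h3
  refine squeeze_zero' (Eventually.of_forall fun H => by unfold err; positivity) ?_ e1
  filter_upwards [eventually_ge_atTop 1] with H hH
  have hH1 : (1 : ℝ) ≤ H := by exact_mod_cast hH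
  have hH0 : (0 : ℝ) < H := by linarith
  obtain ⟨r, hr⟩ : ∃ r : ℝ, r = (H : ℝ) ^ (1 / (2 * (m : ℝ))) := ⟨_, rfl⟩
  have hr0 : 0 < r := by rw [hr]; positivity
  have hrr : (H : ℝ) ^ (1 / (m : ℝ)) = r * r := by
    rw [hr, ← Real.rpow_add hH0]
    congr 1
    field_simp
    norm_num
  have e2 : (H : ℝ) ^ (-(1 / (m : ℝ))) = 1 / (r * r) := by
    rw [Real.rpow_neg hH0.le, hrr, one_div]
  have e3 : (H : ℝ) ^ (-(1 / (2 * (m : ℝ)))) = 1 / r := by
    rw [Real.rpow_neg hH0.le, ← hr, one_div]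
  rw [e2, e3, hrr, div_le_iff₀ (by positivity)]
  have f1 : (2 * ((A : ℝ) * (H : ℝ) ^ 3) + 1) * ((Lc m k : ℝ) * H * (2 * H + 1) ^ (k - 1)) ≤
      C * (H : ℝ) ^ n := by
    have g1 : 2 * ((A : ℝ) * (H : ℝ) ^ 3) + 1 ≤ (2 * A + 1) * (H : ℝ) ^ 3 := by
      have : 1 ≤ (H : ℝ) ^ 3 := one_le_pow₀ hH1
      linarith
    have g2 : (2 * (H : ℝ) + 1) ^ (k - 1) ≤ 3 ^ (k - 1) * (H : ℝ) ^ (k - 1) := by
      rw [← mul_pow]
      apply pow_le_pow_left₀ (by positivity)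
      linarith
    have g3 : (H : ℝ) ^ 3 * (H * (H : ℝ) ^ (k - 1)) ≤ (H : ℝ) ^ n := by
      rw [← pow_succ', ← pow_add]
      exact pow_le_pow_right₀ hH1 (by omega)
    calc (2 * ((A : ℝ) * (H : ℝ) ^ 3) + 1) * ((Lc m k : ℝ) * H * (2 * H + 1) ^ (k - 1))
        ≤ ((2 * A + 1) * (H : ℝ) ^ 3) * ((Lc m k : ℝ) * H * (3 ^ (k - 1) * (H : ℝ) ^ (k - 1))) := by
          gcongr
      _ = C * ((H : ℝ) ^ 3 * (H * (H : ℝ) ^ (k - 1))) := by rw [hC]; ring
      _ ≤ _ := by gcongr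
  have f2 : ((H : ℝ) ^ k / (H : ℝ) ^ 2 + 1) * (H : ℝ) * (H : ℝ) ^ k ≤ 2 * (H : ℝ) ^ n := by
    have g1 : (H : ℝ) ^ k / (H : ℝ) ^ 2 * (H : ℝ) * (H : ℝ) ^ k ≤ (H : ℝ) ^ n := by
      have g2 : (H : ℝ) ^ k / (H : ℝ) ^ 2 * (H : ℝ) * (H : ℝ) ^ k = (H : ℝ) ^ (2 * k) / H := by
        rw [two_mul, pow_add]
        field_simp
      rw [g2, div_le_iff₀ hH0, ← pow_succ]
      exact pow_le_pow_right₀ hH1 h2k
    have g2 : (H : ℝ) * (H : ℝ) ^ k ≤ (H : ℝ) ^ n := by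
      rw [← pow_succ']
      exact pow_le_pow_right₀ hH1 (by omega)
    have g3 : ((H : ℝ) ^ k / (H : ℝ) ^ 2 + 1) * (H : ℝ) * (H : ℝ) ^ k =
        (H : ℝ) ^ k / (H : ℝ) ^ 2 * (H : ℝ) * (H : ℝ) ^ k + (H : ℝ) * (H : ℝ) ^ k := by ring
    rw [g3]
    linarith
  unfold err
  rw [← hr]
  calc (2 * ((A : ℝ) * (H : ℝ) ^ 3) + 1) * ((Lc m k : ℝ) * H * (2 * H + 1) ^ (k - 1)) +
        D * (((H : ℝ) ^ k / (H : ℝ) ^ 2 + 1) * ((H : ℝ) * r)) * (H : ℝ) ^ k
      = (2 * ((A : ℝ) * (H : ℝ) ^ 3) + 1) * ((Lc m k : ℝ) * H * (2 * H + 1) ^ (k - 1)) +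
        D * r * (((H : ℝ) ^ k / (H : ℝ) ^ 2 + 1) * (H : ℝ) * (H : ℝ) ^ k) := by ring
    _ ≤ C * (H : ℝ) ^ n + D * r * (2 * (H : ℝ) ^ n) := by gcongr
    _ = _ := by
        field_simp

/-- **The tail.** -/
lemma tail {m n k : ℕ} (hm : 2 ≤ m) (hk : 1 ≤ k) (hn : n + 1 = m * k)
    (hmk : 4 ≤ (m - 1) * k) : ∃ K : ℝ, 0 < K ∧ ∀ T : ℕ, ∀ᶠ H : ℕ in atTop,
    (Set.ncard {a | a ∈ ibox (Fin (n + 1)) H ∧ ∃ x : ℤ, T < x.natAbs ∧
      IsPow m (fx n a x)} : ℝ) ≤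
      K * ((T : ℝ) + 1) ^ (1 - se m n) * ((H : ℝ) ^ n * (H : ℝ) ^ (1 / (m : ℝ))) := by
  classical
  obtain ⟨A, hA, D, hD, hbig⟩ := big_pt hm hk hn
  obtain ⟨K₀, hK₀⟩ : ∃ K₀ : ℝ, K₀ = 3 * (5 * (n + 1)) * (4 * n + 6) ^ n := ⟨_, rfl⟩
  have hK0 : 0 < K₀ := by rw [hK₀]; positivity
  have hs := se_ge hm hn hmk
  refine ⟨4 * K₀ + 1, by positivity, fun T => ?_⟩
  have hT0 : (0 : ℝ) < (T : ℝ) + 1 := by positivity
  have hη : 0 < ((T : ℝ) + 1) ^ (1 - se m n) := by positivity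
  filter_upwards [eventually_ge_atTop 1,
    (err_lim (A := A) hD hm hk hn hmk).eventually (gt_mem_nhds hη)] with H hH herr
  have hH1 : (1 : ℝ) ≤ H := by exact_mod_cast hH
  have hH0 : (0 : ℝ) < H := by linarith
  obtain ⟨X, hX⟩ : ∃ X : ℝ, X = (H : ℝ) ^ n * (H : ℝ) ^ (1 / (m : ℝ)) := ⟨_, rfl⟩
  have hX0 : 0 < X := by rw [hX]; positivity
  rw [← hX, div_lt_iff₀ hX0] at herr
  rw [← hX]
  obtain ⟨M, hM⟩ : ∃ M : ℕ, M = 4 * (n + 1) * H := ⟨_, rfl⟩
  obtain ⟨F, hF⟩ : ∃ F : Finset ℤ, F = (Icc (-(M : ℤ)) M).filter fun x => T < x.natAbs := ⟨_, rfl⟩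
  obtain ⟨N, hN⟩ : ∃ N : ℕ, N = A * H ^ 3 := ⟨_, rfl⟩
  obtain ⟨G, hG⟩ : ∃ G : Finset ℤ, G = (Icc (-(N : ℤ)) N).filter fun x => M ≤ x.natAbs := ⟨_, rfl⟩
  have hfin : ∀ p : (Fin (n + 1) → ℤ) → Prop, {a | a ∈ ibox (Fin (n + 1)) H ∧ p a}.Finite :=
    fun p => (finite_toSet _).subset fun _ h => h.1
  have hsub : {a | a ∈ ibox (Fin (n + 1)) H ∧ ∃ x : ℤ, T < x.natAbs ∧ IsPow m (fx n a x)} ⊆
      ((⋃ x ∈ F, {a | a ∈ ibox (Fin (n + 1)) H ∧ IsPow m (fx n a x)}) ∪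
      (⋃ x ∈ G, {a | a ∈ ibox (Fin (n + 1)) H ∧ IsPow m (fx n a x)})) ∪
      {a | a ∈ ibox (Fin (n + 1)) H ∧ ∃ x : ℤ, A * H ^ 3 ≤ x.natAbs ∧ IsPow m (fx n a x)} := by
    rintro a ⟨ha, x, hx, hp⟩
    rcases Nat.lt_or_ge M x.natAbs with h1 | h1
    · rcases Nat.lt_or_ge N x.natAbs with h2 | h2
      · right
        exact ⟨ha, x, by omega, hp⟩
      · left; right
        rw [Set.mem_iUnion₂]
        refine ⟨x, ?_, ha, hp⟩
        rw [hG, mem_filter, mem_Icc]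
        omega
    · left; left
      rw [Set.mem_iUnion₂]
      refine ⟨x, ?_, ha, hp⟩
      rw [hF, mem_filter, mem_Icc]
      omega
  have hfinU : (((⋃ x ∈ F, {a | a ∈ ibox (Fin (n + 1)) H ∧ IsPow m (fx n a x)}) ∪
      (⋃ x ∈ G, {a | a ∈ ibox (Fin (n + 1)) H ∧ IsPow m (fx n a x)})) ∪
      {a | a ∈ ibox (Fin (n + 1)) H ∧ ∃ x : ℤ, A * H ^ 3 ≤ x.natAbs ∧
        IsPow m (fx n a x)}).Finite := by
    refine ((Set.Finite.biUnion (finite_toSet _) fun x _ => hfin _).union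
      (Set.Finite.biUnion (finite_toSet _) fun x _ => hfin _)).union (hfin _)
  have h1 := Set.ncard_le_ncard hsub hfinU
  have h2 := (h1.trans (Set.ncard_union_le _ _)).trans (Nat.add_le_add_right
    ((Set.ncard_union_le _ _).trans (Nat.add_le_add (Finset.set_ncard_biUnion_le _ _)
      (Finset.set_ncard_biUnion_le _ _))) _)
  have h3 : (Set.ncard {a | a ∈ ibox (Fin (n + 1)) H ∧ ∃ x : ℤ, T < x.natAbs ∧
      IsPow m (fx n a x)} : ℝ) ≤
      (∑ x ∈ F, (Set.ncard {a | a ∈ ibox (Fin (n + 1)) H ∧ IsPow m (fx n a x)} : ℝ)) +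
      (∑ x ∈ G, (Set.ncard {a | a ∈ ibox (Fin (n + 1)) H ∧ IsPow m (fx n a x)} : ℝ)) +
      (Set.ncard {a | a ∈ ibox (Fin (n + 1)) H ∧ ∃ x : ℤ, A * H ^ 3 ≤ x.natAbs ∧
        IsPow m (fx n a x)} : ℝ) := by exact_mod_cast h2
  have hFsum : ∑ x ∈ F, (Set.ncard {a | a ∈ ibox (Fin (n + 1)) H ∧ IsPow m (fx n a x)} : ℝ) ≤
      4 * K₀ * ((T : ℝ) + 1) ^ (1 - se m n) * X := by
    have g1 : ∀ x ∈ F, (Set.ncard {a | a ∈ ibox (Fin (n + 1)) H ∧ IsPow m (fx n a x)} : ℝ) ≤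
        K₀ * X * |(x : ℝ)| ^ (-(se m n)) := by
      intro x hx
      rw [hF, mem_filter, mem_Icc] at hx
      have hx0 : x ≠ 0 := by omega
      have hxM : |(x : ℝ)| ≤ 4 * (n + 1) * H := by
        have h4 : x.natAbs ≤ M := by omega
        have h5 : (x.natAbs : ℝ) ≤ (M : ℝ) := by exact_mod_cast h4
        rw [Nat.cast_natAbs, Int.cast_abs, hM] at h5
        push_cast at h5
        exact h5
      rw [hK₀, hX]
      exact small_pt hm hH hx0 hxM
    refine (sum_le_sum g1).trans ?_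
    rw [← mul_sum]
    have g2 := sum_rpow hs T F (fun x hx => by
      rw [hF, mem_filter] at hx
      exact hx.2)
    calc K₀ * X * ∑ x ∈ F, |(x : ℝ)| ^ (-(se m n))
        ≤ K₀ * X * (4 * ((T : ℝ) + 1) ^ (1 - se m n)) := by gcongr
      _ = _ := by ring
  have hGsum : ∑ x ∈ G, (Set.ncard {a | a ∈ ibox (Fin (n + 1)) H ∧ IsPow m (fx n a x)} : ℝ) ≤
      (2 * (A * (H : ℝ) ^ 3) + 1) * ((Lc m k : ℝ) * H * (2 * H + 1) ^ (k - 1)) := by
    have g1 : ∀ x ∈ G, (Set.ncard {a | a ∈ ibox (Fin (n + 1)) H ∧ IsPow m (fx n a x)} : ℝ) ≤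
        (Lc m k : ℝ) * H * (2 * H + 1) ^ (k - 1) := by
      intro x hx
      rw [hG, mem_filter] at hx
      have := mid_pt hm hk hn hH (x := x) (by rw [← hM]; exact hx.2)
      exact_mod_cast this
    refine (sum_le_sum g1).trans ?_
    rw [sum_const, nsmul_eq_mul]
    apply mul_le_mul_of_nonneg_right _ (by positivity)
    have g2 : G.card ≤ 2 * N + 1 := by
      rw [hG, ← card_Icc_H]
      exact card_filter_le _ _
    have g3 : (G.card : ℝ) ≤ 2 * (N : ℝ) + 1 := by exact_mod_cast g2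
    rw [hN] at g3
    push_cast at g3
    exact g3
  have hb := hbig H hH
  unfold err at herr
  have e1 : (4 * K₀ + 1) * ((T : ℝ) + 1) ^ (1 - se m n) * X =
      4 * K₀ * ((T : ℝ) + 1) ^ (1 - se m n) * X + ((T : ℝ) + 1) ^ (1 - se m n) * X := by ring
  rw [e1]
  linarith

/-- a difference of roots -/
lemma pr_diff {m : ℕ} (hm : 1 ≤ m) {s L : ℝ} (hs : 0 ≤ s) (hL : s + 1 ≤ L) :
    1 / m * L ^ (-(1 - 1 / (m : ℝ))) ≤ pr m (s + 1) - pr m s := by
  have hm0 : (0 : ℝ) < m := by exact_mod_cast hm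
  unfold pr
  rw [max_eq_left (by linarith), max_eq_left hs]
  obtain ⟨p, rfl⟩ : ∃ p, m = p + 1 := ⟨m - 1, by omega⟩
  obtain ⟨u, hu⟩ : ∃ u : ℝ, u = (s + 1) ^ (1 / (((p + 1 : ℕ)) : ℝ)) := ⟨_, rfl⟩
  obtain ⟨v, hv⟩ : ∃ v : ℝ, v = s ^ (1 / (((p + 1 : ℕ)) : ℝ)) := ⟨_, rfl⟩
  have hu0 : 0 < u := by rw [hu]; positivity
  have hv0 : 0 ≤ v := by rw [hv]; positivity
  have huv : v ≤ u := by
    rw [hu, hv]
    apply Real.rpow_le_rpow hs (by linarith)
    positivity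
  have hup : u ^ (p + 1) = s + 1 := by
    rw [hu, ← Real.rpow_natCast, ← Real.rpow_mul (by linarith), one_div_mul_cancel hm0.ne',
      Real.rpow_one]
  have hvp : v ^ (p + 1) = s := by
    rw [hv, ← Real.rpow_natCast, ← Real.rpow_mul hs, one_div_mul_cancel hm0.ne', Real.rpow_one]
  rw [← hu, ← hv]
  -- `1 ≤ m u ^ (m - 1) (u - v)`
  have h1 : u ^ (p + 1) - v ^ (p + 1) ≤ (p + 1) * u ^ p * (u - v) := by
    have h2 := (Commute.all u v).mul_geom_sum₂ (p + 1)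
    rw [← h2, mul_comm]
    apply mul_le_mul_of_nonneg_right _ (by linarith)
    have h3 : ∀ i ∈ range (p + 1), u ^ i * v ^ (p + 1 - 1 - i) ≤ u ^ p := by
      intro i hi
      rw [mem_range] at hi
      calc u ^ i * v ^ (p + 1 - 1 - i) ≤ u ^ i * u ^ (p + 1 - 1 - i) := by gcongr
        _ = u ^ p := by
            rw [← pow_add]
            congr 1
            omega
    refine (sum_le_sum h3).trans ?_
    rw [sum_const, card_range, nsmul_eq_mul]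
    push_cast
    exact le_rfl
  have h2 : u ^ p = (s + 1) ^ (1 - 1 / (((p + 1 : ℕ)) : ℝ)) := by
    rw [hu, ← Real.rpow_natCast, ← Real.rpow_mul (by linarith)]
    congr 1
    push_cast
    have : (p : ℝ) + 1 ≠ 0 := by positivity
    field_simp
    ring
  have h3 : u ^ p ≤ L ^ (1 - 1 / (((p + 1 : ℕ)) : ℝ)) := by
    rw [h2]
    apply Real.rpow_le_rpow (by linarith) hL
    rw [sub_nonneg, div_le_one hm0]
    exact_mod_cast hm
  have hL0 : 0 < L := by linarith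
  rw [Real.rpow_neg hL0.le, ← div_eq_mul_inv, div_div, div_le_iff₀ (by positivity)]
  have h4 : (1 : ℝ) = u ^ (p + 1) - v ^ (p + 1) := by rw [hup, hvp]; ring
  have h5 : 0 ≤ u - v := by linarith
  calc (1 : ℝ) ≤ (p + 1) * u ^ p * (u - v) := le_of_eq_of_le h4 h1
    _ ≤ (p + 1) * L ^ (1 - 1 / (((p + 1 : ℕ)) : ℝ)) * (u - v) := by gcongr
    _ = _ := by push_cast; ring

/-- **The lower bound for the weights.** -/
lemma W_lower {m n : ℕ} (hm : 1 ≤ m) : ∃ c : ℝ, 0 < c ∧ ∀ x : ℤ, x ≠ 0 →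
    c * |(x : ℝ)| ^ (-(se m n)) ≤ W m n x := by
  have hm0 : (0 : ℝ) < m := by exact_mod_cast hm
  have he : 0 ≤ 1 - 1 / (m : ℝ) := by
    rw [sub_nonneg, div_le_one hm0]
    exact_mod_cast hm
  refine ⟨1 / m * ((n : ℝ) + 1) ^ (-(1 - 1 / (m : ℝ))), by positivity, fun x hx => ?_⟩
  have hx1 : (1 : ℝ) ≤ |(x : ℝ)| := by
    have := Int.one_le_abs hx
    exact_mod_cast this
  have hx0 : 0 < |(x : ℝ)| := by linarith
  -- the subset of the cube
  obtain ⟨B, hB⟩ : ∃ B : Set (Fin n → ℝ), B = Set.pi Set.univ fun i : Fin n =>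
    if 0 ≤ (x : ℝ) ^ ((i : ℕ) + 1) then Set.Icc (0 : ℝ) 1 else Set.Icc (-1 : ℝ) 0 := ⟨_, rfl⟩
  have hBv : volume B = 1 := by
    rw [hB, volume_pi_pi]
    apply prod_eq_one
    intro i _
    split_ifs
    · rw [Real.volume_Icc]; norm_num
    · rw [Real.volume_Icc]; norm_num
  have hBm : MeasurableSet B := by
    rw [hB]
    apply MeasurableSet.univ_pi
    intro i
    split_ifs
    · exact measurableSet_Icc
    · exact measurableSet_Icc
  have hBc : B ⊆ cube n := by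
    intro u hu i
    rw [hB] at hu
    have h1 := hu i (Set.mem_univ i)
    simp only at h1
    split_ifs at h1 with h2
    · rw [abs_le]
      exact ⟨by linarith [h1.1], h1.2⟩
    · rw [abs_le]
      exact ⟨h1.1, by linarith [h1.2]⟩
  have hell : ∀ u ∈ B, 0 ≤ ell n x u := by
    intro u hu
    rw [hB] at hu
    unfold ell
    apply sum_nonneg
    intro i _
    have h1 := hu i (Set.mem_univ i)
    simp only at h1
    split_ifs at h1 with h2
    · exact mul_nonneg h1.1 h2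
    · exact mul_nonneg_of_nonpos_of_nonpos h1.2 (not_le.1 h2).le
  have hell2 : ∀ u ∈ B, ell n x u + 1 ≤ (n + 1) * |(x : ℝ)| ^ n := by
    intro u hu
    have h1 : |ell n x u| ≤ n * |(x : ℝ)| ^ n := by
      unfold ell
      refine (abs_sum_le_sum_abs _ _).trans ?_
      have h2 : ∀ i ∈ (univ : Finset (Fin n)), |u i * (x : ℝ) ^ ((i : ℕ) + 1)| ≤
          |(x : ℝ)| ^ n := by
        intro i _
        rw [abs_mul, abs_pow]
        calc |u i| * |(x : ℝ)| ^ ((i : ℕ) + 1) ≤ 1 * |(x : ℝ)| ^ n := by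
              apply mul_le_mul (hBc hu i) _ (by positivity) zero_le_one
              exact pow_le_pow_right₀ hx1 (by omega)
          _ = _ := one_mul _
      refine (sum_le_sum h2).trans ?_
      rw [sum_const, card_univ, Fintype.card_fin, nsmul_eq_mul]
    have h2 := (le_abs_self (ell n x u)).trans h1
    have h3 : 1 ≤ |(x : ℝ)| ^ n := one_le_pow₀ hx1
    linarith
  have hcube : IntegrableOn (Phi m n x) (cube n) := by
    apply (Phi_cont hm n x).continuousOn.integrableOn_compact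
    rw [cube_eq]
    exact Metric.isCompact_of_isClosed_isBounded (Pool.Agent.N656.LL.K_closed _)
      (Pool.Agent.N656.LL.K_bounded _)
  obtain ⟨c, hc⟩ : ∃ c : ℝ, c = 1 / m * ((n : ℝ) + 1) ^ (-(1 - 1 / (m : ℝ))) *
    |(x : ℝ)| ^ (-(se m n)) := ⟨_, rfl⟩
  rw [← hc]
  have hPhi : ∀ u ∈ B, c ≤ Phi m n x u := by
    intro u hu
    have h1 := pr_diff hm (hell u hu) (hell2 u hu)
    have h2 : 1 / (m : ℝ) * (((n : ℝ) + 1) * |(x : ℝ)| ^ n) ^ (-(1 - 1 / (m : ℝ))) = c := by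
      rw [Real.mul_rpow (by positivity) (by positivity), hc, ← Real.rpow_natCast |(x : ℝ)| n,
        ← Real.rpow_mul hx0.le]
      unfold se
      rw [mul_neg, mul_assoc]
    rw [h2] at h1
    refine h1.trans ?_
    unfold Phi
    have h3 := rho_mono m (by linarith : ell n x u - 1 ≤ ell n x u)
    have h4 : ∀ t : ℝ, 0 ≤ t → rho m t = pr m t := by
      intro t ht
      unfold rho
      have h5 : pr m (-t) = 0 := by
        unfold pr
        rw [max_eq_right (by linarith), Real.zero_rpow (by positivity)]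
      rw [h5]
      simp
    rw [h4 (ell n x u) (hell u hu)] at h3
    rw [h4 (ell n x u + 1) (by linarith [hell u hu])]
    linarith
  unfold W
  calc c = ∫ _ in B, c := by
        rw [setIntegral_const, Measure.real, hBv]
        simp
    _ ≤ ∫ u in B, Phi m n x u := by
        apply setIntegral_mono_on _ (hcube.mono_set hBc) hBm hPhi
        rw [integrableOn_const_iff]
        right
        rw [hBv]
        exact ENNReal.one_lt_top
    _ ≤ ∫ u in cube n, Phi m n x u := by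
        apply setIntegral_mono_set hcube (Eventually.of_forall (Phi_nonneg m n x))
        exact Eventually.of_forall hBc

/-- the data -/
noncomputable def dat {m n k : ℕ} (hm : 2 ≤ m) (hk : 1 ≤ k) (hn : n + 1 = m * k)
    (hmk : 4 ≤ (m - 1) * k) : GData where
  α := Fin (n + 1) → ℤ
  dec := inferInstance
  β := ℤ
  decβ := inferInstance
  sz := Int.natAbs
  fin' := fun T => (Set.finite_Icc (-(T : ℤ)) T).subset fun x hx => by
    have hx' : x.natAbs ≤ T := hx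
    rw [Set.mem_Icc]
    omega
  S := fun H => ibox (Fin (n + 1)) H
  Z := fun a x => IsPow m (fx n a x)
  v := W m n
  X := fun H => (H : ℝ) ^ n * (H : ℝ) ^ (1 / (m : ℝ))
  t := fun T => (tail hm hk hn hmk).choose * ((T : ℝ) + 1) ^ (1 - se m n)
  hX := by
    filter_upwards [eventually_ge_atTop 1] with H hH
    have hH0 : (0 : ℝ) < H := by exact_mod_cast hH
    positivity
  hv := W_pos (by omega) n
  lim := fun x => loc_lim hm n x
  two := fun x x' hxx => by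
    have hn1 : 1 ≤ n := by
      have : 2 * 1 ≤ m * k := Nat.mul_le_mul hm hk
      omega
    exact two_pts hm hn1 hxx
  ht := by
    have hs := se_ge hm hn hmk
    have h1 : Tendsto (fun T : ℕ => ((T : ℝ) + 1)) atTop atTop :=
      tendsto_atTop_add_const_right _ _ tendsto_natCast_atTop_atTop
    have h2 := ((tendsto_rpow_neg_atTop (by linarith : 0 < se m n - 1)).comp h1).const_mul
      (tail hm hk hn hmk).choose
    rw [mul_zero] at h2
    refine h2.congr fun T => ?_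
    simp only [Function.comp]
    congr 2
    ring
  tail := (tail hm hk hn hmk).choose_spec.2

end Pool.Agent.N656.SE
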