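import Pool.Agent.N656.SE.Near
import Pool.Agent.H510R2.Div

set_option autoImplicit false
set_option linter.unusedSectionVars false

/-! Very large points. -/

open Polynomial Finset Filter Topology

namespace Pool.Agent.N656.SE

open Pool.Agent.R414.DN

/-- the polynomial -/
noncomputable def fp (n : ℕ) (a : Fin (n + 1) → ℤ) : ℤ[X] :=
  X ^ (n + 1) + ∑ i : Fin (n + 1), monomial (i : ℕ) (a i)

lemma fp_eval (n : ℕ) (a : Fin (n + 1) → ℤ) (x : ℤ) : (fp n a).eval x = fx n a x := by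
  unfold fp fx
  rw [eval_add, eval_pow, eval_X, eval_finsetSum]
  congr 1
  refine sum_congr rfl fun i _ => ?_
  rw [eval_monomial]

lemma fp_coeff (n : ℕ) (a : Fin (n + 1) → ℤ) (i : Fin (n + 1)) :
    (fp n a).coeff (i : ℕ) = a i := by
  unfold fp
  rw [coeff_add, coeff_X_pow, if_neg (by omega), zero_add, finsetSum_coeff, sum_eq_single i]
  · rw [coeff_monomial, if_pos rfl]
  · intro j _ hj
    rw [coeff_monomial, if_neg]
    intro h
    exact hj (Fin.ext h)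
  · intro h
    exact absurd (mem_univ i) h

lemma fp_coeff_le {n H : ℕ} (hH : 1 ≤ H) {a : Fin (n + 1) → ℤ}
    (ha : a ∈ ibox (Fin (n + 1)) H) {j : ℕ} (hj : j < n + 2) : |(fp n a).coeff j| ≤ H := by
  rcases Nat.lt_or_ge j (n + 1) with h | h
  · have := fp_coeff n a ⟨j, h⟩
    rw [show ((⟨j, h⟩ : Fin (n + 1)) : ℕ) = j from rfl] at this
    rw [this]
    exact mem_ibox.1 ha _
  · have h' : j = n + 1 := by omega
    subst h'
    unfold fp
    rw [coeff_add, coeff_X_pow, if_pos rfl, finsetSum_coeff, sum_eq_zero]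
    · rw [add_zero, abs_one]
      exact_mod_cast hH
    · intro i _
      rw [coeff_monomial, if_neg (by omega)]

lemma fp_inj {n : ℕ} {a a' : Fin (n + 1) → ℤ} (h : fp n a = fp n a') : a = a' := by
  funext i
  rw [← fp_coeff n a i, h, fp_coeff]

lemma fp_natDegree (n : ℕ) (a : Fin (n + 1) → ℤ) : (fp n a).natDegree ≤ n + 1 := by
  unfold fp
  refine (natDegree_add_le _ _).trans (max_le (natDegree_X_pow_le _) ?_)
  apply natDegree_sum_le_of_forall_le
  intro i _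
  exact (natDegree_monomial_le _).trans (by omega)

lemma gx_natDegree (m k : ℕ) (γ : ℤ[X]) : (gx m k γ).natDegree ≤ k := by
  unfold gx
  apply natDegree_sum_le_of_forall_le
  intro i _
  exact (natDegree_monomial_le _).trans (by omega)

/-- the integral divisors -/
noncomputable def dv (N : ℤ) : Finset ℤ :=
  N.natAbs.divisors.image (fun d : ℕ => (d : ℤ)) ∪ N.natAbs.divisors.image (fun d : ℕ => -(d : ℤ))

lemma card_dv (N : ℤ) : (dv N).card ≤ 2 * N.natAbs.divisors.card := by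
  unfold dv
  refine (card_union_le _ _).trans ?_
  have h1 := card_image_le (s := N.natAbs.divisors) (f := fun d : ℕ => (d : ℤ))
  have h2 := card_image_le (s := N.natAbs.divisors) (f := fun d : ℕ => -(d : ℤ))
  omega

lemma mem_dv {N x : ℤ} (hN : N ≠ 0) (h : x ∣ N) : x ∈ dv N := by
  unfold dv
  rw [mem_union, mem_image, mem_image]
  have h1 : x.natAbs ∈ N.natAbs.divisors := by
    rw [Nat.mem_divisors]
    exact ⟨Int.natAbs_dvd_natAbs.2 h, Int.natAbs_ne_zero.2 hN⟩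
  rcases Int.natAbs_eq x with hx | hx
  · left
    exact ⟨x.natAbs, h1, hx.symm⟩
  · right
    exact ⟨x.natAbs, h1, hx.symm⟩

/-- a root divides a coefficient -/
lemma root_dvd {P : ℤ[X]} (hP : P ≠ 0) {x : ℤ} (hx : x ≠ 0) (h : P.eval x = 0) :
    P.coeff P.natTrailingDegree ≠ 0 ∧ x ∣ P.coeff P.natTrailingDegree := by
  refine ⟨trailingCoeff_nonzero_iff_nonzero.2 hP, ?_⟩
  have h1 : X ^ P.natTrailingDegree ∣ P := by
    rw [X_pow_dvd_iff]
    intro d hd
    exact coeff_eq_zero_of_lt_natTrailingDegree hd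
  obtain ⟨R, hR⟩ := h1
  have h2 : P.coeff P.natTrailingDegree = R.coeff 0 := by
    conv_lhs => rw [hR]
    have := coeff_X_pow_mul R P.natTrailingDegree 0
    rw [zero_add] at this
    rw [← hR] at this ⊢
    exact this
  rw [h2]
  rw [hR, eval_mul, eval_pow, eval_X] at h
  have h3 : R.eval x = 0 := by
    rcases mul_eq_zero.1 h with h4 | h4
    · exact absurd (eq_zero_of_pow_eq_zero h4) hx
    · exact h4
  have h4 := sub_dvd_eval_sub x 0 R
  rw [h3, sub_zero, zero_sub, dvd_neg, ← coeff_zero_eq_eval_zero] at h4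
  exact h4

/-- **The fibres.** -/
lemma fibre {m n k H : ℕ} (hm : 1 ≤ m) (hn : n + 1 = m * k) (hH : 1 ≤ H) (γ : ℤ[X]) (S : ℤ)
    (T : Finset (Fin (n + 1) → ℤ)) (hT : T ⊆ ibox (Fin (n + 1)) H)
    (hx : ∀ a ∈ T, ∃ x : ℤ, 2 * H < x.natAbs ∧
      ((gx m k γ).eval x + S) ^ m = (m : ℤ) ^ (2 * (n + 1)) * fx n a x)
    (τ : ℕ) (hτ : ∀ s : ℤ, |s| ≤ H → ∀ j : ℕ,
      (m : ℤ) ^ (2 * (n + 1)) * s - ((gx m k γ + C S) ^ m).coeff j ≠ 0 →
      ((m : ℤ) ^ (2 * (n + 1)) * s - ((gx m k γ + C S) ^ m).coeff j).natAbs.divisors.card ≤ τ) :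
    T.card ≤ 1 + (n + 2) * (2 * H + 1) * (2 * τ) := by
  classical
  obtain ⟨M, hM⟩ : ∃ M : ℤ, M = (m : ℤ) ^ (2 * (n + 1)) := ⟨_, rfl⟩
  have hM0 : M ≠ 0 := by
    rw [hM]
    apply pow_ne_zero
    exact_mod_cast (by omega : m ≠ 0)
  obtain ⟨Q, hQ⟩ : ∃ Q : ℤ[X], Q = (gx m k γ + C S) ^ m := ⟨_, rfl⟩
  rw [← hM, ← hQ] at hτ
  rw [← hM] at hx
  choose! x hx1 hx2 using hx
  have hQe : ∀ a ∈ T, Q.eval (x a) = M * fx n a (x a) := by
    intro a ha
    rw [← hx2 a ha, hQ, eval_pow, eval_add, eval_C]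
  have hQd : Q.natDegree ≤ n + 1 := by
    rw [hQ, hn]
    refine natDegree_pow_le.trans (Nat.mul_le_mul_left _ ?_)
    refine (natDegree_add_le _ _).trans (max_le (gx_natDegree m k γ) ?_)
    rw [natDegree_C]
    exact Nat.zero_le _
  obtain ⟨P, hP⟩ : ∃ P : (Fin (n + 1) → ℤ) → ℤ[X], P = fun a => C M * fp n a - Q := ⟨_, rfl⟩
  have hPe : ∀ a ∈ T, (P a).eval (x a) = 0 := by
    intro a ha
    rw [hP]
    simp only
    rw [eval_sub, eval_mul, eval_C, fp_eval, hQe a ha, sub_self]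
  rw [← card_filter_add_card_filter_not (s := T) (fun a => P a = 0)]
  apply Nat.add_le_add
  · rw [card_le_one]
    intro a ha a' ha'
    have h1 := (mem_filter.1 ha).2
    have h2 := (mem_filter.1 ha').2
    rw [hP] at h1 h2
    simp only at h1 h2
    apply fp_inj
    have h3 : C M * fp n a = C M * fp n a' := by
      rw [sub_eq_zero.1 h1, sub_eq_zero.1 h2]
    exact mul_left_cancel₀ (by rw [Ne, C_eq_zero]; exact hM0) h3
  · have hinj : Set.InjOn x (T.filter (fun a => ¬ P a = 0) : Set (Fin (n + 1) → ℤ)) := by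
      intro a ha a' ha' h
      rw [mem_coe, mem_filter] at ha ha'
      apply digit_unique (hT ha.1) (hT ha'.1) (hx1 a ha.1)
      have h1 := hQe a ha.1
      have h2 := hQe a' ha'.1
      rw [← h, h1] at h2
      exact mul_left_cancel₀ hM0 h2
    rw [← card_image_of_injOn hinj]
    obtain ⟨D, hD⟩ : ∃ D : Finset ℤ, D = (range (n + 2) ×ˢ Icc (-(H : ℤ)) H).biUnion fun p =>
      if M * p.2 - Q.coeff p.1 = 0 then ∅ else dv (M * p.2 - Q.coeff p.1) := ⟨_, rfl⟩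
    have hsub : (T.filter fun a => ¬ P a = 0).image x ⊆ D := by
      intro z hz
      rw [mem_image] at hz
      obtain ⟨a, ha, rfl⟩ := hz
      rw [mem_filter] at ha
      have hx0 : x a ≠ 0 := by
        have := hx1 a ha.1
        omega
      obtain ⟨h1, h2⟩ := root_dvd ha.2 hx0 (hPe a ha.1)
      have h3 : (P a).natTrailingDegree < n + 2 := by
        refine lt_of_le_of_lt (natTrailingDegree_le_natDegree _) ?_
        have h4 : (P a).natDegree ≤ n + 1 := by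
          rw [hP]
          simp only
          refine (natDegree_sub_le _ _).trans (max_le ?_ hQd)
          exact (natDegree_C_mul_le _ _).trans (fp_natDegree n a)
        omega
      have h4 : (P a).coeff (P a).natTrailingDegree =
          M * (fp n a).coeff (P a).natTrailingDegree - Q.coeff (P a).natTrailingDegree := by
        have h5 : ∀ j, (P a).coeff j = M * (fp n a).coeff j - Q.coeff j := by
          intro j
          rw [hP]
          simp only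
          rw [coeff_sub, coeff_C_mul]
        exact h5 _
      rw [h4] at h1 h2
      rw [hD, mem_biUnion]
      refine ⟨((P a).natTrailingDegree, (fp n a).coeff (P a).natTrailingDegree), ?_, ?_⟩
      · rw [mem_product, mem_range, mem_Icc]
        exact ⟨h3, abs_le.1 (fp_coeff_le hH (hT ha.1) h3)⟩
      · simp only
        rw [if_neg h1]
        exact mem_dv h1 h2
    refine (card_le_card hsub).trans ?_
    rw [hD]
    refine card_biUnion_le.trans ?_
    have h1 : ∀ p ∈ range (n + 2) ×ˢ Icc (-(H : ℤ)) H,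
        (if M * p.2 - Q.coeff p.1 = 0 then ∅ else dv (M * p.2 - Q.coeff p.1)).card ≤ 2 * τ := by
      intro p hp
      rw [mem_product, mem_Icc] at hp
      split_ifs with h
      · rw [card_empty]
        exact Nat.zero_le _
      · exact (card_dv _).trans (Nat.mul_le_mul_left _ (hτ p.2 (abs_le.2 hp.2) p.1 h))
    refine (sum_le_sum h1).trans ?_
    rw [sum_const, card_product, card_range, card_Icc_H, smul_eq_mul]

/-- the size of the coefficients of the approximate root -/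
lemma gx_nrm {m k H : ℕ} (hm : 1 ≤ m) (hH : 1 ≤ H) {γ : ℤ[X]} {B : ℝ} (hB : 0 ≤ B)
    (h : nrm (1 / ((m : ℝ) ^ 2 * H)) γ ≤ B) :
    nrm 1 (gx m k γ) ≤ (k + 1) * (B * ((m : ℝ) ^ (4 * k) * (H : ℝ) ^ k)) := by
  have hm1 : (1 : ℝ) ≤ m := by exact_mod_cast hm
  have hH1 : (1 : ℝ) ≤ H := by exact_mod_cast hH
  have hH0 : (0 : ℝ) < H := by linarith
  have hm0 : (0 : ℝ) < m := by linarith
  unfold gx
  refine (nrm_sum zero_le_one _ _).trans ?_
  have h1 : ∀ i ∈ range (k + 1), nrm 1 (monomial (k - i) (γ.coeff i * (m : ℤ) ^ (2 * (k - i)))) ≤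
      B * ((m : ℝ) ^ (4 * k) * (H : ℝ) ^ k) := by
    intro i hi
    rw [mem_range] at hi
    rw [nrm_monomial, one_pow, mul_one]
    push_cast
    rw [abs_mul, abs_of_pos (show 0 < (m : ℝ) ^ (2 * (k - i)) by positivity)]
    have h2 := (coeff_le (t := 1 / ((m : ℝ) ^ 2 * H)) (by positivity) γ i).trans h
    rw [div_pow, one_pow, mul_one_div, div_le_iff₀ (by positivity), mul_pow, ← pow_mul] at h2
    have h3 : (m : ℝ) ^ (2 * i) ≤ (m : ℝ) ^ (2 * k) := pow_le_pow_right₀ hm1 (by omega)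
    have h4 : (H : ℝ) ^ i ≤ (H : ℝ) ^ k := pow_le_pow_right₀ hH1 (by omega)
    have h5 : (m : ℝ) ^ (2 * (k - i)) ≤ (m : ℝ) ^ (2 * k) := pow_le_pow_right₀ hm1 (by omega)
    calc |(γ.coeff i : ℝ)| * (m : ℝ) ^ (2 * (k - i))
        ≤ (B * ((m : ℝ) ^ (2 * i) * (H : ℝ) ^ i)) * (m : ℝ) ^ (2 * k) := by gcongr
      _ ≤ (B * ((m : ℝ) ^ (2 * k) * (H : ℝ) ^ k)) * (m : ℝ) ^ (2 * k) := by gcongr
      _ = _ := by
          have h6 : (m : ℝ) ^ (4 * k) = (m : ℝ) ^ (2 * k) * (m : ℝ) ^ (2 * k) := by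
            rw [← pow_add]
            congr 1
            omega
          rw [h6]
          ring
  refine (sum_le_sum h1).trans ?_
  rw [sum_const, card_range, nsmul_eq_mul]
  push_cast
  exact le_rfl

/-- **Very large points.** -/
lemma big_pt {m n k : ℕ} (hm : 2 ≤ m) (hk : 1 ≤ k) (hn : n + 1 = m * k) :
    ∃ A : ℕ, 1 ≤ A ∧ ∃ D : ℝ, 0 < D ∧ ∀ H : ℕ, 1 ≤ H →
      (Set.ncard {a | a ∈ ibox (Fin (n + 1)) H ∧ ∃ x : ℤ, A * H ^ 3 ≤ x.natAbs ∧
        IsPow m (fx n a x)} : ℝ) ≤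
      D * (((H : ℝ) ^ k / (H : ℝ) ^ 2 + 1) * ((H : ℝ) * (H : ℝ) ^ (1 / (2 * (m : ℝ))))) *
        (H : ℝ) ^ k := by
  classical
  have hm1 : 1 ≤ m := by omega
  have hm0 : (0 : ℝ) < m := by exact_mod_cast hm1
  have hkn : k ≤ n := by
    have : 2 * k ≤ m * k := Nat.mul_le_mul_right k hm
    omega
  obtain ⟨C₀, hC₀, hnear⟩ := near_pow hm hk hn
  have hε : 0 < 1 / (2 * (m : ℝ) * (n + 1)) := by positivity
  obtain ⟨D₀, hD₀, hdiv⟩ := Pool.Agent.H510R2.divisor_bound _ hε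
  obtain ⟨E, hE⟩ : ∃ E : ℝ, E = (m : ℝ) ^ (2 * (n + 1)) +
    ((k + 1) * (C₀ * (m : ℝ) ^ (4 * k)) + C₀) ^ m := ⟨_, rfl⟩
  have hE0 : 0 < E := by rw [hE]; positivity
  obtain ⟨F, hF⟩ : ∃ F : ℝ, F = D₀ * E ^ (1 / (2 * (m : ℝ) * (n + 1))) := ⟨_, rfl⟩
  have hF0 : 0 < F := by rw [hF]; positivity
  obtain ⟨A, hA⟩ : ∃ A : ℕ, A = ⌈C₀⌉₊ + 3 := ⟨_, rfl⟩
  have hAC : C₀ ≤ A := by
    rw [hA]
    push_cast
    have := Nat.le_ceil C₀
    linarith
  refine ⟨A, by omega, (2 * C₀ + 1) * (1 + 6 * (n + 2) * F) * 3 ^ k, by positivity,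
    fun H hH => ?_⟩
  have hH1 : (1 : ℝ) ≤ H := by exact_mod_cast hH
  have hH0 : (0 : ℝ) < H := by linarith
  have e1 : Set.ncard {a | a ∈ ibox (Fin (n + 1)) H ∧ ∃ x : ℤ, A * H ^ 3 ≤ x.natAbs ∧
        IsPow m (fx n a x)} =
      ((ibox (Fin (n + 1)) H).filter fun a => ∃ x : ℤ, A * H ^ 3 ≤ x.natAbs ∧
        IsPow m (fx n a x)).card := by
    rw [← Set.ncard_coe_finset]
    congr 1
    ext a
    simp
  rw [e1]
  obtain ⟨τ, hτ⟩ : ∃ τ : ℕ, τ = ⌊F * (H : ℝ) ^ (1 / (2 * (m : ℝ)))⌋₊ := ⟨_, rfl⟩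
  have hτ' : (τ : ℝ) ≤ F * (H : ℝ) ^ (1 / (2 * (m : ℝ))) := by
    rw [hτ]
    exact Nat.floor_le (by positivity)
  obtain ⟨R, hR⟩ : ∃ R : ℕ, R = ⌊C₀ * (H : ℝ) ^ k / (H : ℝ) ^ 2⌋₊ := ⟨_, rfl⟩
  have hR' : (R : ℝ) ≤ C₀ * (H : ℝ) ^ k / (H : ℝ) ^ 2 := by
    rw [hR]
    exact Nat.floor_le (by positivity)
  obtain ⟨J, hJ⟩ : ∃ J : Finset (Fin (n + 1)),
      J = univ.filter fun i : Fin (n + 1) => (i : ℕ) + k < n + 1 := ⟨_, rfl⟩
  have hJmem : ∀ i : Fin (n + 1), i ∈ J ↔ (i : ℕ) + k < n + 1 := by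
    intro i
    rw [hJ, mem_filter]
    simp
  have hJcard : J.card = n + 1 - k := by
    rw [← card_range (n + 1 - k)]
    refine card_bij' (fun i _ => (i : ℕ)) (fun j hj => ⟨j, by rw [mem_range] at hj; omega⟩)
      ?_ ?_ ?_ ?_
    · intro i hi
      rw [mem_range]
      have := (hJmem i).1 hi
      omega
    · intro j hj
      rw [mem_range] at hj
      rw [hJmem]
      show j + k < n + 1
      omega
    · intro i _
      rfl
    · intro j _
      rfl
  have key := card_fiber (H := H)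
    (S := (ibox (Fin (n + 1)) H).filter fun a => ∃ x : ℤ, A * H ^ 3 ≤ x.natAbs ∧
        IsPow m (fx n a x)) (filter_subset _ _) J
    ((1 + (n + 2) * (2 * H + 1) * (2 * τ)) * (2 * R + 1)) ?_
  · rw [Fintype.card_fin, hJcard, show n + 1 - (n + 1 - k) = k by omega] at key
    have key' : ((((ibox (Fin (n + 1)) H).filter fun a => ∃ x : ℤ, A * H ^ 3 ≤ x.natAbs ∧
        IsPow m (fx n a x)).card : ℕ) : ℝ) ≤
        ((1 + (n + 2) * (2 * H + 1) * (2 * τ)) * (2 * R + 1)) * (2 * H + 1) ^ k := by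
      exact_mod_cast key
    refine key'.trans ?_
    have f1 : (2 * (R : ℝ) + 1) ≤ (2 * C₀ + 1) * ((H : ℝ) ^ k / (H : ℝ) ^ 2 + 1) := by
      have g1 : 0 ≤ (H : ℝ) ^ k / (H : ℝ) ^ 2 := by positivity
      have g2 : C₀ * (H : ℝ) ^ k / (H : ℝ) ^ 2 = C₀ * ((H : ℝ) ^ k / (H : ℝ) ^ 2) := by ring
      rw [g2] at hR'
      nlinarith
    obtain ⟨r, hr⟩ : ∃ r : ℝ, r = (H : ℝ) ^ (1 / (2 * (m : ℝ))) := ⟨_, rfl⟩
    have hr1 : 1 ≤ r := by rw [hr]; exact Real.one_le_rpow hH1 (by positivity)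
    rw [← hr] at hτ' ⊢
    have f2 : 1 + ((n : ℝ) + 2) * (2 * H + 1) * (2 * τ) ≤ (1 + 6 * (n + 2) * F) * (H * r) := by
      have g1 : (2 * (H : ℝ) + 1) ≤ 3 * H := by linarith
      have g2 : ((n : ℝ) + 2) * (2 * H + 1) * (2 * τ) ≤ (n + 2) * (3 * H) * (2 * (F * r)) := by
        gcongr
      have g3 : 1 ≤ (H : ℝ) * r := by nlinarith
      have g4 : (1 + 6 * ((n : ℝ) + 2) * F) * (H * r) = H * r + (n + 2) * (3 * H) * (2 * (F * r)) := by
        ring
      rw [g4]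
      linarith
    have f3 : (2 * (H : ℝ) + 1) ^ k ≤ 3 ^ k * (H : ℝ) ^ k := by
      rw [← mul_pow]
      apply pow_le_pow_left₀ (by positivity)
      linarith
    calc ((1 + ((n : ℝ) + 2) * (2 * H + 1) * (2 * τ)) * (2 * R + 1)) * (2 * H + 1) ^ k
        ≤ (((1 + 6 * (n + 2) * F) * (H * r)) * ((2 * C₀ + 1) * ((H : ℝ) ^ k / (H : ℝ) ^ 2 + 1))) *
          (3 ^ k * (H : ℝ) ^ k) := by gcongr
      _ = _ := by ring
  -- the fibres
  intro b T hT hTb
  rcases T.eq_empty_or_nonempty with h0 | ⟨a₀, ha₀⟩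
  · rw [h0, card_empty]
    exact Nat.zero_le _
  have hbox : ∀ a ∈ T, a ∈ ibox (Fin (n + 1)) H := fun a ha => (mem_filter.1 (hT ha)).1
  obtain ⟨γ, g1, g2, g3⟩ := hnear H hH a₀ (hbox a₀ ha₀)
  have hS : ∀ a ∈ T, ∃ S : ℤ, ∃ x : ℤ, A * H ^ 3 ≤ x.natAbs ∧ ((gx m k γ).eval x + S) ^ m =
      (m : ℤ) ^ (2 * (n + 1)) * fx n a x ∧ |(S : ℝ)| * (H : ℝ) ^ 3 ≤ C₀ * (H : ℝ) ^ (k + 1) := by
    intro a ha
    obtain ⟨x, hx, hpow⟩ := (mem_filter.1 (hT ha)).2
    have hx' : (A : ℝ) * (H : ℝ) ^ 3 ≤ |(x : ℝ)| := by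
      have h1 : ((A * H ^ 3 : ℕ) : ℝ) ≤ (x.natAbs : ℝ) := by exact_mod_cast hx
      rw [Nat.cast_natAbs, Int.cast_abs] at h1
      push_cast at h1
      exact h1
    have hx3 : (H : ℝ) ^ 3 ≤ |(x : ℝ)| := by
      have : (1 : ℝ) ≤ A := by linarith
      have h3 : 0 < (H : ℝ) ^ 3 := by positivity
      nlinarith
    obtain ⟨S, s1, s2⟩ := g3 a (hbox a ha) (fun i hi => by
      rw [hTb a ha i (by rw [hJmem]; omega), hTb a₀ ha₀ i (by rw [hJmem]; omega)]) x (by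
      refine le_trans ?_ hx'
      have h3 : (H : ℝ) ≤ (H : ℝ) ^ 3 := le_self_pow₀ hH1 (by norm_num)
      gcongr) hpow
    exact ⟨S, x, hx, s1, (mul_le_mul_of_nonneg_left hx3 (abs_nonneg _)).trans s2⟩
  choose! s x hx s1 s2 using hS
  have hs2 : ∀ a ∈ T, |(s a : ℝ)| ≤ C₀ * (H : ℝ) ^ k / (H : ℝ) ^ 2 := by
    intro a ha
    rw [le_div_iff₀ (by positivity)]
    have h1 := s2 a ha
    have h2 : |(s a : ℝ)| * (H : ℝ) ^ 3 = |(s a : ℝ)| * (H : ℝ) ^ 2 * H := by ring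
    have h3 : C₀ * (H : ℝ) ^ (k + 1) = C₀ * (H : ℝ) ^ k * H := by ring
    rw [h2, h3] at h1
    exact le_of_mul_le_mul_right h1 hH0
  have himg : T.image s ⊆ Icc (-(R : ℤ)) R := by
    intro z hz
    rw [mem_image] at hz
    obtain ⟨a, ha, rfl⟩ := hz
    have h1 : (s a).natAbs ≤ R := by
      rw [hR]
      apply Nat.le_floor
      rw [Nat.cast_natAbs, Int.cast_abs]
      exact hs2 a ha
    rw [mem_Icc]
    omega
  have hcard := card_le_mul_card_image (f := s) T (1 + (n + 2) * (2 * H + 1) * (2 * τ)) ?_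
  · refine hcard.trans (Nat.mul_le_mul_left _ ?_)
    refine (card_le_card himg).trans ?_
    rw [card_Icc_H]
  intro S hS
  rw [mem_image] at hS
  obtain ⟨a₁, ha₁, hS1⟩ := hS
  apply fibre hm1 hn hH γ S (T.filter fun a => s a = S)
  · intro a ha
    exact hbox a (mem_filter.1 ha).1
  · intro a ha
    rw [mem_filter] at ha
    refine ⟨x a, ?_, ?_⟩
    · have h1 := hx a ha.1
      have h2 : 3 * H ≤ A * H ^ 3 := by
        apply Nat.mul_le_mul (by omega)
        exact Nat.le_self_pow (by norm_num) H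
      omega
    · rw [← ha.2]
      exact s1 a ha.1
  · intro z hz j hne
    have hle : |(((m : ℤ) ^ (2 * (n + 1)) * z - ((gx m k γ + C S) ^ m).coeff j : ℤ) : ℝ)| ≤
        E * (H : ℝ) ^ (n + 1) := by
      push_cast
      refine (abs_sub _ _).trans ?_
      have h1 : |(m : ℝ) ^ (2 * (n + 1)) * (z : ℝ)| ≤ (m : ℝ) ^ (2 * (n + 1)) * (H : ℝ) ^ (n + 1) := by
        rw [abs_mul, abs_of_pos (show 0 < (m : ℝ) ^ (2 * (n + 1)) by positivity)]
        have h2 : |(z : ℝ)| ≤ H := by exact_mod_cast hz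
        have h3 : (H : ℝ) ≤ (H : ℝ) ^ (n + 1) := le_self_pow₀ hH1 (by omega)
        gcongr
        exact h2.trans h3
      have h2 := coeff_le zero_le_one ((gx m k γ + C S) ^ m) j
      rw [one_pow, mul_one] at h2
      have h3 : nrm 1 ((gx m k γ + C S) ^ m) ≤
          ((k + 1) * (C₀ * (m : ℝ) ^ (4 * k)) + C₀) ^ m * (H : ℝ) ^ (n + 1) := by
        refine (nrm_pow zero_le_one _ m).trans ?_
        have hHp : (H : ℝ) ^ (n + 1) = ((H : ℝ) ^ k) ^ m := by rw [hn, mul_comm m k, pow_mul]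
        rw [hHp, ← mul_pow]
        apply pow_le_pow_left₀ (nrm_nonneg zero_le_one _)
        refine (nrm_add zero_le_one _ _).trans ?_
        have h4 := gx_nrm (k := k) hm1 hH (by linarith) g2
        have h5 : nrm 1 (C S) ≤ C₀ * (H : ℝ) ^ k := by
          have h6 : (C S : ℤ[X]) = monomial 0 S := rfl
          rw [h6, nrm_monomial, pow_zero, mul_one, ← hS1]
          refine (hs2 a₁ ha₁).trans ?_
          rw [div_le_iff₀ (by positivity)]
          have h7 : 1 ≤ (H : ℝ) ^ 2 := one_le_pow₀ hH1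
          have h8 : 0 ≤ C₀ * (H : ℝ) ^ k := by positivity
          nlinarith
        calc nrm 1 (gx m k γ) + nrm 1 (C S)
            ≤ (k + 1) * (C₀ * ((m : ℝ) ^ (4 * k) * (H : ℝ) ^ k)) + C₀ * (H : ℝ) ^ k :=
              add_le_add h4 h5
          _ = _ := by ring
      rw [hE, add_mul]
      exact add_le_add h1 (h2.trans h3)
    rw [hτ]
    apply Nat.le_floor
    have hN : 1 ≤ ((m : ℤ) ^ (2 * (n + 1)) * z - ((gx m k γ + C S) ^ m).coeff j).natAbs := by
      have := Int.natAbs_ne_zero.2 hne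
      omega
    refine (hdiv _ hN).trans ?_
    rw [Nat.cast_natAbs, Int.cast_abs]
    calc D₀ * |(((m : ℤ) ^ (2 * (n + 1)) * z - ((gx m k γ + C S) ^ m).coeff j : ℤ) : ℝ)| ^
          (1 / (2 * (m : ℝ) * (n + 1)))
        ≤ D₀ * (E * (H : ℝ) ^ (n + 1)) ^ (1 / (2 * (m : ℝ) * (n + 1))) := by gcongr
      _ = F * (H : ℝ) ^ (1 / (2 * (m : ℝ))) := by
          rw [Real.mul_rpow hE0.le (by positivity), hF, ← Real.rpow_natCast, ← Real.rpow_mul hH0.le]
          have h1 : (((n + 1 : ℕ) : ℝ)) * (1 / (2 * (m : ℝ) * (n + 1))) = 1 / (2 * (m : ℝ)) := by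
            push_cast
            field_simp
          rw [h1]
          ring

end Pool.Agent.N656.SE
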