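import Pool.Agent.N656.SE.Pow

set_option autoImplicit false
set_option linter.unusedSectionVars false

/-! The number of polynomials which take a perfect power as value at a given point. -/

open MeasureTheory Filter Topology Finset

namespace Pool.Agent.N656.SE

open Pool.Agent.R414.DN

/-- the cube -/
def cube (n : ℕ) : Set (Fin n → ℝ) := {u | ∀ i, |u i| ≤ 1}

lemma cube_eq (n : ℕ) : cube n = Pool.Agent.N656.LL.K (fun _ : Fin n => (0 : ℝ)) := by
  ext u
  simp [cube, Pool.Agent.N656.LL.K]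

open scoped Pointwise in
/-- **Riemann sums over the box.** -/
lemma riemann {n : ℕ} {F : (Fin n → ℝ) → ℝ} (hF : Continuous F) :
    Tendsto (fun H : ℕ => (∑ b ∈ ibox (Fin n) H, F fun i => (b i : ℝ) / H) / (H : ℝ) ^ n) atTop
      (𝓝 (∫ u in cube n, F u)) := by
  have key := tendsto_tsum_div_pow_atTop_integral (cube n) F hF
    (by rw [cube_eq]; exact Pool.Agent.N656.LL.K_bounded _)
    (by rw [cube_eq]; exact (Pool.Agent.N656.LL.K_closed _).measurableSet)
    (by rw [cube_eq]; exact Pool.Agent.N656.LL.K_frontier _)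
  rw [Fintype.card_fin] at key
  refine key.congr' ?_
  filter_upwards [eventually_ge_atTop 1] with H hH
  congr 1
  have hH0 : (0 : ℝ) < H := by exact_mod_cast hH
  have hb : cube n ∩ (H : ℝ)⁻¹ • (Submodule.span ℤ (Set.range (Pi.basisFun ℝ (Fin n))) :
      Set (Fin n → ℝ)) =
      (fun b : Fin n → ℤ => fun i => (b i : ℝ) / H) '' (ibox (Fin n) H : Set (Fin n → ℤ)) := by
    ext u
    constructor
    · rintro ⟨hu, hL⟩
      rw [Set.mem_smul_set] at hL
      obtain ⟨w, hw, rfl⟩ := hL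
      rw [SetLike.mem_coe, Module.Basis.mem_span_iff_repr_mem] at hw
      choose b hb using hw
      have hb' : ∀ m, w m = (b m : ℝ) := by
        intro m
        have := hb m
        simp only [Pi.basisFun_repr, algebraMap_int_eq, eq_intCast] at this
        exact this.symm
      refine ⟨b, ?_, ?_⟩
      · rw [mem_coe, mem_ibox]
        intro m
        have h1 := hu m
        simp only [Pi.smul_apply, smul_eq_mul] at h1
        rw [abs_mul, abs_of_nonneg (by positivity), hb' m, inv_mul_le_iff₀ hH0, mul_one] at h1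
        exact_mod_cast h1
      · funext m
        simp only [Pi.smul_apply, smul_eq_mul, hb' m]
        ring
    · rintro ⟨b, hb, rfl⟩
      rw [mem_coe, mem_ibox] at hb
      refine ⟨?_, ?_⟩
      · intro m
        have h1 : |((b m : ℤ) : ℝ)| ≤ H := by exact_mod_cast hb m
        rw [abs_div, abs_of_pos hH0, div_le_one hH0]
        exact h1
      · rw [Set.mem_smul_set]
        refine ⟨fun m => (b m : ℝ), ?_, ?_⟩
        · rw [SetLike.mem_coe, Module.Basis.mem_span_iff_repr_mem]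
          intro m
          exact ⟨b m, by simp⟩
        · funext m
          simp only [Pi.smul_apply, smul_eq_mul]
          ring
  have hinj : Function.Injective (fun b : Fin n → ℤ => fun i => (b i : ℝ) / (H : ℝ)) := by
    intro b b' h
    funext m
    have h1 := congrFun h m
    simp only at h1
    rw [div_left_inj' hH0.ne'] at h1
    exact_mod_cast h1
  rw [hb, tsum_image F hinj.injOn]
  exact Finset.tsum_subtype' (ibox (Fin n) H) (fun b => F fun i => (b i : ℝ) / H)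

/-- the value of `x ^ (n+1) + a_n x ^ n + ⋯ + a_0` -/
def fx (n : ℕ) (a : Fin (n + 1) → ℤ) (x : ℤ) : ℤ := x ^ (n + 1) + ∑ i : Fin (n + 1), a i * x ^ (i : ℕ)

/-- the part without the constant coefficient -/
def cx (n : ℕ) (b : Fin n → ℤ) (x : ℤ) : ℤ := x ^ (n + 1) + ∑ i : Fin n, b i * x ^ ((i : ℕ) + 1)

lemma fx_cons (n : ℕ) (a : Fin (n + 1) → ℤ) (x : ℤ) : fx n a x = a 0 + cx n (Fin.tail a) x := by
  unfold fx cx
  rw [Fin.sum_univ_succ]
  simp only [Fin.val_zero, pow_zero, mul_one, Fin.val_succ, Fin.tail]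
  ring

lemma card_isPow (m n H : ℕ) (x : ℤ) :
    Set.ncard {a | a ∈ ibox (Fin (n + 1)) H ∧ IsPow m (fx n a x)} =
      ∑ b ∈ ibox (Fin n) H, Set.ncard {k : ℤ | cx n b x - H ≤ k ∧ k ≤ cx n b x + H ∧
        IsPow m k} := by
  classical
  have e1 : Set.ncard {a | a ∈ ibox (Fin (n + 1)) H ∧ IsPow m (fx n a x)} =
      ((ibox (Fin (n + 1)) H).filter fun a => IsPow m (fx n a x)).card := by
    rw [← Set.ncard_coe_finset]
    congr 1
    ext a
    simp
  rw [e1, card_eq_sum_card_fiberwise (f := Fin.tail) (t := ibox (Fin n) H)]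
  · refine sum_congr rfl fun b hb => ?_
    rw [← Set.ncard_coe_finset]
    refine Set.ncard_congr (fun a _ => fx n a x) ?_ ?_ ?_
    · intro a ha
      rw [mem_coe, mem_filter, mem_filter, mem_ibox] at ha
      obtain ⟨⟨h1, h2⟩, h3⟩ := ha
      have h4 := abs_le.1 (h1 0)
      rw [fx_cons, h3]
      rw [fx_cons, h3] at h2
      exact ⟨by linarith [h4.1], by linarith [h4.2], h2⟩
    · intro a a' ha ha' h
      rw [mem_coe, mem_filter, mem_filter, mem_ibox] at ha ha'
      rw [fx_cons, fx_cons, ha.2, ha'.2] at h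
      have h0 : a 0 = a' 0 := by linarith
      rw [← Fin.cons_self_tail a, ← Fin.cons_self_tail a', ha.2, ha'.2, h0]
    · rintro k ⟨h1, h2, h3⟩
      refine ⟨Fin.cons (k - cx n b x) b, ?_, ?_⟩
      · rw [mem_coe, mem_filter, mem_filter, mem_ibox, fx_cons, Fin.tail_cons, Fin.cons_zero,
          sub_add_cancel]
        refine ⟨⟨?_, h3⟩, rfl⟩
        intro i
        refine Fin.cases ?_ (fun j => ?_) i
        · rw [Fin.cons_zero, abs_le]
          constructor <;> linarith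
        · rw [Fin.cons_succ]
          exact mem_ibox.1 hb j
      · rw [fx_cons, Fin.tail_cons, Fin.cons_zero, sub_add_cancel]
  · intro a ha
    rw [mem_coe, mem_filter, mem_ibox] at ha
    rw [mem_coe, mem_ibox]
    exact fun i => ha.1 i.succ

/-- the linear form -/
noncomputable def ell (n : ℕ) (x : ℤ) (u : Fin n → ℝ) : ℝ := ∑ i : Fin n, u i * (x : ℝ) ^ ((i : ℕ) + 1)

/-- the integrand -/
noncomputable def Phi (m n : ℕ) (x : ℤ) (u : Fin n → ℝ) : ℝ :=
  rho m (ell n x u + 1) - rho m (ell n x u - 1)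

/-- the weight of `x` -/
noncomputable def W (m n : ℕ) (x : ℤ) : ℝ := ∫ u in cube n, Phi m n x u

lemma ell_cont (n : ℕ) (x : ℤ) : Continuous (ell n x) := by
  unfold ell
  fun_prop

lemma Phi_cont {m : ℕ} (hm : 1 ≤ m) (n : ℕ) (x : ℤ) : Continuous (Phi m n x) := by
  unfold Phi
  have h1 := ell_cont n x
  have h2 := rho_cont hm
  exact (h2.comp (h1.add continuous_const)).sub (h2.comp (h1.sub continuous_const))

lemma Phi_nonneg (m n : ℕ) (x : ℤ) (u : Fin n → ℝ) : 0 ≤ Phi m n x u := by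
  unfold Phi
  have := rho_mono m (by linarith : ell n x u - 1 ≤ ell n x u + 1)
  linarith

lemma rho_one_sub {m : ℕ} (hm : 1 ≤ m) : 1 ≤ rho m 1 - rho m (-1) := by
  have h1 : pr m 1 = 1 := by unfold pr; simp
  have h2 : pr m (-1) = 0 := by
    unfold pr
    rw [max_eq_right (by norm_num), Real.zero_rpow]
    positivity
  unfold rho
  rw [neg_neg, h1, h2]
  split_ifs <;> norm_num

lemma W_pos {m : ℕ} (hm : 1 ≤ m) (n : ℕ) (x : ℤ) : 0 < W m n x := by
  unfold W
  have hint : IntegrableOn (Phi m n x) (cube n) := by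
    apply (Phi_cont hm n x).continuousOn.integrableOn_compact
    rw [cube_eq]
    exact Metric.isCompact_of_isClosed_isBounded (Pool.Agent.N656.LL.K_closed _)
      (Pool.Agent.N656.LL.K_bounded _)
  rw [setIntegral_pos_iff_support_of_nonneg_ae (Eventually.of_forall (Phi_nonneg m n x)) hint]
  -- an open set around the origin
  have h0 : 0 < Phi m n x 0 := by
    unfold Phi ell
    simp only [Pi.zero_apply, zero_mul, sum_const_zero, zero_add, zero_sub]
    linarith [rho_one_sub hm]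
  have hopen : IsOpen ({u | 0 < Phi m n x u} ∩ Metric.ball (0 : Fin n → ℝ) 1) :=
    (isOpen_lt continuous_const (Phi_cont hm n x)).inter Metric.isOpen_ball
  have hne : ({u | 0 < Phi m n x u} ∩ Metric.ball (0 : Fin n → ℝ) 1).Nonempty :=
    ⟨0, h0, Metric.mem_ball_self one_pos⟩
  refine (hopen.measure_pos volume hne).trans_le (measure_mono ?_)
  rintro u ⟨hu1, hu2⟩
  refine ⟨ne_of_gt hu1, ?_⟩
  rw [mem_ball_zero_iff, pi_norm_lt_iff one_pos] at hu2
  intro i
  exact (hu2 i).le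

/-- **The local limit.** -/
theorem loc_lim {m : ℕ} (hm : 2 ≤ m) (n : ℕ) (x : ℤ) :
    Tendsto (fun H : ℕ => (Set.ncard {a | a ∈ ibox (Fin (n + 1)) H ∧ IsPow m (fx n a x)} : ℝ) /
      ((H : ℝ) ^ n * (H : ℝ) ^ (1 / (m : ℝ)))) atTop (𝓝 (W m n x)) := by
  have hm1 : 1 ≤ m := by omega
  have hm0 : (0 : ℝ) < m := by exact_mod_cast hm1
  have h1 := riemann (Phi_cont hm1 n x)
  -- the error terms
  have e1 : Tendsto (fun H : ℕ => (3 : ℝ) ^ n * (4 * ((|(x : ℝ)| ^ (n + 1) / H) ^ (1 / (m : ℝ))) +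
      3 * ((1 : ℝ) / H) ^ (1 / (m : ℝ)))) atTop (𝓝 0) := by
    have g1 : Tendsto (fun H : ℕ => (|(x : ℝ)| ^ (n + 1) / (H : ℝ)) ^ (1 / (m : ℝ))) atTop
        (𝓝 0) := by
      have g2 := (tendsto_const_div_atTop_nhds_zero_nat (|(x : ℝ)| ^ (n + 1))).rpow_const
        (p := 1 / (m : ℝ)) (Or.inr (by positivity))
      rwa [Real.zero_rpow (by positivity)] at g2
    have g3 : Tendsto (fun H : ℕ => ((1 : ℝ) / (H : ℝ)) ^ (1 / (m : ℝ))) atTop (𝓝 0) := by
      have g2 := (tendsto_const_div_atTop_nhds_zero_nat (1 : ℝ)).rpow_const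
        (p := 1 / (m : ℝ)) (Or.inr (by positivity))
      rwa [Real.zero_rpow (by positivity)] at g2
    have g4 := ((g1.const_mul 4).add (g3.const_mul 3)).const_mul ((3 : ℝ) ^ n)
    simpa using g4
  refine tendsto_of_tendsto_of_dist h1 ?_
  refine squeeze_zero' (Eventually.of_forall fun H => dist_nonneg) ?_ e1
  filter_upwards [eventually_ge_atTop 1] with H hH
  have hH1 : (1 : ℝ) ≤ H := by exact_mod_cast hH
  have hH0 : (0 : ℝ) < H := by linarith
  obtain ⟨r, hr⟩ : ∃ r : ℝ, r = (H : ℝ) ^ (1 / (m : ℝ)) := ⟨_, rfl⟩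
  have hr0 : 0 < r := by rw [hr]; positivity
  have hinv : ((1 : ℝ) / H) ^ (1 / (m : ℝ)) = 1 / r := by
    rw [hr, Real.div_rpow zero_le_one hH0.le, Real.one_rpow]
  rw [Real.dist_eq, card_isPow, ← hr, hinv]
  push_cast
  have e2 : (∑ b ∈ ibox (Fin n) H, Phi m n x fun i => (b i : ℝ) / H) / (H : ℝ) ^ n -
      (∑ b ∈ ibox (Fin n) H, (Set.ncard {k : ℤ | cx n b x - H ≤ k ∧ k ≤ cx n b x + H ∧
        IsPow m k} : ℝ)) / ((H : ℝ) ^ n * r) =
      (∑ b ∈ ibox (Fin n) H, (Phi m n x (fun i => (b i : ℝ) / H) -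
        (Set.ncard {k : ℤ | cx n b x - H ≤ k ∧ k ≤ cx n b x + H ∧ IsPow m k} : ℝ) / r)) /
        (H : ℝ) ^ n := by
    rw [sum_sub_distrib, ← sum_div, sub_div, div_div, mul_comm r]
  rw [e2, abs_div, abs_of_pos (by positivity : (0 : ℝ) < (H : ℝ) ^ n), div_le_iff₀ (by positivity)]
  have hterm : ∀ b ∈ ibox (Fin n) H, |Phi m n x (fun i => (b i : ℝ) / H) -
        (Set.ncard {k : ℤ | cx n b x - H ≤ k ∧ k ≤ cx n b x + H ∧ IsPow m k} : ℝ) / r| ≤
      4 * ((|(x : ℝ)| ^ (n + 1) / H) ^ (1 / (m : ℝ))) + 3 * (1 / r) := by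
    intro b hb
    have h2 := card_pow hm1 (show cx n b x - (H : ℤ) ≤ cx n b x + (H : ℤ) by
      have : (0 : ℤ) ≤ H := Nat.cast_nonneg H
      linarith)
    obtain ⟨E, hE⟩ : ∃ E : ℝ, E = (Set.ncard {k : ℤ | cx n b x - H ≤ k ∧ k ≤ cx n b x + H ∧
      IsPow m k} : ℝ) := ⟨_, rfl⟩
    rw [← hE] at h2
    rw [← hE]
    obtain ⟨L, hL⟩ : ∃ L : ℝ, L = ell n x fun i => (b i : ℝ) / H := ⟨_, rfl⟩
    obtain ⟨h, hh⟩ : ∃ h : ℝ, h = (x : ℝ) ^ (n + 1) / H := ⟨_, rfl⟩
    have hc : ((cx n b x : ℤ) : ℝ) = H * (L + h) := by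
      rw [hL, hh]
      unfold cx ell
      push_cast
      rw [mul_add, mul_div_cancel₀ _ hH0.ne', mul_sum, add_comm]
      congr 1
      refine sum_congr rfl fun i _ => ?_
      field_simp
    have hA : ((cx n b x - (H : ℤ) : ℤ) : ℝ) = H * (L + h - 1) := by
      push_cast
      rw [hc]
      ring
    have hB : ((cx n b x + (H : ℤ) : ℤ) : ℝ) = H * (L + h + 1) := by
      push_cast
      rw [hc]
      ring
    rw [hA, hB, rho_hom m hH0.le, rho_hom m hH0.le, ← hr] at h2
    have h3 : |E / r - (rho m (L + h + 1) - rho m (L + h - 1))| ≤ 3 * (1 / r) := by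
      have e3 : E / r - (rho m (L + h + 1) - rho m (L + h - 1)) =
          (E - (r * rho m (L + h + 1) - r * rho m (L + h - 1))) / r := by
        field_simp
      rw [e3, abs_div, abs_of_pos hr0, div_le_iff₀ hr0]
      calc _ ≤ (3 : ℝ) := h2
        _ = 3 * (1 / r) * r := by field_simp
    have h4 : |rho m (L + h + 1) - rho m (L + 1)| ≤ 2 * |h| ^ (1 / (m : ℝ)) := by
      have := rho_holder hm1 (L + 1) h
      rwa [show L + 1 + h = L + h + 1 by ring] at this
    have h5 : |rho m (L + h - 1) - rho m (L - 1)| ≤ 2 * |h| ^ (1 / (m : ℝ)) := by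
      have := rho_holder hm1 (L - 1) h
      rwa [show L - 1 + h = L + h - 1 by ring] at this
    have h6 : |h| = |(x : ℝ)| ^ (n + 1) / H := by
      rw [hh, abs_div, abs_pow, abs_of_pos hH0]
    rw [h6] at h4 h5
    have h7 : Phi m n x (fun i => (b i : ℝ) / H) = rho m (L + 1) - rho m (L - 1) := by
      unfold Phi
      rw [← hL]
    rw [h7]
    have h3' := abs_le.1 h3
    have h4' := abs_le.1 h4
    have h5' := abs_le.1 h5
    rw [abs_le]
    constructor <;> linarith [h3'.1, h3'.2, h4'.1, h4'.2, h5'.1, h5'.2]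
  refine (abs_sum_le_sum_abs _ _).trans ((sum_le_sum hterm).trans ?_)
  rw [sum_const, nsmul_eq_mul, card_ibox, Fintype.card_fin]
  push_cast
  have h8 : (2 * (H : ℝ) + 1) ^ n ≤ 3 ^ n * (H : ℝ) ^ n := by
    rw [← mul_pow]
    apply pow_le_pow_left₀ (by positivity)
    linarith
  have h9 : 0 ≤ 4 * ((|(x : ℝ)| ^ (n + 1) / H) ^ (1 / (m : ℝ))) + 3 * (1 / r) := by positivity
  calc (2 * (H : ℝ) + 1) ^ n * (4 * ((|(x : ℝ)| ^ (n + 1) / H) ^ (1 / (m : ℝ))) + 3 * (1 / r))
      ≤ 3 ^ n * (H : ℝ) ^ n * (4 * ((|(x : ℝ)| ^ (n + 1) / H) ^ (1 / (m : ℝ))) + 3 * (1 / r)) := by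
        gcongr
    _ = _ := by ring

end Pool.Agent.N656.SE
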