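import Pool.Agent.N656.SE.Loc

set_option autoImplicit false
set_option linter.unusedSectionVars false

/-! Upper bounds for the number of polynomials which take a perfect power as value at a point of
moderate size. -/

open Filter Topology Finset

namespace Pool.Agent.N656.SE

open Pool.Agent.R414.DN

/-- covering by the possible powers -/
lemma cover {α : Type} [DecidableEq α] {m : ℕ} (hm : 1 ≤ m) (S : Finset α) (g : α → ℤ) {M : ℝ}
    (hM : 0 ≤ M) (hg : ∀ a ∈ S, |(g a : ℝ)| ≤ M) {B : ℝ} (hB0 : 0 ≤ B)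
    (hB : ∀ s : ℤ, (Set.ncard {a | a ∈ S ∧ g a = s} : ℝ) ≤ B) :
    (Set.ncard {a | a ∈ S ∧ IsPow m (g a)} : ℝ) ≤ (2 * M ^ (1 / (m : ℝ)) + 1) * B := by
  classical
  have hm0 : (0 : ℝ) < m := by exact_mod_cast hm
  obtain ⟨Y, hY⟩ : ∃ Y : ℕ, Y = ⌊M ^ (1 / (m : ℝ))⌋₊ := ⟨_, rfl⟩
  have hsub : {a | a ∈ S ∧ IsPow m (g a)} ⊆ ⋃ y ∈ (Icc (-(Y : ℤ)) Y), {a | a ∈ S ∧ g a = y ^ m} := by
    rintro a ⟨ha, y, hy⟩
    rw [Set.mem_iUnion₂]
    refine ⟨y, ?_, ha, hy.symm⟩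
    have h1 : (|(y : ℝ)|) ^ m ≤ M := by
      rw [← abs_pow]
      have h2 := hg a ha
      rw [← hy] at h2
      exact_mod_cast h2
    have h2 : |(y : ℝ)| ≤ M ^ (1 / (m : ℝ)) := by
      calc |(y : ℝ)| = (|(y : ℝ)| ^ m) ^ (1 / (m : ℝ)) := by
            rw [← Real.rpow_natCast, ← Real.rpow_mul (abs_nonneg _), mul_one_div_cancel hm0.ne',
              Real.rpow_one]
        _ ≤ _ := Real.rpow_le_rpow (by positivity) h1 (by positivity)
    have h3 : y.natAbs ≤ Y := by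
      rw [hY]
      apply Nat.le_floor
      rw [Nat.cast_natAbs, Int.cast_abs]
      exact h2
    rw [mem_Icc]
    omega
  have h1 := Set.ncard_le_ncard hsub (Set.Finite.biUnion (finite_toSet _) fun y _ =>
    S.finite_toSet.subset fun _ h => h.1)
  have h2 := h1.trans (Finset.set_ncard_biUnion_le _ _)
  have h3 : (Set.ncard {a | a ∈ S ∧ IsPow m (g a)} : ℝ) ≤
      ∑ y ∈ Icc (-(Y : ℤ)) Y, (Set.ncard {a | a ∈ S ∧ g a = y ^ m} : ℝ) := by exact_mod_cast h2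
  refine h3.trans ((sum_le_sum fun y _ => hB (y ^ m)).trans ?_)
  rw [sum_const, nsmul_eq_mul, card_Icc_H]
  push_cast
  apply mul_le_mul_of_nonneg_right _ hB0
  have h4 : (Y : ℝ) ≤ M ^ (1 / (m : ℝ)) := by
    rw [hY]
    exact Nat.floor_le (by positivity)
  linarith

/-- polynomials with a prescribed value -/
lemma card_value (n H : ℕ) {x : ℤ} (hx : x ≠ 0) (s : ℤ) :
    (Set.ncard {a | a ∈ ibox (Fin (n + 1)) H ∧ fx n a x = s} : ℝ) ≤
      (2 * (H : ℝ) / |(x : ℝ)| + 1) ^ n := by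
  classical
  have h1 := card_digits H x hx n (s - x ^ (n + 1))
  have h2 : Set.ncard {a | a ∈ ibox (Fin (n + 1)) H ∧ fx n a x = s} =
      ((ibox (Fin (n + 1)) H).filter fun c => ∑ j : Fin (n + 1), c j * x ^ (j : ℕ) =
        s - x ^ (n + 1)).card := by
    rw [← Set.ncard_coe_finset]
    congr 1
    ext a
    simp only [coe_filter, Set.mem_ofPred_eq]
    unfold fx
    constructor
    · rintro ⟨h3, h4⟩
      exact ⟨h3, by linarith⟩
    · rintro ⟨h3, h4⟩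
      exact ⟨h3, by linarith⟩
  rw [h2]
  have h3 : (((2 * H / x.natAbs + 1) ^ n : ℕ) : ℝ) ≤ (2 * (H : ℝ) / |(x : ℝ)| + 1) ^ n := by
    push_cast
    apply pow_le_pow_left₀ (by positivity)
    have h4 : (((2 * H / x.natAbs : ℕ)) : ℝ) ≤ ((2 * H : ℕ) : ℝ) / (x.natAbs : ℝ) := Nat.cast_div_le
    rw [Nat.cast_natAbs, Int.cast_abs] at h4
    push_cast at h4
    linarith
  refine le_trans ?_ h3
  exact_mod_cast h1

/-- the size of the value -/
lemma fx_abs_le (n H : ℕ) {a : Fin (n + 1) → ℤ} (ha : a ∈ ibox (Fin (n + 1)) H) {x : ℤ}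
    {q : ℝ} (hq1 : 1 ≤ q) (hq : |(x : ℝ)| ≤ q) :
    |(fx n a x : ℝ) - (x : ℝ) ^ (n + 1)| ≤ (n + 1) * H * q ^ n := by
  rw [mem_ibox] at ha
  unfold fx
  push_cast
  rw [add_sub_cancel_left]
  refine (abs_sum_le_sum_abs _ _).trans ?_
  have h1 : ∀ i ∈ (univ : Finset (Fin (n + 1))), |(a i : ℝ) * (x : ℝ) ^ (i : ℕ)| ≤ H * q ^ n := by
    intro i _
    rw [abs_mul, abs_pow]
    have h2 : |(a i : ℝ)| ≤ H := by exact_mod_cast ha i
    have h3 : |(x : ℝ)| ^ (i : ℕ) ≤ q ^ n := by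
      calc |(x : ℝ)| ^ (i : ℕ) ≤ q ^ (i : ℕ) := pow_le_pow_left₀ (abs_nonneg _) hq _
        _ ≤ q ^ n := pow_le_pow_right₀ hq1 (by omega)
    exact mul_le_mul h2 h3 (by positivity) (by positivity)
  refine (sum_le_sum h1).trans ?_
  rw [sum_const, card_univ, Fintype.card_fin, nsmul_eq_mul]
  push_cast
  linarith

/-- **Small points.** -/
lemma small_pt {m n H : ℕ} (hm : 2 ≤ m) (hH : 1 ≤ H)
    {x : ℤ} (hx : x ≠ 0) (hxH : |(x : ℝ)| ≤ 4 * (n + 1) * H) :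
    (Set.ncard {a | a ∈ ibox (Fin (n + 1)) H ∧ IsPow m (fx n a x)} : ℝ) ≤
      3 * (5 * (n + 1)) * (4 * n + 6) ^ n * ((H : ℝ) ^ n * (H : ℝ) ^ (1 / (m : ℝ))) *
        |(x : ℝ)| ^ (-((n : ℝ) * (1 - 1 / (m : ℝ)))) := by
  have hm1 : 1 ≤ m := by omega
  have hm0 : (0 : ℝ) < m := by exact_mod_cast hm1
  have hH1 : (1 : ℝ) ≤ H := by exact_mod_cast hH
  have hH0 : (0 : ℝ) < H := by linarith
  obtain ⟨q, hq⟩ : ∃ q : ℝ, q = |(x : ℝ)| := ⟨_, rfl⟩
  have hq1 : 1 ≤ q := by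
    rw [hq]
    have := Int.one_le_abs hx
    exact_mod_cast this
  have hq0 : 0 < q := by linarith
  obtain ⟨M, hM⟩ : ∃ M : ℝ, M = 5 * (n + 1) * (H * q ^ n) := ⟨_, rfl⟩
  have hM0 : 0 < M := by rw [hM]; positivity
  have h1 := cover hm1 (ibox (Fin (n + 1)) H) (fun a => fx n a x) (M := M)
    (B := (2 * (H : ℝ) / q + 1) ^ n) hM0.le (fun a ha => by
      have h2 := fx_abs_le n H ha hq1 (le_of_eq hq.symm)
      have h3 : |(x : ℝ) ^ (n + 1)| ≤ 4 * (n + 1) * (H * q ^ n) := by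
        rw [abs_pow, ← hq, pow_succ]
        rw [← hq] at hxH
        have : 0 < q ^ n := by positivity
        nlinarith
      have h4 : |(fx n a x : ℝ)| ≤ |(fx n a x : ℝ) - (x : ℝ) ^ (n + 1)| + |(x : ℝ) ^ (n + 1)| := by
        have := abs_add_le ((fx n a x : ℝ) - (x : ℝ) ^ (n + 1)) ((x : ℝ) ^ (n + 1))
        rwa [sub_add_cancel] at this
      rw [hM]
      nlinarith) (by positivity) (fun s => by
      rw [hq]
      exact card_value n H hx s)
  refine h1.trans ?_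
  have h2 : 2 * (H : ℝ) / q + 1 ≤ (4 * n + 6) * (H / q) := by
    rw [← hq] at hxH
    have : 1 ≤ 4 * (n + 1) * (H / q) := by
      rw [mul_div_assoc', le_div_iff₀ hq0]
      linarith
    have e : 2 * (H : ℝ) / q = 2 * (H / q) := by ring
    rw [e]
    linarith
  have h3 : (2 * (H : ℝ) / q + 1) ^ n ≤ (4 * n + 6) ^ n * ((H : ℝ) ^ n / q ^ n) := by
    calc (2 * (H : ℝ) / q + 1) ^ n ≤ ((4 * n + 6) * (H / q)) ^ n :=
          pow_le_pow_left₀ (by positivity) h2 n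
      _ = _ := by rw [mul_pow, div_pow]
  have h4 : M ^ (1 / (m : ℝ)) ≤ 5 * (n + 1) * ((H : ℝ) ^ (1 / (m : ℝ)) * (q ^ n) ^ (1 / (m : ℝ))) := by
    rw [hM, Real.mul_rpow (x := 5 * ((n : ℝ) + 1)) (by positivity) (by positivity),
      Real.mul_rpow (x := (H : ℝ)) (by positivity) (by positivity)]
    apply mul_le_mul_of_nonneg_right _ (by positivity)
    have h5 : (1 : ℝ) ≤ 5 * (n + 1) := by
      have : (0 : ℝ) ≤ n := Nat.cast_nonneg n
      linarith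
    calc (5 * ((n : ℝ) + 1)) ^ (1 / (m : ℝ)) ≤ (5 * ((n : ℝ) + 1)) ^ (1 : ℝ) := by
          apply Real.rpow_le_rpow_of_exponent_le h5
          rw [div_le_one hm0]
          exact_mod_cast hm1
      _ = 5 * (n + 1) := Real.rpow_one _
  have h6 : 1 ≤ 5 * (n + 1) * ((H : ℝ) ^ (1 / (m : ℝ)) * (q ^ n) ^ (1 / (m : ℝ))) := by
    have g1 : 1 ≤ (H : ℝ) ^ (1 / (m : ℝ)) := Real.one_le_rpow hH1 (by positivity)
    have g2 : 1 ≤ (q ^ n) ^ (1 / (m : ℝ)) := Real.one_le_rpow (one_le_pow₀ hq1) (by positivity)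
    have g3 : (1 : ℝ) ≤ 5 * (n + 1) := by
      have : (0 : ℝ) ≤ n := Nat.cast_nonneg n
      linarith
    calc (1 : ℝ) = 1 * (1 * 1) := by ring
      _ ≤ _ := by gcongr
  have h7 : 2 * M ^ (1 / (m : ℝ)) + 1 ≤
      3 * (5 * (n + 1) * ((H : ℝ) ^ (1 / (m : ℝ)) * (q ^ n) ^ (1 / (m : ℝ)))) := by linarith
  have h8 : (q ^ n) ^ (1 / (m : ℝ)) / q ^ n = |(x : ℝ)| ^ (-((n : ℝ) * (1 - 1 / (m : ℝ)))) := by
    rw [← hq, ← Real.rpow_natCast q n, ← Real.rpow_mul hq0.le, ← Real.rpow_sub hq0]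
    congr 1
    ring
  calc (2 * M ^ (1 / (m : ℝ)) + 1) * (2 * (H : ℝ) / q + 1) ^ n
      ≤ (3 * (5 * (n + 1) * ((H : ℝ) ^ (1 / (m : ℝ)) * (q ^ n) ^ (1 / (m : ℝ))))) *
        ((4 * n + 6) ^ n * ((H : ℝ) ^ n / q ^ n)) := by gcongr
    _ = 3 * (5 * (n + 1)) * (4 * n + 6) ^ n * ((H : ℝ) ^ n * (H : ℝ) ^ (1 / (m : ℝ))) *
        ((q ^ n) ^ (1 / (m : ℝ)) / q ^ n) := by ring
    _ = _ := by rw [h8]

/-- two prescribed values -/
lemma card_two (n H : ℕ) (hn : 1 ≤ n) {x x' : ℤ} (hxx : x ≠ x') (s s' : ℤ) :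
    (Set.ncard {a | a ∈ ibox (Fin (n + 1)) H ∧ fx n a x = s ∧ fx n a x' = s'} : ℝ) ≤
      (2 * (H : ℝ) + 1) ^ (n - 1) := by
  classical
  have e1 : Set.ncard {a | a ∈ ibox (Fin (n + 1)) H ∧ fx n a x = s ∧ fx n a x' = s'} =
      ((ibox (Fin (n + 1)) H).filter fun a => fx n a x = s ∧ fx n a x' = s').card := by
    rw [← Set.ncard_coe_finset]
    congr 1
    ext a
    simp
  obtain ⟨i0, hi0⟩ : ∃ i0 : Fin (n + 1), i0 = 0 := ⟨_, rfl⟩
  obtain ⟨i1, hi1⟩ : ∃ i1 : Fin (n + 1), (i1 : ℕ) = 1 := ⟨⟨1, by omega⟩, rfl⟩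
  have hne : i1 ≠ i0 := by
    intro h
    rw [h, hi0] at hi1
    simp at hi1
  have key := card_fiber (H := H)
    (S := (ibox (Fin (n + 1)) H).filter fun a => fx n a x = s ∧ fx n a x' = s')
    (filter_subset _ _) {i1, i0} 1 ?_
  · rw [card_pair hne, one_mul, Fintype.card_fin] at key
    rw [e1]
    have h2 : n + 1 - 2 = n - 1 := by omega
    rw [h2] at key
    exact_mod_cast key
  intro b T hT hTb
  rw [card_le_one]
  intro a ha a' ha'
  have h1 := (mem_filter.1 (hT ha)).2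
  have h2 := (mem_filter.1 (hT ha')).2
  have hdiff : ∀ u : ℤ, fx n a u - fx n a' u = (a i1 - a' i1) * u + (a i0 - a' i0) := by
    intro u
    unfold fx
    rw [add_sub_add_left_eq_sub, ← sum_sub_distrib, ← sum_subset (subset_univ {i1, i0})]
    · rw [sum_pair hne, hi1, hi0]
      simp only [pow_one, Fin.val_zero, pow_zero]
      ring
    · intro p _ hp
      rw [hTb a ha p hp, hTb a' ha' p hp, sub_self]
  have f1 := hdiff x
  have f2 := hdiff x'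
  rw [h1.1, h2.1, sub_self] at f1
  rw [h1.2, h2.2, sub_self] at f2
  have f3 : (a i1 - a' i1) * (x - x') = 0 := by
    rw [mul_sub]
    linarith
  have f4 : a i1 - a' i1 = 0 := by
    rcases mul_eq_zero.1 f3 with h | h
    · exact h
    · exact absurd (sub_eq_zero.1 h) hxx
  rw [f4, zero_mul, zero_add] at f1
  funext p
  by_cases hp : p ∈ ({i1, i0} : Finset (Fin (n + 1)))
  · rw [mem_insert, mem_singleton] at hp
    rcases hp with rfl | rfl
    · linarith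
    · linarith
  · rw [hTb a ha p hp, hTb a' ha' p hp]

/-- **Two points.** -/
lemma two_pts {m n : ℕ} (hm : 2 ≤ m) (hn : 1 ≤ n) {x x' : ℤ} (hxx : x ≠ x') :
    Tendsto (fun H : ℕ => (Set.ncard {a | a ∈ ibox (Fin (n + 1)) H ∧ IsPow m (fx n a x) ∧
      IsPow m (fx n a x')} : ℝ) / ((H : ℝ) ^ n * (H : ℝ) ^ (1 / (m : ℝ)))) atTop (𝓝 0) := by
  have hm1 : 1 ≤ m := by omega
  have hm0 : (0 : ℝ) < m := by exact_mod_cast hm1
  have hm2 : (2 : ℝ) ≤ m := by exact_mod_cast hm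
  obtain ⟨q, hq1, hqx, hqx'⟩ : ∃ q : ℝ, 1 ≤ q ∧ |(x : ℝ)| ≤ q ∧ |(x' : ℝ)| ≤ q :=
    ⟨max 1 (max |(x : ℝ)| |(x' : ℝ)|), le_max_left _ _,
      (le_max_left _ _).trans (le_max_right _ _), (le_max_right _ _).trans (le_max_right _ _)⟩
  have hq0 : 0 < q := by linarith
  obtain ⟨K, hK⟩ : ∃ K : ℝ, K = (n + 1) * q ^ n + q ^ (n + 1) := ⟨_, rfl⟩
  have hK0 : 0 < K := by rw [hK]; positivity
  have hbd : ∀ H : ℕ, 1 ≤ H → ∀ a ∈ ibox (Fin (n + 1)) H, ∀ z : ℤ, |(z : ℝ)| ≤ q →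
      |(fx n a z : ℝ)| ≤ K * H := by
    intro H hH a ha z hz
    have hH1 : (1 : ℝ) ≤ H := by exact_mod_cast hH
    have h2 := fx_abs_le n H ha hq1 hz
    have h3 : |(z : ℝ) ^ (n + 1)| ≤ q ^ (n + 1) * H := by
      rw [abs_pow]
      calc |(z : ℝ)| ^ (n + 1) ≤ q ^ (n + 1) := pow_le_pow_left₀ (abs_nonneg _) hz _
        _ = q ^ (n + 1) * 1 := (mul_one _).symm
        _ ≤ _ := by gcongr
    have h4 : |(fx n a z : ℝ)| ≤ |(fx n a z : ℝ) - (z : ℝ) ^ (n + 1)| + |(z : ℝ) ^ (n + 1)| := by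
      have := abs_add_le ((fx n a z : ℝ) - (z : ℝ) ^ (n + 1)) ((z : ℝ) ^ (n + 1))
      rwa [sub_add_cancel] at this
    rw [hK]
    nlinarith
  have hmain : ∀ H : ℕ, 1 ≤ H → (Set.ncard {a | a ∈ ibox (Fin (n + 1)) H ∧ IsPow m (fx n a x) ∧
      IsPow m (fx n a x')} : ℝ) ≤ (2 * (K * H) ^ (1 / (m : ℝ)) + 1) *
        ((2 * (K * H) ^ (1 / (m : ℝ)) + 1) * (2 * (H : ℝ) + 1) ^ (n - 1)) := by
    classical
    intro H hH
    have hH0 : (0 : ℝ) < H := by exact_mod_cast hH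
    have h1 := cover hm1 ((ibox (Fin (n + 1)) H).filter fun a => IsPow m (fx n a x))
      (fun a => fx n a x') (M := K * H)
      (B := (2 * (K * H) ^ (1 / (m : ℝ)) + 1) * (2 * (H : ℝ) + 1) ^ (n - 1)) (by positivity)
      (fun a ha => hbd H hH a (mem_filter.1 ha).1 x' hqx') (by positivity) (fun s' => by
        have h2 := cover hm1 ((ibox (Fin (n + 1)) H).filter fun a => fx n a x' = s')
          (fun a => fx n a x) (M := K * H) (B := (2 * (H : ℝ) + 1) ^ (n - 1)) (by positivity)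
          (fun a ha => hbd H hH a (mem_filter.1 ha).1 x hqx) (by positivity) (fun s => by
            refine le_trans ?_ (card_two n H hn hxx s s')
            have h3 : {a | a ∈ ((ibox (Fin (n + 1)) H).filter fun a => fx n a x' = s') ∧
                fx n a x = s} ⊆ {a | a ∈ ibox (Fin (n + 1)) H ∧ fx n a x = s ∧
                fx n a x' = s'} := by
              rintro a ⟨h4, h5⟩
              rw [mem_filter] at h4
              exact ⟨h4.1, h5, h4.2⟩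
            exact_mod_cast Set.ncard_le_ncard h3 ((ibox (Fin (n + 1)) H).finite_toSet.subset
              fun _ h => h.1))
        refine le_trans ?_ h2
        have h3 : {a | a ∈ ((ibox (Fin (n + 1)) H).filter fun a => IsPow m (fx n a x)) ∧
            fx n a x' = s'} ⊆ {a | a ∈ ((ibox (Fin (n + 1)) H).filter fun a => fx n a x' = s') ∧
            IsPow m (fx n a x)} := by
          rintro a ⟨h4, h5⟩
          rw [mem_filter] at h4
          exact ⟨mem_filter.2 ⟨h4.1, h5⟩, h4.2⟩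
        exact_mod_cast Set.ncard_le_ncard h3 (((ibox (Fin (n + 1)) H).filter
          fun a => fx n a x' = s').finite_toSet.subset fun _ h => h.1))
    refine le_trans ?_ h1
    have h3 : {a | a ∈ ibox (Fin (n + 1)) H ∧ IsPow m (fx n a x) ∧ IsPow m (fx n a x')} ⊆
        {a | a ∈ ((ibox (Fin (n + 1)) H).filter fun a => IsPow m (fx n a x)) ∧
          IsPow m (fx n a x')} := by
      rintro a ⟨h4, h5, h6⟩
      exact ⟨mem_filter.2 ⟨h4, h5⟩, h6⟩
    exact_mod_cast Set.ncard_le_ncard h3 (((ibox (Fin (n + 1)) H).filter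
          fun a => IsPow m (fx n a x)).finite_toSet.subset fun _ h => h.1)
  -- the limit
  obtain ⟨c, hc⟩ : ∃ c : ℝ, c = 2 * K ^ (1 / (m : ℝ)) + 1 := ⟨_, rfl⟩
  have hc0 : 0 < c := by rw [hc]; positivity
  have e1 : Tendsto (fun H : ℕ => c ^ 2 * 3 ^ (n - 1) * (H : ℝ) ^ (-(1 - 1 / (m : ℝ)))) atTop
      (𝓝 0) := by
    have hpos : 0 < 1 - 1 / (m : ℝ) := by
      rw [sub_pos, div_lt_one hm0]
      linarith
    have h1 := (tendsto_rpow_neg_atTop hpos).comp tendsto_natCast_atTop_atTop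
    have h2 := h1.const_mul (c ^ 2 * 3 ^ (n - 1))
    rw [mul_zero] at h2
    exact h2
  refine squeeze_zero' (Eventually.of_forall fun H => by positivity) ?_ e1
  filter_upwards [eventually_ge_atTop 1] with H hH
  have hH1 : (1 : ℝ) ≤ H := by exact_mod_cast hH
  have hH0 : (0 : ℝ) < H := by linarith
  obtain ⟨r, hr⟩ : ∃ r : ℝ, r = (H : ℝ) ^ (1 / (m : ℝ)) := ⟨_, rfl⟩
  have hr1 : 1 ≤ r := by rw [hr]; exact Real.one_le_rpow hH1 (by positivity)
  have hr0 : 0 < r := by linarith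
  have h2 := hmain H hH
  have h3 : 2 * (K * (H : ℝ)) ^ (1 / (m : ℝ)) + 1 ≤ c * r := by
    rw [Real.mul_rpow hK0.le hH0.le, ← hr, hc]
    nlinarith
  have h4 : (2 * (H : ℝ) + 1) ^ (n - 1) ≤ 3 ^ (n - 1) * (H : ℝ) ^ (n - 1) := by
    rw [← mul_pow]
    apply pow_le_pow_left₀ (by positivity)
    linarith
  have e5 : (H : ℝ) ^ (-(1 - 1 / (m : ℝ))) = r / H := by
    rw [neg_sub, Real.rpow_sub hH0, Real.rpow_one, hr]
  have e6 : (H : ℝ) ^ n = (H : ℝ) ^ (n - 1) * H := by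
    rw [← pow_succ]
    congr 1
    omega
  rw [← hr, div_le_iff₀ (by positivity), e5, e6]
  calc _ ≤ (2 * (K * (H : ℝ)) ^ (1 / (m : ℝ)) + 1) *
        ((2 * (K * H) ^ (1 / (m : ℝ)) + 1) * (2 * (H : ℝ) + 1) ^ (n - 1)) := h2
    _ ≤ (c * r) * ((c * r) * (3 ^ (n - 1) * (H : ℝ) ^ (n - 1))) := by gcongr
    _ = _ := by
        field_simp

end Pool.Agent.N656.SE
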