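import Pool.Agent.N656.SE.Mid

set_option autoImplicit false
set_option linter.unusedSectionVars false

/-! Upper bounds for the number of polynomials which take a perfect power as value at a point of
size between `4 H` and a power of `H`. -/

open Filter Topology Finset

namespace Pool.Agent.N656.SE

open Pool.Agent.R414.DN

/-- digits are unique -/
lemma digit_unique {n H : ℕ} {a a' : Fin (n + 1) → ℤ} (ha : a ∈ ibox (Fin (n + 1)) H)
    (ha' : a' ∈ ibox (Fin (n + 1)) H) {x : ℤ} (hx : 2 * H < x.natAbs)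
    (h : fx n a x = fx n a' x) : a = a' := by
  classical
  have hx0 : x ≠ 0 := by omega
  have h1 := card_digits H x hx0 n (fx n a x - x ^ (n + 1))
  rw [Nat.div_eq_of_lt hx, zero_add, one_pow, card_le_one] at h1
  apply h1
  · rw [mem_filter]
    refine ⟨ha, ?_⟩
    unfold fx
    ring
  · rw [mem_filter]
    refine ⟨ha', ?_⟩
    rw [h]
    unfold fx
    ring

/-- the value at a large point -/
lemma fx_large {n H : ℕ} {a : Fin (n + 1) → ℤ} (ha : a ∈ ibox (Fin (n + 1)) H) (hH : 1 ≤ H)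
    {x : ℤ} (hx : 4 * (n + 1) * H ≤ x.natAbs) :
    |(fx n a x : ℝ) - (x : ℝ) ^ (n + 1)| ≤ |(x : ℝ)| ^ (n + 1) / 4 := by
  have hx' : 4 * ((n : ℝ) + 1) * H ≤ |(x : ℝ)| := by
    have h1 : ((4 * (n + 1) * H : ℕ) : ℝ) ≤ (x.natAbs : ℝ) := by exact_mod_cast hx
    rw [Nat.cast_natAbs, Int.cast_abs] at h1
    push_cast at h1
    exact h1
  have hH1 : (1 : ℝ) ≤ H := by exact_mod_cast hH
  have hn0 : (0 : ℝ) ≤ n := Nat.cast_nonneg n
  have hq1 : 1 ≤ |(x : ℝ)| := by nlinarith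
  have h1 := fx_abs_le n H ha hq1 le_rfl
  refine h1.trans ?_
  rw [pow_succ]
  have : 0 < |(x : ℝ)| ^ n := by positivity
  nlinarith

/-- the constant -/
def Lc (m k : ℕ) : ℕ := 2 ^ m * 2 * ((m - 1) * k + 1) + 1

/-- **Points of medium size.** -/
lemma mid_pt {m k n H : ℕ} (hm : 2 ≤ m) (hk : 1 ≤ k) (hn : n + 1 = m * k) (hH : 1 ≤ H)
    {x : ℤ} (hx : 4 * (n + 1) * H ≤ x.natAbs) :
    Set.ncard {a | a ∈ ibox (Fin (n + 1)) H ∧ IsPow m (fx n a x)} ≤
      Lc m k * H * (2 * H + 1) ^ (k - 1) := by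
  classical
  obtain ⟨e, he⟩ : ∃ e, e = (m - 1) * k := ⟨_, rfl⟩
  have hek : e + k = n + 1 := by
    rw [hn, he]
    obtain ⟨m', rfl⟩ : ∃ m', m = m' + 1 := ⟨m - 1, by omega⟩
    rw [Nat.add_sub_cancel]
    ring
  have hm1 : m ≠ 0 := by omega
  have hq2 : 2 * H < x.natAbs := by nlinarith
  have hH1 : (1 : ℝ) ≤ H := by exact_mod_cast hH
  have hH0 : (0 : ℝ) < H := by linarith
  obtain ⟨q, hq⟩ : ∃ q : ℝ, q = |(x : ℝ)| := ⟨_, rfl⟩
  have hq' : (x.natAbs : ℝ) = q := by rw [hq, Nat.cast_natAbs, Int.cast_abs]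
  have hq1 : 1 ≤ q := by
    rw [← hq']
    have : 1 ≤ x.natAbs := by omega
    exact_mod_cast this
  have hq0 : 0 < q := by linarith
  have e1 : Set.ncard {a | a ∈ ibox (Fin (n + 1)) H ∧ IsPow m (fx n a x)} =
      ((ibox (Fin (n + 1)) H).filter fun a => IsPow m (fx n a x)).card := by
    rw [← Set.ncard_coe_finset]
    congr 1
    ext a
    simp
  rw [e1]
  -- the low coefficients are free
  obtain ⟨J, hJ⟩ : ∃ J : Finset (Fin (n + 1)),
      J = univ.filter fun i : Fin (n + 1) => (i : ℕ) ≤ e := ⟨_, rfl⟩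
  have hJmem : ∀ i : Fin (n + 1), i ∈ J ↔ (i : ℕ) ≤ e := by
    intro i
    rw [hJ, mem_filter]
    simp
  have hJcard : J.card = e + 1 := by
    rw [← card_range (e + 1)]
    refine card_bij' (fun i _ => (i : ℕ)) (fun j hj => ⟨j, by rw [mem_range] at hj; omega⟩)
      ?_ ?_ ?_ ?_
    · intro i hi
      rw [mem_range]
      have := (hJmem i).1 hi
      omega
    · intro j hj
      rw [mem_range] at hj
      rw [hJmem]
      show j ≤ e
      omega
    · intro i _
      rfl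
    · intro j _
      rfl
  have key := card_fiber (H := H)
    (S := (ibox (Fin (n + 1)) H).filter fun a => IsPow m (fx n a x)) (filter_subset _ _) J
    (Lc m k * H) ?_
  · rw [Fintype.card_fin, hJcard] at key
    have h2 : n + 1 - (e + 1) = k - 1 := by omega
    rwa [h2] at key
  intro b T hT hTb
  -- the roots
  have hroot : ∀ a ∈ T, ∃ z : ℕ, z ^ m = (fx n a x).natAbs := by
    intro a ha
    obtain ⟨y, hy⟩ := (mem_filter.1 (hT ha)).2
    exact ⟨y.natAbs, by rw [← hy, Int.natAbs_pow]⟩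
  choose! z hz using hroot
  have hbox : ∀ a ∈ T, a ∈ ibox (Fin (n + 1)) H := fun a ha => (mem_filter.1 (hT ha)).1
  have hlarge : ∀ a ∈ T, |(fx n a x : ℝ) - (x : ℝ) ^ (n + 1)| ≤ q ^ (n + 1) / 4 := by
    intro a ha
    rw [hq]
    exact fx_large (hbox a ha) hH hx
  -- the values have the same sign
  have hsign : ∀ a ∈ T, ∀ a' ∈ T, (fx n a x).natAbs = (fx n a' x).natAbs → fx n a x = fx n a' x := by
    intro a ha a' ha' h
    rcases Int.natAbs_eq_natAbs_iff.1 h with h1 | h1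
    · exact h1
    · exfalso
      have h2 := abs_le.1 (hlarge a ha)
      have h3 := abs_le.1 (hlarge a' ha')
      have h4 : (fx n a x : ℝ) = -(fx n a' x : ℝ) := by exact_mod_cast h1
      have h5 : |(x : ℝ) ^ (n + 1)| = q ^ (n + 1) := by rw [abs_pow, ← hq]
      have h6 : 0 < q ^ (n + 1) := by positivity
      rcases abs_cases ((x : ℝ) ^ (n + 1)) with h7 | h7
      · linarith [h2.1, h3.1, h7.1]
      · linarith [h2.2, h3.2, h7.1]
  have hinj : Set.InjOn z (T : Set (Fin (n + 1) → ℤ)) := by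
    intro a ha a' ha' h
    rw [mem_coe] at ha ha'
    apply digit_unique (hbox a ha) (hbox a' ha') hq2
    apply hsign a ha a' ha'
    rw [← hz a ha, ← hz a' ha', h]
  rcases T.eq_empty_or_nonempty with h0 | hne
  · rw [h0, card_empty]
    exact Nat.zero_le _
  obtain ⟨a₀, ha₀, hmin⟩ := T.exists_min_image z hne
  have hwin : ∀ a ∈ T, z a ≤ z a₀ + 2 ^ m * 2 * (e + 1) * H := by
    intro a ha
    have hle := hmin a ha
    have hle' : (z a₀ : ℝ) ≤ z a := by exact_mod_cast hle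
    -- the difference of the values
    have hdiff : |(fx n a x : ℝ) - (fx n a₀ x : ℝ)| ≤ (e + 1) * (2 * H * q ^ e) := by
      have h1 : (fx n a x : ℝ) - (fx n a₀ x : ℝ) =
          ∑ i ∈ J, ((a i : ℝ) - (a₀ i : ℝ)) * (x : ℝ) ^ (i : ℕ) := by
        unfold fx
        push_cast
        rw [add_sub_add_left_eq_sub, ← sum_sub_distrib, ← sum_subset (subset_univ J)]
        · refine sum_congr rfl fun i _ => by ring
        · intro i _ hi
          rw [hTb a ha i hi, hTb a₀ ha₀ i hi, sub_self]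
      rw [h1]
      refine (abs_sum_le_sum_abs _ _).trans ?_
      have h2 : ∀ i ∈ J, |((a i : ℝ) - (a₀ i : ℝ)) * (x : ℝ) ^ (i : ℕ)| ≤ 2 * H * q ^ e := by
        intro i hi
        rw [abs_mul, abs_pow, ← hq]
        have h3 : |(a i : ℝ)| ≤ H := by exact_mod_cast mem_ibox.1 (hbox a ha) i
        have h4 : |(a₀ i : ℝ)| ≤ H := by exact_mod_cast mem_ibox.1 (hbox a₀ ha₀) i
        have h5 := abs_sub (a i : ℝ) (a₀ i : ℝ)
        have h6 : q ^ (i : ℕ) ≤ q ^ e := pow_le_pow_right₀ hq1 ((hJmem i).1 hi)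
        exact mul_le_mul (by linarith) h6 (by positivity) (by positivity)
      refine (sum_le_sum h2).trans ?_
      rw [sum_const, hJcard, nsmul_eq_mul]
      push_cast
      exact le_rfl
    have hza : ∀ a ∈ T, ((z a : ℝ)) ^ m = |(fx n a x : ℝ)| := by
      intro a ha
      have h1 : (((z a) ^ m : ℕ) : ℝ) = (((fx n a x).natAbs : ℕ) : ℝ) := by rw [hz a ha]
      rw [Nat.cast_natAbs, Int.cast_abs] at h1
      exact_mod_cast h1
    have h7 : (z a : ℝ) ^ m - (z a₀ : ℝ) ^ m ≤ (e + 1) * (2 * H * q ^ e) := by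
      rw [hza a ha, hza a₀ ha₀]
      exact (abs_sub_abs_le_abs_sub _ _).trans hdiff
    obtain ⟨m', hm'⟩ : ∃ m', m = m' + 1 := ⟨m - 1, by omega⟩
    -- the size of the root
    have h8 : q ^ k / 2 ≤ z a := by
      by_contra hlt
      rw [not_le] at hlt
      have h9 : (z a : ℝ) ^ m < (q ^ k / 2) ^ m :=
        pow_lt_pow_left₀ hlt (Nat.cast_nonneg _) hm1
      rw [hza a ha, div_pow, ← pow_mul, mul_comm k m, ← hn] at h9
      have h10 : q ^ (n + 1) - q ^ (n + 1) / 4 ≤ |(fx n a x : ℝ)| := by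
        have h11 := hlarge a ha
        have h12 : |(x : ℝ) ^ (n + 1)| = q ^ (n + 1) := by rw [abs_pow, ← hq]
        have h13 := abs_sub_abs_le_abs_sub ((x : ℝ) ^ (n + 1)) (fx n a x : ℝ)
        rw [abs_sub_comm] at h11
        linarith
      have h14 : q ^ (n + 1) / 2 ^ m ≤ q ^ (n + 1) / 2 := by
        apply div_le_div_of_nonneg_left (by positivity) (by norm_num)
        exact le_self_pow₀ (by norm_num) hm1
      have h15 : 0 < q ^ (n + 1) := by positivity
      linarith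
    have h16 : ((z a : ℝ) - z a₀) * (z a : ℝ) ^ m' ≤ (z a : ℝ) ^ m - (z a₀ : ℝ) ^ m := by
      rw [hm', pow_succ, pow_succ]
      have h17 : (z a₀ : ℝ) ^ m' ≤ (z a : ℝ) ^ m' := pow_le_pow_left₀ (Nat.cast_nonneg _) hle' _
      have h18 : (0 : ℝ) ≤ z a₀ := Nat.cast_nonneg _
      nlinarith
    have h19 : q ^ e / 2 ^ m' ≤ (z a : ℝ) ^ m' := by
      have h20 : (q ^ k / 2) ^ m' ≤ (z a : ℝ) ^ m' := pow_le_pow_left₀ (by positivity) h8 _
      rw [div_pow, ← pow_mul] at h20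
      have h21 : k * m' = e := by
        rw [he, hm', Nat.add_sub_cancel, mul_comm]
      rwa [h21] at h20
    have h22 : ((z a : ℝ) - z a₀) * (q ^ e / 2 ^ m') ≤ (e + 1) * (2 * H * q ^ e) := by
      have h23 : 0 ≤ (z a : ℝ) - z a₀ := by linarith
      calc ((z a : ℝ) - z a₀) * (q ^ e / 2 ^ m') ≤ ((z a : ℝ) - z a₀) * (z a : ℝ) ^ m' := by gcongr
        _ ≤ _ := h16.trans h7
    have h24 : (z a : ℝ) - z a₀ ≤ 2 ^ m' * 2 * (e + 1) * H := by
      have h25 : 0 < q ^ e := by positivity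
      have h26 : ((z a : ℝ) - z a₀) * (q ^ e / 2 ^ m') = ((z a : ℝ) - z a₀) / 2 ^ m' * q ^ e := by
        ring
      rw [h26] at h22
      have h27 : ((z a : ℝ) - z a₀) / 2 ^ m' ≤ (e + 1) * (2 * H) := by
        have h28 : ((z a : ℝ) - z a₀) / 2 ^ m' * q ^ e ≤ (e + 1) * (2 * H) * q ^ e := by
          linarith
        exact le_of_mul_le_mul_right h28 h25
      rw [div_le_iff₀ (by positivity)] at h27
      linarith
    have h29 : (2 : ℝ) ^ m' ≤ 2 ^ m := pow_le_pow_right₀ (by norm_num) (by omega)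
    have h30 : (z a : ℝ) ≤ z a₀ + 2 ^ m * 2 * (e + 1) * H := by
      have h31 : (2 : ℝ) ^ m' * 2 * (e + 1) * H ≤ 2 ^ m * 2 * (e + 1) * H := by gcongr
      linarith
    exact_mod_cast h30
  have hsub : T.image z ⊆ Icc (z a₀) (z a₀ + 2 ^ m * 2 * (e + 1) * H) := by
    intro w hw
    rw [mem_image] at hw
    obtain ⟨a, ha, rfl⟩ := hw
    rw [mem_Icc]
    exact ⟨hmin a ha, hwin a ha⟩
  have hc := card_le_card hsub
  rw [card_image_of_injOn hinj, Nat.card_Icc] at hc
  refine hc.trans ?_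
  unfold Lc
  rw [← he, add_mul, one_mul]
  omega

end Pool.Agent.N656.SE
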