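import Pool.Agent.N656.SE.Root
import Pool.Agent.N656.SE.Midb

set_option autoImplicit false
set_option linter.unusedSectionVars false

/-! A value of the polynomial at a large point which is a perfect power is the power of an integer
close to the value of an integral polynomial determined by the leading coefficients. -/

open Polynomial Finset

namespace Pool.Agent.N656.SE

open Pool.Agent.R414.DN

/-- the reversed and rescaled polynomial -/
noncomputable def phi (m n : ℕ) (b : Fin (n + 1) → ℤ) : ℤ[X] :=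
  1 + ∑ i : Fin (n + 1), monomial (n + 1 - (i : ℕ)) ((m : ℤ) ^ (2 * (n + 1 - (i : ℕ))) * b i)

/-- the approximate root -/
noncomputable def gx (m k : ℕ) (γ : ℤ[X]) : ℤ[X] :=
  ∑ i ∈ range (k + 1), monomial (k - i) (γ.coeff i * (m : ℤ) ^ (2 * (k - i)))

lemma phi_zero (m n : ℕ) (b : Fin (n + 1) → ℤ) : (phi m n b).coeff 0 = 1 := by
  unfold phi
  rw [coeff_add, coeff_one_zero, finsetSum_coeff, sum_eq_zero, add_zero]
  intro i _
  rw [coeff_monomial, if_neg (by omega)]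

lemma phi_dvd (m n : ℕ) (b : Fin (n + 1) → ℤ) : (m : ℤ[X]) ^ 2 ∣ phi m n b - 1 := by
  unfold phi
  rw [add_sub_cancel_left]
  apply dvd_sum
  intro i _
  have e1 : (m : ℤ[X]) ^ 2 = C ((m : ℤ) ^ 2) := by simp
  have e2 : (m : ℤ) ^ (2 * (n + 1 - (i : ℕ))) * b i =
      (m : ℤ) ^ 2 * ((m : ℤ) ^ (2 * (n - (i : ℕ))) * b i) := by
    have e3 : 2 * (n + 1 - (i : ℕ)) = 2 + 2 * (n - (i : ℕ)) := by omega
    rw [e3, pow_add]
    ring
  rw [e1, e2, ← C_mul_monomial]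
  exact dvd_mul_right _ _

lemma phi_nrm {m n H : ℕ} (hm : 1 ≤ m) (hH : 1 ≤ H) {b : Fin (n + 1) → ℤ}
    (hb : b ∈ ibox (Fin (n + 1)) H) : nrm (1 / ((m : ℝ) ^ 2 * H)) (phi m n b) ≤ n + 2 := by
  have hm0 : (0 : ℝ) < m := by exact_mod_cast hm
  have hH1 : (1 : ℝ) ≤ H := by exact_mod_cast hH
  have hH0 : (0 : ℝ) < H := by linarith
  have ht : (0 : ℝ) ≤ 1 / ((m : ℝ) ^ 2 * H) := by positivity
  unfold phi
  refine (nrm_add ht _ _).trans ?_
  rw [nrm_one]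
  have h1 : ∀ i ∈ (univ : Finset (Fin (n + 1))), nrm (1 / ((m : ℝ) ^ 2 * H))
      (monomial (n + 1 - (i : ℕ)) ((m : ℤ) ^ (2 * (n + 1 - (i : ℕ))) * b i)) ≤ 1 := by
    intro i _
    rw [nrm_monomial]
    obtain ⟨j, hj⟩ : ∃ j, n + 1 - (i : ℕ) = j + 1 := ⟨n - i, by omega⟩
    rw [hj]
    push_cast
    have h2 : |(b i : ℝ)| ≤ H := by exact_mod_cast mem_ibox.1 hb i
    rw [abs_mul, abs_pow, abs_of_pos hm0, div_pow, one_pow, mul_one_div, mul_pow, ← pow_mul,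
      div_le_one (by positivity), pow_succ (H : ℝ) j]
    have h3 : (1 : ℝ) ≤ (H : ℝ) ^ j := one_le_pow₀ hH1
    have h4 : |(b i : ℝ)| ≤ (H : ℝ) ^ j * H := by nlinarith
    gcongr
  have h2 := (nrm_sum ht univ _).trans (sum_le_sum h1)
  rw [sum_const, card_univ, Fintype.card_fin, nsmul_eq_mul] at h2
  push_cast at h2
  linarith

lemma phi_eval {m n : ℕ} (b : Fin (n + 1) → ℤ) {x : ℤ} {w : ℝ} (hw : w = (m : ℝ) ^ 2 * x)
    (hw0 : w ≠ 0) :
    w ^ (n + 1) * aeval (1 / w) (phi m n b) = (m : ℝ) ^ (2 * (n + 1)) * (fx n b x : ℝ) := by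
  unfold phi fx
  rw [map_add, map_one, map_sum, mul_add, mul_one, mul_sum]
  push_cast
  rw [mul_add, mul_sum]
  congr 1
  · rw [hw, mul_pow, ← pow_mul]
  · refine sum_congr rfl fun i _ => ?_
    rw [aeval_monomial]
    simp only [algebraMap_int_eq, eq_intCast]
    push_cast
    obtain ⟨j, hj⟩ : ∃ j, n + 1 = (i : ℕ) + j := ⟨n + 1 - i, by omega⟩
    have hj' : n + 1 - (i : ℕ) = j := by omega
    have hw1 : w ^ (n + 1) = w ^ (i : ℕ) * w ^ j := by rw [← pow_add, ← hj]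
    have hm1 : (m : ℝ) ^ (2 * (n + 1)) = (m : ℝ) ^ (2 * (i : ℕ)) * (m : ℝ) ^ (2 * j) := by
      rw [← pow_add, ← mul_add, ← hj]
    rw [hj', hw1, hm1, one_div, inv_pow]
    have h1 : w ^ (i : ℕ) * w ^ j * ((m : ℝ) ^ (2 * j) * (b i : ℝ) * (w ^ j)⁻¹) =
        w ^ (i : ℕ) * ((m : ℝ) ^ (2 * j) * (b i : ℝ)) := by
      field_simp
    rw [h1, hw, mul_pow, ← pow_mul]
    ring

lemma gx_eval {m k : ℕ} {γ : ℤ[X]} (hγ : γ.natDegree ≤ k) {x : ℤ} {w : ℝ}
    (hw : w = (m : ℝ) ^ 2 * x) (hw0 : w ≠ 0) :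
    (((gx m k γ).eval x : ℤ) : ℝ) = w ^ k * aeval (1 / w) γ := by
  unfold gx
  rw [eval_finsetSum, aeval_eq_sum_range' (n := k + 1) (by omega), mul_sum]
  push_cast
  refine sum_congr rfl fun i hi => ?_
  rw [mem_range] at hi
  rw [eval_monomial, zsmul_eq_mul]
  push_cast
  obtain ⟨j, hj⟩ : ∃ j, k = i + j := ⟨k - i, by omega⟩
  have hj' : k - i = j := by omega
  rw [hj', hj, pow_add w, one_div, inv_pow]
  have h1 : w ^ i * w ^ j * ((γ.coeff i : ℝ) * (w ^ i)⁻¹) = w ^ j * (γ.coeff i : ℝ) := by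
    field_simp
  rw [h1, hw, mul_pow, ← pow_mul]
  ring

/-- the value and the power of the approximate root -/
lemma near {m n k : ℕ} (hm : 2 ≤ m) (hk : 1 ≤ k) (hn : n + 1 = m * k) :
    ∃ C : ℝ, 1 ≤ C ∧ ∀ H : ℕ, 1 ≤ H → ∀ b ∈ ibox (Fin (n + 1)) H, ∃ γ : ℤ[X], γ.natDegree ≤ k ∧
      nrm (1 / ((m : ℝ) ^ 2 * H)) γ ≤ C ∧ ∀ x : ℤ, C * H ≤ |(x : ℝ)| →
        |(m : ℝ) ^ (2 * (n + 1)) * (fx n b x : ℝ) - (((gx m k γ).eval x : ℤ) : ℝ) ^ m| ≤
          C * (H : ℝ) ^ (k + 1) * |(x : ℝ)| ^ (n - k) ∧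
        |(x : ℝ)| ^ k ≤ |(((gx m k γ).eval x : ℤ) : ℝ)| := by
  have hm1 : 1 ≤ m := by omega
  have hm0 : (0 : ℝ) < m := by exact_mod_cast hm1
  have hm2 : (2 : ℝ) ≤ m := by exact_mod_cast hm
  have hkn : k ≤ n := by
    have : 2 * k ≤ m * k := Nat.mul_le_mul_right k hm
    omega
  obtain ⟨B, hB, hroot⟩ := exists_root hm1 (K := (n : ℝ) + 2) (by positivity) k
  refine ⟨max (2 * (B + 1)) (((m : ℝ) ^ 2) ^ (n + 1) * (n + 2 + B ^ m)), ?_, ?_⟩
  · exact le_trans (by linarith) (le_max_left _ _)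
  intro H hH b hb
  have hH1 : (1 : ℝ) ≤ H := by exact_mod_cast hH
  have hH0 : (0 : ℝ) < H := by linarith
  obtain ⟨t, ht⟩ : ∃ t : ℝ, t = 1 / ((m : ℝ) ^ 2 * H) := ⟨_, rfl⟩
  have ht0 : 0 < t := by rw [ht]; positivity
  obtain ⟨γ, g1, g2, g3, g4, g5⟩ := hroot t ht0 (phi m n b) (phi_zero m n b) (phi_dvd m n b)
    (by rw [ht]; exact phi_nrm hm1 hH hb)
  refine ⟨γ, g1, ?_, ?_⟩
  · rw [← ht]
    refine le_trans ?_ (le_max_left _ _)
    linarith
  intro x hx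
  have hx1 : 2 * (B + 1) * H ≤ |(x : ℝ)| :=
    (mul_le_mul_of_nonneg_right (le_max_left _ _) hH0.le).trans hx
  have hx0 : 0 < |(x : ℝ)| := by
    have : 0 < 2 * (B + 1) * H := by positivity
    linarith
  obtain ⟨w, hw⟩ : ∃ w : ℝ, w = (m : ℝ) ^ 2 * x := ⟨_, rfl⟩
  have hwa : |w| = (m : ℝ) ^ 2 * |(x : ℝ)| := by
    rw [hw, abs_mul, abs_of_pos (by positivity)]
  have hw0 : 0 < |w| := by rw [hwa]; positivity
  have hw' : w ≠ 0 := abs_pos.1 hw0
  have hut : |1 / w| / t = (H : ℝ) / |(x : ℝ)| := by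
    rw [abs_div, abs_one, hwa, ht]
    field_simp
  have hHx : (H : ℝ) / |(x : ℝ)| ≤ 1 / (2 * (B + 1)) := by
    rw [div_le_div_iff₀ hx0 (by positivity)]
    linarith
  have hu : |1 / w| ≤ t := by
    have h1 : |1 / w| / t ≤ 1 := by
      rw [hut]
      refine hHx.trans ?_
      rw [div_le_one (by positivity)]
      linarith
    rwa [div_le_one ht0] at h1
  have hG := gx_eval g1 hw hw'
  constructor
  · have h1 : (m : ℝ) ^ (2 * (n + 1)) * (fx n b x : ℝ) - (((gx m k γ).eval x : ℤ) : ℝ) ^ m =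
        w ^ (n + 1) * aeval (1 / w) (phi m n b - γ ^ m) := by
      rw [← phi_eval b hw hw', hG, mul_pow, ← pow_mul, mul_comm k m, ← hn, map_sub, map_pow]
      ring
    rw [h1, abs_mul, abs_pow]
    have h2 := aeval_le ht0 _ g4 hu
    rw [hut] at h2
    have h3 : nrm t (phi m n b - γ ^ m) ≤ n + 2 + B ^ m := by
      refine (nrm_sub ht0.le _ _).trans ?_
      have e1 : nrm t (phi m n b) ≤ n + 2 := by rw [ht]; exact phi_nrm hm1 hH hb
      have e2 := (nrm_pow ht0.le γ m).trans (pow_le_pow_left₀ (nrm_nonneg ht0.le _) g5 m)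
      linarith
    have h4 : |w| ^ (n + 1) * ((H : ℝ) / |(x : ℝ)|) ^ (k + 1) =
        ((m : ℝ) ^ 2) ^ (n + 1) * (H : ℝ) ^ (k + 1) * |(x : ℝ)| ^ (n - k) := by
      have e1 : n + 1 = (n - k) + (k + 1) := by omega
      have e2 : |(x : ℝ)| ^ (n + 1) = |(x : ℝ)| ^ (n - k) * |(x : ℝ)| ^ (k + 1) := by
        rw [← pow_add, ← e1]
      rw [hwa, mul_pow, div_pow, e2]
      field_simp
    calc |w| ^ (n + 1) * |aeval (1 / w) (phi m n b - γ ^ m)|
        ≤ |w| ^ (n + 1) * (nrm t (phi m n b - γ ^ m) * ((H : ℝ) / |(x : ℝ)|) ^ (k + 1)) := by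
          gcongr
      _ ≤ |w| ^ (n + 1) * ((n + 2 + B ^ m) * ((H : ℝ) / |(x : ℝ)|) ^ (k + 1)) := by gcongr
      _ = (n + 2 + B ^ m) * (|w| ^ (n + 1) * ((H : ℝ) / |(x : ℝ)|) ^ (k + 1)) := by ring
      _ = (((m : ℝ) ^ 2) ^ (n + 1) * (n + 2 + B ^ m)) * (H : ℝ) ^ (k + 1) *
          |(x : ℝ)| ^ (n - k) := by rw [h4]; ring
      _ ≤ _ := by
          gcongr
          exact le_max_right _ _
  · rw [hG, abs_mul, abs_pow]
    have h1 : X ^ 1 ∣ γ - 1 := by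
      rw [pow_one, X_dvd_iff, coeff_sub, g2, coeff_one_zero, sub_self]
    have h2 := aeval_le ht0 _ h1 hu
    rw [hut, pow_one] at h2
    have h3 : nrm t (γ - 1) ≤ B + 1 := by
      refine (nrm_sub ht0.le _ _).trans ?_
      rw [nrm_one]
      linarith
    have h4 : |aeval (1 / w) (γ - 1)| ≤ 1 / 2 := by
      calc |aeval (1 / w) (γ - 1)| ≤ nrm t (γ - 1) * ((H : ℝ) / |(x : ℝ)|) := h2
        _ ≤ (B + 1) * (1 / (2 * (B + 1))) := by gcongr
        _ = 1 / 2 := by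
            field_simp
    rw [map_sub, map_one] at h4
    have h5 : 1 / 2 ≤ |aeval (1 / w) γ| := by
      have h6 := (abs_le.1 h4).1
      refine le_trans ?_ (le_abs_self _)
      linarith
    calc |(x : ℝ)| ^ k ≤ |(x : ℝ)| ^ k * ((m : ℝ) ^ 2) ^ k * (1 / 2) := by
          have h7 : (2 : ℝ) ≤ ((m : ℝ) ^ 2) ^ k := by
            have h8 : (2 : ℝ) ≤ (m : ℝ) ^ 2 := by nlinarith
            calc (2 : ℝ) ≤ (m : ℝ) ^ 2 := h8
              _ ≤ _ := le_self_pow₀ (by linarith) (by omega)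
          have h9 : 0 < |(x : ℝ)| ^ k := by positivity
          nlinarith
      _ = |w| ^ k * (1 / 2) := by
          rw [hwa, mul_pow]
          ring
      _ ≤ _ := by gcongr

lemma abs_pow_sub {u v : ℝ} (hu : 0 ≤ u) (hv : 0 ≤ v) (m : ℕ) :
    |u - v| * v ^ m ≤ |u ^ (m + 1) - v ^ (m + 1)| := by
  rcases le_total u v with h | h
  · have h1 := pow_le_pow_left₀ hu h (m + 1)
    have h2 := pow_le_pow_left₀ hu h m
    rw [abs_of_nonpos (by linarith), abs_of_nonpos (by linarith), pow_succ, pow_succ]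
    nlinarith
  · have h1 := pow_le_pow_left₀ hv h (m + 1)
    have h2 := pow_le_pow_left₀ hv h m
    rw [abs_of_nonneg (by linarith), abs_of_nonneg (by linarith), pow_succ, pow_succ]
    nlinarith

/-- comparing two powers -/
lemma root_cmp {m : ℕ} (hm : 1 ≤ m) {G F Y : ℤ} (hY : Y ^ m = F) {Δ : ℝ}
    (h1 : |(F : ℝ) - (G : ℝ) ^ m| ≤ Δ) (h2 : Δ < |(G : ℝ)| ^ m) :
    ∃ S : ℤ, (G + S) ^ m = F ∧ |(S : ℝ)| * |(G : ℝ)| ^ (m - 1) ≤ Δ := by
  have hG : G ≠ 0 := by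
    rintro rfl
    have : |((0 : ℤ) : ℝ)| ^ m = 0 := by
      rw [Int.cast_zero, abs_zero, zero_pow (by omega)]
    rw [this] at h2
    linarith [abs_nonneg ((F : ℝ) - ((0 : ℤ) : ℝ) ^ m)]
  have hGs : G.sign * G.sign = 1 := by
    rcases lt_or_gt_of_ne hG with h | h
    · rw [Int.sign_eq_neg_one_of_neg h]; norm_num
    · rw [Int.sign_eq_one_of_pos h]; norm_num
  refine ⟨G.sign * (|Y| - |G|), ?_, ?_⟩
  · have e1 : G + G.sign * (|Y| - |G|) = G.sign * |Y| := by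
      have := Int.sign_mul_abs G
      linear_combination -this
    rw [e1, mul_pow, ← abs_pow, hY]
    -- the sign of `F`
    have h3 : |F - G ^ m| < |G ^ m| := by
      have h4 : |(F : ℝ) - (G : ℝ) ^ m| < |(G : ℝ) ^ m| := by
        rw [abs_pow]
        linarith
      exact_mod_cast h4
    have h5 : F.sign = (G ^ m).sign := by
      rcases lt_or_gt_of_ne (pow_ne_zero m hG) with h | h
      · rw [Int.sign_eq_neg_one_of_neg h]
        rw [abs_of_neg h, abs_lt] at h3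
        exact Int.sign_eq_neg_one_of_neg (by linarith [h3.2])
      · rw [Int.sign_eq_one_of_pos h]
        rw [abs_of_pos h, abs_lt] at h3
        exact Int.sign_eq_one_of_pos (by linarith [h3.1])
    have h6 : (G ^ m).sign = G.sign ^ m := by
      clear h5 h3 e1 h2 h1 hY hm
      induction m with
      | zero => simp
      | succ m ih => rw [pow_succ, Int.sign_mul, ih, pow_succ]
    rw [← h6, ← h5]
    exact Int.sign_mul_abs F
  · push_cast
    rw [abs_mul]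
    have e1 : |(G.sign : ℝ)| = 1 := by
      rcases lt_or_gt_of_ne hG with h | h
      · rw [Int.sign_eq_neg_one_of_neg h]; norm_num
      · rw [Int.sign_eq_one_of_pos h]; norm_num
    rw [e1, one_mul]
    obtain ⟨m', rfl⟩ : ∃ m', m = m' + 1 := ⟨m - 1, by omega⟩
    rw [Nat.add_sub_cancel]
    have e2 : |(Y : ℝ)| ^ (m' + 1) = |(F : ℝ)| := by
      rw [← hY]
      push_cast
      rw [abs_pow]
    have e3 : |(|(Y : ℝ)| ^ (m' + 1) - |(G : ℝ)| ^ (m' + 1))| ≤ Δ := by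
      rw [e2, ← abs_pow]
      exact (abs_abs_sub_abs_le _ _).trans h1
    refine le_trans ?_ e3
    have hy := abs_nonneg (Y : ℝ)
    have hg := abs_nonneg (G : ℝ)
    exact abs_pow_sub hy hg m'

/-- **Values which are powers.** -/
lemma near_pow {m n k : ℕ} (hm : 2 ≤ m) (hk : 1 ≤ k) (hn : n + 1 = m * k) :
    ∃ C : ℝ, 1 ≤ C ∧ ∀ H : ℕ, 1 ≤ H → ∀ b ∈ ibox (Fin (n + 1)) H, ∃ γ : ℤ[X], γ.natDegree ≤ k ∧
      nrm (1 / ((m : ℝ) ^ 2 * H)) γ ≤ C ∧ ∀ a ∈ ibox (Fin (n + 1)) H,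
        (∀ i : Fin (n + 1), n + 1 ≤ (i : ℕ) + k → a i = b i) → ∀ x : ℤ, C * H ≤ |(x : ℝ)| →
        IsPow m (fx n a x) → ∃ S : ℤ, ((gx m k γ).eval x + S) ^ m =
          (m : ℤ) ^ (2 * (n + 1)) * fx n a x ∧ |(S : ℝ)| * |(x : ℝ)| ≤ C * (H : ℝ) ^ (k + 1) := by
  have hm1 : 1 ≤ m := by omega
  have hm0 : (0 : ℝ) < m := by exact_mod_cast hm1
  have hkn : k ≤ n := by
    have : 2 * k ≤ m * k := Nat.mul_le_mul_right k hm
    omega
  obtain ⟨C, hC, hnear⟩ := near hm hk hn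
  obtain ⟨D, hD⟩ : ∃ D : ℝ, D = 2 * (C + (m : ℝ) ^ (2 * (n + 1)) * ((n + 1) * 2)) := ⟨_, rfl⟩
  have hD1 : C + (m : ℝ) ^ (2 * (n + 1)) * ((n + 1) * 2) < D := by
    rw [hD]
    have : 0 < (m : ℝ) ^ (2 * (n + 1)) * ((n + 1) * 2) := by positivity
    linarith
  have hCD : C ≤ D := by
    have : 0 < (m : ℝ) ^ (2 * (n + 1)) * ((n + 1) * 2) := by positivity
    linarith
  refine ⟨D, by linarith, fun H hH b hb => ?_⟩
  have hH1 : (1 : ℝ) ≤ H := by exact_mod_cast hH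
  have hH0 : (0 : ℝ) < H := by linarith
  obtain ⟨γ, g1, g2, g3⟩ := hnear H hH b hb
  refine ⟨γ, g1, g2.trans hCD, fun a ha hab x hx hpow => ?_⟩
  obtain ⟨q, hq⟩ : ∃ q : ℝ, q = |(x : ℝ)| := ⟨_, rfl⟩
  rw [← hq] at hx
  have hx' : C * H ≤ q := (mul_le_mul_of_nonneg_right hCD hH0.le).trans hx
  obtain ⟨h1, h2⟩ := g3 x (by rw [← hq]; exact hx')
  rw [← hq] at h1 h2
  have hq1 : 1 ≤ q := by nlinarith
  have hq0 : 0 < q := by linarith
  obtain ⟨y, hy⟩ := hpow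
  have hY : ((m : ℤ) ^ (2 * k) * y) ^ m = (m : ℤ) ^ (2 * (n + 1)) * fx n a x := by
    rw [mul_pow, hy, ← pow_mul, hn]
    congr 2
    ring
  have hdiff : |(fx n a x : ℝ) - (fx n b x : ℝ)| ≤ (n + 1) * (2 * H * q ^ (n - k)) := by
    have h1 : (fx n a x : ℝ) - (fx n b x : ℝ) =
        ∑ i : Fin (n + 1), ((a i : ℝ) - (b i : ℝ)) * (x : ℝ) ^ (i : ℕ) := by
      unfold fx
      push_cast
      rw [add_sub_add_left_eq_sub, ← sum_sub_distrib]
      refine sum_congr rfl fun i _ => by ring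
    rw [h1]
    refine (abs_sum_le_sum_abs _ _).trans ?_
    have h2 : ∀ i ∈ (univ : Finset (Fin (n + 1))), |((a i : ℝ) - (b i : ℝ)) * (x : ℝ) ^ (i : ℕ)| ≤
        2 * H * q ^ (n - k) := by
      intro i _
      by_cases hi : n + 1 ≤ (i : ℕ) + k
      · rw [hab i hi, sub_self, zero_mul, abs_zero]
        positivity
      · rw [not_le] at hi
        rw [abs_mul, abs_pow, ← hq]
        have h3 : |(a i : ℝ)| ≤ H := by exact_mod_cast mem_ibox.1 ha i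
        have h4 : |(b i : ℝ)| ≤ H := by exact_mod_cast mem_ibox.1 hb i
        have h5 := abs_sub (a i : ℝ) (b i : ℝ)
        have h6 : q ^ (i : ℕ) ≤ q ^ (n - k) := pow_le_pow_right₀ hq1 (by omega)
        exact mul_le_mul (by linarith) h6 (by positivity) (by positivity)
    refine (sum_le_sum h2).trans ?_
    rw [sum_const, card_univ, Fintype.card_fin, nsmul_eq_mul]
    push_cast
    exact le_rfl
  obtain ⟨G, hG⟩ : ∃ G : ℤ, G = (gx m k γ).eval x := ⟨_, rfl⟩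
  rw [← hG] at h1 h2 ⊢
  obtain ⟨Δ, hΔ⟩ : ∃ Δ : ℝ, Δ = (C + (m : ℝ) ^ (2 * (n + 1)) * ((n + 1) * 2)) * (H : ℝ) ^ (k + 1) *
      q ^ (n - k) := ⟨_, rfl⟩
  have hF : |(((m : ℤ) ^ (2 * (n + 1)) * fx n a x : ℤ) : ℝ) - (G : ℝ) ^ m| ≤ Δ := by
    push_cast
    have e1 : (m : ℝ) ^ (2 * (n + 1)) * (fx n a x : ℝ) - (G : ℝ) ^ m =
        (m : ℝ) ^ (2 * (n + 1)) * ((fx n a x : ℝ) - (fx n b x : ℝ)) +
        ((m : ℝ) ^ (2 * (n + 1)) * (fx n b x : ℝ) - (G : ℝ) ^ m) := by ring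
    rw [e1]
    refine (abs_add_le _ _).trans ?_
    rw [abs_mul, abs_of_pos (show 0 < (m : ℝ) ^ (2 * (n + 1)) by positivity)]
    have e2 : (H : ℝ) ≤ (H : ℝ) ^ (k + 1) := le_self_pow₀ hH1 (by omega)
    calc (m : ℝ) ^ (2 * (n + 1)) * |(fx n a x : ℝ) - (fx n b x : ℝ)| +
        |(m : ℝ) ^ (2 * (n + 1)) * (fx n b x : ℝ) - (G : ℝ) ^ m|
        ≤ (m : ℝ) ^ (2 * (n + 1)) * ((n + 1) * (2 * (H : ℝ) ^ (k + 1) * q ^ (n - k))) +
          C * (H : ℝ) ^ (k + 1) * q ^ (n - k) := by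
          apply add_le_add _ h1
          apply mul_le_mul_of_nonneg_left _ (by positivity)
          refine hdiff.trans ?_
          gcongr
      _ = Δ := by rw [hΔ]; ring
  have hlt : Δ < |(G : ℝ)| ^ m := by
    have e1 : (q ^ k) ^ m ≤ |(G : ℝ)| ^ m := pow_le_pow_left₀ (by positivity) h2 m
    refine lt_of_lt_of_le ?_ e1
    have e2 : (q ^ k) ^ m = q ^ (k + 1) * q ^ (n - k) := by
      rw [← pow_mul, ← pow_add, mul_comm k m, ← hn]
      congr 1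
      omega
    rw [e2, hΔ]
    apply mul_lt_mul_of_pos_right _ (by positivity)
    have e3 : D * (H : ℝ) ^ (k + 1) ≤ q ^ (k + 1) := by
      calc D * (H : ℝ) ^ (k + 1) ≤ D ^ (k + 1) * (H : ℝ) ^ (k + 1) := by
            gcongr
            exact le_self_pow₀ (by linarith) (by omega)
        _ = (D * H) ^ (k + 1) := by rw [mul_pow]
        _ ≤ _ := pow_le_pow_left₀ (by nlinarith) hx _
    refine lt_of_lt_of_le ?_ e3
    apply mul_lt_mul_of_pos_right hD1 (by positivity)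
  obtain ⟨S, s1, s2⟩ := root_cmp hm1 hY hF hlt
  refine ⟨S, s1, ?_⟩
  have e1 : q ^ (n + 1 - k) ≤ |(G : ℝ)| ^ (m - 1) := by
    calc q ^ (n + 1 - k) = (q ^ k) ^ (m - 1) := by
          rw [← pow_mul]
          congr 1
          rw [hn]
          obtain ⟨m', rfl⟩ : ∃ m', m = m' + 1 := ⟨m - 1, by omega⟩
          rw [Nat.add_sub_cancel, add_mul, one_mul, Nat.add_sub_cancel, mul_comm]
      _ ≤ _ := pow_le_pow_left₀ (by positivity) h2 _
  have e2 : |(S : ℝ)| * q ^ (n + 1 - k) ≤ Δ :=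
    (mul_le_mul_of_nonneg_left e1 (abs_nonneg _)).trans s2
  have e3 : q ^ (n + 1 - k) = q * q ^ (n - k) := by
    rw [← pow_succ']
    congr 1
    omega
  rw [e3, hΔ, ← mul_assoc] at e2
  have e4 : 0 < q ^ (n - k) := by positivity
  have e5 := le_of_mul_le_mul_right e2 e4
  rw [← hq]
  refine e5.trans ?_
  apply mul_le_mul_of_nonneg_right hD1.le (by positivity)

end Pool.Agent.N656.SE
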