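import Pool.Agent.N656.LL.Vol
import Pool.Agent.R414.DN.Box

set_option autoImplicit false
set_option linter.unusedSectionVars false

/-! Perfect powers in intervals and sums of a continuous function over the points of a box. -/

open MeasureTheory Filter Topology Finset

namespace Pool.Agent.N656.SE

open Pool.Agent.R414.DN

/-- the root of the positive part -/
noncomputable def pr (m : ℕ) (t : ℝ) : ℝ := (max t 0) ^ (1 / (m : ℝ))

/-- the real root: odd for odd `m`, the root of the positive part for even `m` -/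
noncomputable def rho (m : ℕ) (t : ℝ) : ℝ := pr m t - if Even m then 0 else pr m (-t)

lemma pr_nonneg (m : ℕ) (t : ℝ) : 0 ≤ pr m t := Real.rpow_nonneg (le_max_right _ _) _

lemma pr_mono (m : ℕ) {s t : ℝ} (h : s ≤ t) : pr m s ≤ pr m t := by
  unfold pr
  apply Real.rpow_le_rpow (le_max_right _ _) (max_le_max h le_rfl)
  positivity

lemma pr_cont {m : ℕ} (hm : 1 ≤ m) : Continuous (pr m) := by
  unfold pr
  apply Continuous.rpow_const
  · fun_prop
  · intro x
    right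
    positivity

lemma pr_hom (m : ℕ) {h : ℝ} (hh : 0 ≤ h) (t : ℝ) : pr m (h * t) = h ^ (1 / (m : ℝ)) * pr m t := by
  unfold pr
  rw [← Real.mul_rpow hh (le_max_right _ _)]
  congr 1
  rw [mul_max_of_nonneg _ _ hh, mul_zero]

lemma pr_holder {m : ℕ} (hm : 1 ≤ m) (s h : ℝ) : |pr m (s + h) - pr m s| ≤ |h| ^ (1 / (m : ℝ)) := by
  have hm' : (1 : ℝ) ≤ m := by exact_mod_cast hm
  have key : ∀ s t : ℝ, s ≤ t → pr m t - pr m s ≤ |t - s| ^ (1 / (m : ℝ)) := by
    intro s t hst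
    have h1 : max t 0 ≤ max s 0 + |t - s| := by
      apply max_le
      · have := le_max_left s 0
        have := le_abs_self (t - s)
        linarith
      · have := le_max_right s 0
        have := abs_nonneg (t - s)
        linarith
    have h2 : pr m t ≤ (max s 0 + |t - s|) ^ (1 / (m : ℝ)) := by
      unfold pr
      apply Real.rpow_le_rpow (le_max_right _ _) h1
      positivity
    have h3 := Real.rpow_add_le_add_rpow (le_max_right s 0) (abs_nonneg (t - s))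
      (by positivity : (0 : ℝ) ≤ 1 / m) (by rw [div_le_one (by linarith)]; exact hm')
    unfold pr at h2 ⊢
    linarith
  rw [abs_le]
  rcases le_total 0 h with hh | hh
  · have h1 := key s (s + h) (by linarith)
    have h2 := pr_mono m (by linarith : s ≤ s + h)
    have h3 : (0 : ℝ) ≤ |h| ^ (1 / (m : ℝ)) := by positivity
    rw [add_sub_cancel_left] at h1
    constructor <;> linarith
  · have h1 := key (s + h) s (by linarith)
    have h2 := pr_mono m (by linarith : s + h ≤ s)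
    have h3 : (0 : ℝ) ≤ |h| ^ (1 / (m : ℝ)) := by positivity
    have h4 : s - (s + h) = -h := by ring
    rw [h4, abs_neg] at h1
    constructor <;> linarith

lemma rho_cont {m : ℕ} (hm : 1 ≤ m) : Continuous (rho m) := by
  unfold rho
  have h1 := pr_cont hm
  split_ifs
  · simpa using h1
  · exact h1.sub (h1.comp continuous_neg)

lemma rho_mono (m : ℕ) {s t : ℝ} (h : s ≤ t) : rho m s ≤ rho m t := by
  unfold rho
  have h1 := pr_mono m h
  have h2 := pr_mono m (neg_le_neg h)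
  split_ifs <;> linarith

lemma rho_hom (m : ℕ) {h : ℝ} (hh : 0 ≤ h) (t : ℝ) :
    rho m (h * t) = h ^ (1 / (m : ℝ)) * rho m t := by
  unfold rho
  rw [pr_hom m hh, ← mul_neg, pr_hom m hh, mul_sub]
  split_ifs <;> simp

lemma rho_holder {m : ℕ} (hm : 1 ≤ m) (s h : ℝ) :
    |rho m (s + h) - rho m s| ≤ 2 * |h| ^ (1 / (m : ℝ)) := by
  have h1 := pr_holder hm s h
  have h2 := pr_holder hm (-s) (-h)
  rw [abs_neg] at h2
  have h3 : -(s + h) = -s + -h := by ring
  have h4 : (0 : ℝ) ≤ |h| ^ (1 / (m : ℝ)) := by positivity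
  unfold rho
  rw [h3]
  split_ifs
  · rw [sub_zero, sub_zero]
    linarith
  · have e : pr m (s + h) - pr m (-s + -h) - (pr m s - pr m (-s)) =
        (pr m (s + h) - pr m s) - (pr m (-s + -h) - pr m (-s)) := by ring
    rw [e]
    have := abs_sub (pr m (s + h) - pr m s) (pr m (-s + -h) - pr m (-s))
    linarith

/-- `n` is the `m`-th power of an integer -/
def IsPow (m : ℕ) (n : ℤ) : Prop := ∃ y : ℤ, y ^ m = n

/-- positive powers in an interval -/
lemma card_pos_pow {m : ℕ} (hm : 1 ≤ m) {A B : ℝ} (hAB : A ≤ B) (S : Finset ℕ)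
    (hS : ∀ y, y ∈ S ↔ 1 ≤ y ∧ A ≤ (y : ℝ) ^ m ∧ (y : ℝ) ^ m ≤ B) :
    |(S.card : ℝ) - (pr m B - pr m A)| ≤ 1 := by
  have hm0 : (0 : ℝ) < m := by exact_mod_cast hm
  have hA0 := pr_nonneg m A
  have hB0 := pr_nonneg m B
  have hABp := pr_mono m hAB
  have e1 : ∀ y : ℕ, 1 ≤ y → ∀ t : ℝ, ((y : ℝ) ^ m ≤ t ↔ (y : ℝ) ≤ pr m t) := by
    intro y hy t
    have hy0 : (0 : ℝ) < y := by exact_mod_cast hy
    unfold pr
    constructor
    · intro h
      have h1 : (y : ℝ) ^ m ≤ max t 0 := h.trans (le_max_left _ _)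
      calc (y : ℝ) = ((y : ℝ) ^ m) ^ (1 / (m : ℝ)) := by
            rw [← Real.rpow_natCast, ← Real.rpow_mul hy0.le, mul_one_div_cancel hm0.ne',
              Real.rpow_one]
        _ ≤ _ := Real.rpow_le_rpow (by positivity) h1 (by positivity)
    · intro h
      have h1 : (y : ℝ) ^ m ≤ ((max t 0) ^ (1 / (m : ℝ))) ^ m := pow_le_pow_left₀ hy0.le h m
      rw [← Real.rpow_natCast ((max t 0) ^ (1 / (m : ℝ))), ← Real.rpow_mul (le_max_right _ _),
        one_div_mul_cancel hm0.ne', Real.rpow_one] at h1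
      by_contra h2
      rw [not_le] at h2
      rcases le_total t 0 with h3 | h3
      · rw [max_eq_right h3] at h1
        have : (0 : ℝ) < (y : ℝ) ^ m := by positivity
        linarith
      · rw [max_eq_left h3] at h1
        linarith
  have e2 : ∀ y : ℕ, 1 ≤ y → ∀ t : ℝ, (t ≤ (y : ℝ) ^ m ↔ pr m t ≤ (y : ℝ)) := by
    intro y hy t
    have hy0 : (0 : ℝ) < y := by exact_mod_cast hy
    unfold pr
    constructor
    · intro h
      have h1 : max t 0 ≤ (y : ℝ) ^ m := max_le h (by positivity)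
      calc (max t 0) ^ (1 / (m : ℝ)) ≤ ((y : ℝ) ^ m) ^ (1 / (m : ℝ)) :=
            Real.rpow_le_rpow (le_max_right _ _) h1 (by positivity)
        _ = (y : ℝ) := by
            rw [← Real.rpow_natCast, ← Real.rpow_mul hy0.le, mul_one_div_cancel hm0.ne',
              Real.rpow_one]
    · intro h
      have h1 : ((max t 0) ^ (1 / (m : ℝ))) ^ m ≤ (y : ℝ) ^ m :=
        pow_le_pow_left₀ (Real.rpow_nonneg (le_max_right _ _) _) h m
      rw [← Real.rpow_natCast ((max t 0) ^ (1 / (m : ℝ))), ← Real.rpow_mul (le_max_right _ _),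
        one_div_mul_cancel hm0.ne', Real.rpow_one] at h1
      exact (le_max_left _ _).trans h1
  have hSI : S = Finset.Icc (max 1 ⌈pr m A⌉₊) ⌊pr m B⌋₊ := by
    ext y
    rw [hS, Finset.mem_Icc, max_le_iff]
    constructor
    · rintro ⟨h1, h2, h3⟩
      exact ⟨⟨h1, Nat.ceil_le.2 ((e2 y h1 A).1 h2)⟩, Nat.le_floor ((e1 y h1 B).1 h3)⟩
    · rintro ⟨⟨h1, h2⟩, h3⟩
      refine ⟨h1, (e2 y h1 A).2 (Nat.ceil_le.1 h2), (e1 y h1 B).2 ?_⟩
      exact (Nat.le_floor_iff hB0).1 h3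
  rw [hSI, Nat.card_Icc]
  have f1 := Nat.floor_le hB0
  have f2 := Nat.lt_floor_add_one (pr m B)
  have c1 := Nat.le_ceil (pr m A)
  have c2 := Nat.ceil_lt_add_one hA0
  obtain ⟨F, hF⟩ : ∃ F, F = ⌊pr m B⌋₊ := ⟨_, rfl⟩
  obtain ⟨G, hG⟩ : ∃ G, G = ⌈pr m A⌉₊ := ⟨_, rfl⟩
  rw [← hF] at f1 f2
  rw [← hG] at c1 c2
  rw [← hF, ← hG, abs_le]
  rcases le_total (max 1 G) (F + 1) with h | h
  · rw [Nat.cast_sub h]
    push_cast
    have h1 : (1 : ℝ) ≤ max 1 (G : ℝ) := le_max_left _ _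
    have h2 : (G : ℝ) ≤ max 1 (G : ℝ) := le_max_right _ _
    have h3 : max 1 (G : ℝ) ≤ pr m A + 1 := max_le (by linarith) (by linarith)
    constructor <;> linarith
  · rw [Nat.sub_eq_zero_of_le h, Nat.cast_zero]
    have h1 : ((F : ℝ) + 1) ≤ max 1 (G : ℝ) := by exact_mod_cast h
    have h3 : max 1 (G : ℝ) ≤ pr m A + 1 := max_le (by linarith) (by linarith)
    constructor <;> linarith

/-- **Powers in an interval.** -/
lemma card_pow {m : ℕ} (hm : 1 ≤ m) {A B : ℤ} (hAB : A ≤ B) :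
    |(Set.ncard {n : ℤ | A ≤ n ∧ n ≤ B ∧ IsPow m n} : ℝ) - (rho m B - rho m A)| ≤ 3 := by
  classical
  have hm0 : m ≠ 0 := by omega
  -- positive and negative powers
  obtain ⟨Sp, hSp⟩ : ∃ Sp : Finset ℕ, ∀ y, y ∈ Sp ↔ 1 ≤ y ∧ (A : ℝ) ≤ (y : ℝ) ^ m ∧
      (y : ℝ) ^ m ≤ B := by
    refine ⟨(Finset.range (B.toNat + 1)).filter fun y => 1 ≤ y ∧ (A : ℝ) ≤ (y : ℝ) ^ m ∧
      (y : ℝ) ^ m ≤ B, fun y => ?_⟩
    rw [Finset.mem_filter, Finset.mem_range]
    refine ⟨fun h => h.2, fun h => ⟨?_, h⟩⟩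
    have h1 : (y : ℝ) ≤ (y : ℝ) ^ m := by
      have h2 : (1 : ℝ) ≤ y := by exact_mod_cast h.1
      exact le_self_pow₀ h2 hm0
    have h3 : ((y : ℤ) : ℝ) ≤ (B : ℝ) := by
      push_cast
      linarith [h.2.2]
    have h4 : (y : ℤ) ≤ B := by exact_mod_cast h3
    omega
  obtain ⟨Sn, hSn⟩ : ∃ Sn : Finset ℕ, ∀ y, y ∈ Sn ↔ 1 ≤ y ∧ -(B : ℝ) ≤ (y : ℝ) ^ m ∧
      (y : ℝ) ^ m ≤ -(A : ℝ) := by
    refine ⟨(Finset.range ((-A).toNat + 1)).filter fun y => 1 ≤ y ∧ -(B : ℝ) ≤ (y : ℝ) ^ m ∧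
      (y : ℝ) ^ m ≤ -(A : ℝ), fun y => ?_⟩
    rw [Finset.mem_filter, Finset.mem_range]
    refine ⟨fun h => h.2, fun h => ⟨?_, h⟩⟩
    have h1 : (y : ℝ) ≤ (y : ℝ) ^ m := by
      have h2 : (1 : ℝ) ≤ y := by exact_mod_cast h.1
      exact le_self_pow₀ h2 hm0
    have h3 : ((y : ℤ) : ℝ) ≤ ((-A : ℤ) : ℝ) := by
      push_cast
      linarith [h.2.2]
    have h4 : (y : ℤ) ≤ -A := by exact_mod_cast h3
    omega
  have hAB' : (A : ℝ) ≤ B := by exact_mod_cast hAB
  have cp := card_pos_pow hm hAB' Sp hSp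
  have cn := card_pos_pow hm (neg_le_neg hAB') Sn hSn
  have hinjp : Function.Injective (fun y : ℕ => ((y : ℤ) ^ m : ℤ)) := by
    intro y z h
    have h1 : (y : ℕ) ^ m = z ^ m := by
      have h2 : ((y : ℤ)) ^ m = (z : ℤ) ^ m := h
      exact_mod_cast h2
    exact Nat.pow_left_injective hm0 h1
  have hfin : {n : ℤ | A ≤ n ∧ n ≤ B ∧ IsPow m n}.Finite :=
    (Set.finite_Icc A B).subset fun n hn => ⟨hn.1, hn.2.1⟩
  -- the positive ones
  have hpsub : (↑(Sp.image fun y : ℕ => ((y : ℤ) ^ m : ℤ)) : Set ℤ) ⊆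
      {n : ℤ | A ≤ n ∧ n ≤ B ∧ IsPow m n} := by
    intro n hn
    rw [Finset.mem_coe, Finset.mem_image] at hn
    obtain ⟨y, hy, rfl⟩ := hn
    obtain ⟨h1, h2, h3⟩ := (hSp y).1 hy
    exact ⟨by exact_mod_cast h2, by exact_mod_cast h3, y, rfl⟩
  by_cases hev : Even m
  · have hr : rho m B - rho m A = pr m B - pr m A := by
      unfold rho
      simp only [if_pos hev, sub_zero]
    rw [hr]
    have hsup : {n : ℤ | A ≤ n ∧ n ≤ B ∧ IsPow m n} ⊆
        ↑(insert 0 (Sp.image fun y : ℕ => ((y : ℤ) ^ m : ℤ))) := by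
      rintro n ⟨h1, h2, y, hy⟩
      rw [Finset.coe_insert, Set.mem_insert_iff, Finset.mem_coe, Finset.mem_image]
      by_cases hy0 : y = 0
      · left
        rw [← hy, hy0, zero_pow hm0]
      · right
        obtain ⟨z, hz⟩ : ∃ z : ℕ, z = y.natAbs := ⟨_, rfl⟩
        have e : (z : ℤ) ^ m = n := by
          rw [hz, Int.natCast_natAbs, hev.pow_abs, hy]
        have e' : ((n : ℤ) : ℝ) = (z : ℝ) ^ m := by
          rw [← e]; push_cast; rfl
        have h1' : (A : ℝ) ≤ ((n : ℤ) : ℝ) := by exact_mod_cast h1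
        have h2' : ((n : ℤ) : ℝ) ≤ (B : ℝ) := by exact_mod_cast h2
        rw [e'] at h1' h2'
        exact ⟨z, (hSp _).2 ⟨by omega, h1', h2'⟩, e⟩
    have u1 := Set.ncard_le_ncard hpsub hfin
    have u2 := Set.ncard_le_ncard hsup (Finset.finite_toSet _)
    rw [Set.ncard_coe_finset] at u1 u2
    have u3 := Finset.card_insert_le (0 : ℤ) (Sp.image fun y : ℕ => ((y : ℤ) ^ m : ℤ))
    rw [Finset.card_image_of_injective _ hinjp] at u1 u3
    have u1' : (Sp.card : ℝ) ≤ (Set.ncard {n : ℤ | A ≤ n ∧ n ≤ B ∧ IsPow m n} : ℝ) := by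
      exact_mod_cast u1
    have u2' : (Set.ncard {n : ℤ | A ≤ n ∧ n ≤ B ∧ IsPow m n} : ℝ) ≤ Sp.card + 1 := by
      exact_mod_cast u2.trans u3
    have cp' := abs_le.1 cp
    rw [abs_le]
    constructor <;> linarith [cp'.1, cp'.2]
  · have hod : Odd m := Nat.not_even_iff_odd.1 hev
    have hr : rho m B - rho m A = (pr m B - pr m A) + (pr m (-A) - pr m (-B)) := by
      unfold rho
      simp only [if_neg hev]
      ring
    rw [hr]
    have hinjn : Function.Injective (fun y : ℕ => (-((y : ℤ) ^ m) : ℤ)) := by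
      intro y z h
      exact hinjp (neg_injective h)
    have hsub : (↑((Sp.image fun y : ℕ => ((y : ℤ) ^ m : ℤ)) ∪
        (Sn.image fun y : ℕ => (-((y : ℤ) ^ m) : ℤ))) : Set ℤ) ⊆
        {n : ℤ | A ≤ n ∧ n ≤ B ∧ IsPow m n} := by
      intro n hn
      rw [Finset.coe_union] at hn
      rcases hn with hn | hn
      · exact hpsub hn
      · rw [Finset.mem_coe, Finset.mem_image] at hn
        obtain ⟨y, hy, rfl⟩ := hn
        obtain ⟨h1, h2, h3⟩ := (hSn y).1 hy
        refine ⟨?_, ?_, -(y : ℤ), hod.neg_pow _⟩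
        · have : ((A : ℤ) : ℝ) ≤ ((-((y : ℤ) ^ m) : ℤ) : ℝ) := by push_cast; linarith
          exact_mod_cast this
        · have : ((-((y : ℤ) ^ m) : ℤ) : ℝ) ≤ ((B : ℤ) : ℝ) := by push_cast; linarith
          exact_mod_cast this
    have hdisj : Disjoint (Sp.image fun y : ℕ => ((y : ℤ) ^ m : ℤ))
        (Sn.image fun y : ℕ => (-((y : ℤ) ^ m) : ℤ)) := by
      rw [Finset.disjoint_left]
      intro n hn hn'
      rw [Finset.mem_image] at hn hn'
      obtain ⟨y, hy, h1⟩ := hn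
      obtain ⟨z, hz, h2⟩ := hn'
      have hy1 : 1 ≤ y := ((hSp y).1 hy).1
      have hz1 : 1 ≤ z := ((hSn z).1 hz).1
      have h3 : (0 : ℤ) < (y : ℤ) ^ m := by positivity
      have h4 : (0 : ℤ) < (z : ℤ) ^ m := by positivity
      omega
    have hsup : {n : ℤ | A ≤ n ∧ n ≤ B ∧ IsPow m n} ⊆
        ↑(insert 0 ((Sp.image fun y : ℕ => ((y : ℤ) ^ m : ℤ)) ∪
        (Sn.image fun y : ℕ => (-((y : ℤ) ^ m) : ℤ)))) := by
      rintro n ⟨h1, h2, y, hy⟩
      rw [Finset.coe_insert, Set.mem_insert_iff, Finset.mem_coe, Finset.mem_union,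
        Finset.mem_image, Finset.mem_image]
      rcases lt_trichotomy y 0 with hy0 | hy0 | hy0
      · right; right
        obtain ⟨z, hz⟩ : ∃ z : ℕ, z = y.natAbs := ⟨_, rfl⟩
        have e : -((z : ℤ) ^ m) = n := by
          rw [hz, Int.natCast_natAbs, abs_of_neg hy0, hod.neg_pow, neg_neg, hy]
        have e' : ((n : ℤ) : ℝ) = -((z : ℝ) ^ m) := by
          rw [← e]; push_cast; rfl
        have h1' : (A : ℝ) ≤ ((n : ℤ) : ℝ) := by exact_mod_cast h1
        have h2' : ((n : ℤ) : ℝ) ≤ (B : ℝ) := by exact_mod_cast h2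
        rw [e'] at h1' h2'
        exact ⟨z, (hSn _).2 ⟨by omega, by linarith, by linarith⟩, e⟩
      · left
        rw [← hy, hy0, zero_pow hm0]
      · right; left
        obtain ⟨z, hz⟩ : ∃ z : ℕ, z = y.natAbs := ⟨_, rfl⟩
        have e : (z : ℤ) ^ m = n := by
          rw [hz, Int.natCast_natAbs, abs_of_pos hy0, hy]
        have e' : ((n : ℤ) : ℝ) = (z : ℝ) ^ m := by
          rw [← e]; push_cast; rfl
        have h1' : (A : ℝ) ≤ ((n : ℤ) : ℝ) := by exact_mod_cast h1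
        have h2' : ((n : ℤ) : ℝ) ≤ (B : ℝ) := by exact_mod_cast h2
        rw [e'] at h1' h2'
        exact ⟨z, (hSp _).2 ⟨by omega, h1', h2'⟩, e⟩
    have u1 := Set.ncard_le_ncard hsub hfin
    have u2 := Set.ncard_le_ncard hsup (Finset.finite_toSet _)
    rw [Set.ncard_coe_finset] at u1 u2
    have u3 := Finset.card_insert_le (0 : ℤ) ((Sp.image fun y : ℕ => ((y : ℤ) ^ m : ℤ)) ∪
        (Sn.image fun y : ℕ => (-((y : ℤ) ^ m) : ℤ)))
    rw [Finset.card_union_of_disjoint hdisj, Finset.card_image_of_injective _ hinjp,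
      Finset.card_image_of_injective _ hinjn] at u1 u3
    have u1' : (Sp.card : ℝ) + Sn.card ≤ (Set.ncard {n : ℤ | A ≤ n ∧ n ≤ B ∧ IsPow m n} : ℝ) := by
      exact_mod_cast u1
    have u2' : (Set.ncard {n : ℤ | A ≤ n ∧ n ≤ B ∧ IsPow m n} : ℝ) ≤ Sp.card + Sn.card + 1 := by
      exact_mod_cast u2.trans u3
    have cp' := abs_le.1 cp
    have cn' := abs_le.1 cn
    rw [abs_le]
    constructor <;> linarith [cp'.1, cp'.2, cn'.1, cn'.2]

end Pool.Agent.N656.SE
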