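import Mathlib

set_option autoImplicit false
set_option linter.unusedSectionVars false

/-! The truncated `m`-th root of an integral polynomial, with a bound for its coefficients. -/

open Polynomial Finset

namespace Pool.Agent.N656.SE

/-- the weighted length -/
noncomputable def nrm (t : ℝ) (p : ℤ[X]) : ℝ := ∑ i ∈ p.support, |(p.coeff i : ℝ)| * t ^ i

lemma nrm_eq {t : ℝ} {p : ℤ[X]} {s : Finset ℕ} (h : p.support ⊆ s) :
    nrm t p = ∑ i ∈ s, |(p.coeff i : ℝ)| * t ^ i := by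
  unfold nrm
  apply sum_subset h
  intro i _ hi
  rw [notMem_support_iff.1 hi]
  simp

lemma nrm_nonneg {t : ℝ} (ht : 0 ≤ t) (p : ℤ[X]) : 0 ≤ nrm t p :=
  sum_nonneg fun i _ => by positivity

lemma nrm_add {t : ℝ} (ht : 0 ≤ t) (p q : ℤ[X]) : nrm t (p + q) ≤ nrm t p + nrm t q := by
  classical
  rw [nrm_eq (p := p) (s := p.support ∪ q.support) subset_union_left,
    nrm_eq (p := q) (s := p.support ∪ q.support) subset_union_right,
    nrm_eq (p := p + q) (s := p.support ∪ q.support) support_add, ← sum_add_distrib]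
  refine sum_le_sum fun i _ => ?_
  rw [← add_mul, coeff_add]
  push_cast
  exact mul_le_mul_of_nonneg_right (abs_add_le _ _) (by positivity)

lemma nrm_neg (t : ℝ) (p : ℤ[X]) : nrm t (-p) = nrm t p := by
  unfold nrm
  rw [support_neg]
  refine sum_congr rfl fun i _ => ?_
  rw [coeff_neg]
  push_cast
  rw [abs_neg]

lemma nrm_sub {t : ℝ} (ht : 0 ≤ t) (p q : ℤ[X]) : nrm t (p - q) ≤ nrm t p + nrm t q := by
  rw [sub_eq_add_neg, ← nrm_neg t q]
  exact nrm_add ht _ _

lemma nrm_zero (t : ℝ) : nrm t 0 = 0 := by simp [nrm]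

lemma nrm_monomial (t : ℝ) (i : ℕ) (c : ℤ) : nrm t (monomial i c) = |(c : ℝ)| * t ^ i := by
  rw [nrm_eq (s := {i}) (support_monomial_subset i c), sum_singleton, coeff_monomial, if_pos rfl]

lemma nrm_one (t : ℝ) : nrm t 1 = 1 := by
  have h : (1 : ℤ[X]) = monomial 0 1 := rfl
  rw [h, nrm_monomial]
  simp

lemma nrm_sum {t : ℝ} (ht : 0 ≤ t) {ι : Type} (s : Finset ι) (f : ι → ℤ[X]) :
    nrm t (∑ i ∈ s, f i) ≤ ∑ i ∈ s, nrm t (f i) := by
  classical
  induction s using Finset.induction_on with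
  | empty => simp [nrm_zero]
  | insert i s hi ih =>
    rw [sum_insert hi, sum_insert hi]
    exact (nrm_add ht _ _).trans (by linarith)

lemma nrm_mul {t : ℝ} (ht : 0 ≤ t) (p q : ℤ[X]) : nrm t (p * q) ≤ nrm t p * nrm t q := by
  rw [mul_eq_sum_sum]
  refine (nrm_sum ht _ _).trans ?_
  unfold nrm
  rw [sum_mul_sum]
  refine sum_le_sum fun i _ => ?_
  have h := nrm_sum ht q.support fun j => monomial (i + j) (p.coeff i * q.coeff j)
  refine h.trans ?_
  refine sum_le_sum fun j _ => ?_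
  rw [nrm_monomial]
  push_cast
  rw [abs_mul, pow_add]
  exact le_of_eq (by ring)

lemma nrm_pow {t : ℝ} (ht : 0 ≤ t) (p : ℤ[X]) (m : ℕ) : nrm t (p ^ m) ≤ nrm t p ^ m := by
  induction m with
  | zero => rw [pow_zero, pow_zero, nrm_one]
  | succ m ih =>
    rw [pow_succ, pow_succ]
    exact (nrm_mul ht _ _).trans (mul_le_mul_of_nonneg_right ih (nrm_nonneg ht _))

lemma coeff_le {t : ℝ} (ht : 0 ≤ t) (p : ℤ[X]) (i : ℕ) : |(p.coeff i : ℝ)| * t ^ i ≤ nrm t p := by
  by_cases hi : i ∈ p.support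
  · exact single_le_sum (f := fun i => |(p.coeff i : ℝ)| * t ^ i) (fun j _ => by positivity) hi
  · rw [notMem_support_iff.1 hi]
    simpa using nrm_nonneg ht p

/-- values near zero -/
lemma aeval_le {t : ℝ} (ht : 0 < t) (p : ℤ[X]) {K : ℕ} (hK : X ^ K ∣ p) {u : ℝ} (hu : |u| ≤ t) :
    |aeval u p| ≤ nrm t p * (|u| / t) ^ K := by
  rw [X_pow_dvd_iff] at hK
  rw [aeval_eq_sum_range]
  have h1 : ∀ i ∈ range (p.natDegree + 1), |p.coeff i • u ^ i| ≤
      |(p.coeff i : ℝ)| * t ^ i * (|u| / t) ^ K := by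
    intro i _
    rw [zsmul_eq_mul, abs_mul, abs_pow]
    by_cases hi : i < K
    · rw [hK i hi]
      simp
    · rw [not_lt] at hi
      have h2 : |u| ^ i = t ^ i * (|u| / t) ^ i := by
        rw [div_pow]
        field_simp
      have h3 : (|u| / t) ^ i ≤ (|u| / t) ^ K :=
        pow_le_pow_of_le_one (by positivity) ((div_le_one ht).2 hu) hi
      rw [h2, mul_assoc]
      gcongr
  refine (abs_sum_le_sum_abs _ _).trans ((sum_le_sum h1).trans ?_)
  rw [← sum_mul, nrm_eq (s := range (p.natDegree + 1)) supp_subset_range_natDegree_succ]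

/-- **The truncated root.** -/
theorem exists_root {m : ℕ} (hm : 1 ≤ m) {K : ℝ} (hK : 0 ≤ K) (j : ℕ) :
    ∃ B : ℝ, 1 ≤ B ∧ ∀ t : ℝ, 0 < t → ∀ φ : ℤ[X], φ.coeff 0 = 1 → ((m : ℤ[X]) ^ 2 ∣ φ - 1) →
      nrm t φ ≤ K → ∃ γ : ℤ[X], γ.natDegree ≤ j ∧ γ.coeff 0 = 1 ∧ ((m : ℤ[X]) ∣ γ - 1) ∧
        X ^ (j + 1) ∣ φ - γ ^ m ∧ nrm t γ ≤ B := by
  induction j with
  | zero =>
    refine ⟨1, le_rfl, fun t ht φ h0 _ _ => ⟨1, by simp, by simp, by simp, ?_, by rw [nrm_one]⟩⟩
    rw [one_pow, zero_add, pow_one, X_dvd_iff, coeff_sub, h0, coeff_one_zero, sub_self]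
  | succ j ih =>
    obtain ⟨B, hB, h⟩ := ih
    refine ⟨B + (K + B ^ m), by have : 0 ≤ B ^ m := by positivity
                                linarith, fun t ht φ h0 h1 h2 => ?_⟩
    obtain ⟨γ, g1, g2, g3, ⟨ψ, g4⟩, g5⟩ := h t ht φ h0 h1 h2
    -- the next coefficient
    have d1 : (m : ℤ[X]) ^ 2 ∣ φ - γ ^ m := by
      have d2 := dvd_sub_pow_of_dvd_sub g3 1
      rw [pow_one, one_pow] at d2
      have d3 := dvd_sub h1 d2
      have d4 : φ - 1 - (γ ^ m - 1) = φ - γ ^ m := by ring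
      rw [d4] at d3
      exact_mod_cast d3
    have d5 : ((m : ℤ) ^ 2) ∣ (φ - γ ^ m).coeff (j + 1) := by
      have d6 : (C ((m : ℤ) ^ 2) : ℤ[X]) ∣ φ - γ ^ m := by
        rw [C_pow]
        simpa using d1
      exact C_dvd_iff_dvd_coeff _ _ |>.1 d6 (j + 1)
    obtain ⟨c, hc⟩ := d5
    have hψ : ψ.coeff 0 = (φ - γ ^ m).coeff (j + 1) := by
      rw [g4]
      have := coeff_X_pow_mul ψ (j + 1) 0
      rw [zero_add] at this
      exact this.symm
    obtain ⟨γ', hγ'⟩ : ∃ γ', γ' = γ + monomial (j + 1) ((m : ℤ) * c) := ⟨_, rfl⟩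
    have k0 : γ'.coeff 0 = 1 := by
      rw [hγ', coeff_add, g2, coeff_monomial, if_neg (by omega), add_zero]
    refine ⟨γ', ?_, k0, ?_, ?_, ?_⟩
    · rw [hγ']
      refine (natDegree_add_le _ _).trans ?_
      refine max_le (by omega) (natDegree_monomial_le _)
    · rw [hγ']
      have e1 : γ + monomial (j + 1) ((m : ℤ) * c) - 1 = (γ - 1) + (m : ℤ[X]) * monomial (j + 1) c := by
        have e2 : (m : ℤ[X]) = C (m : ℤ) := by simp
        rw [e2, C_mul_monomial]
        ring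
      rw [e1]
      exact dvd_add g3 (dvd_mul_right _ _)
    · have e1 : γ' ^ m - γ ^ m = X ^ (j + 1) * (C ((m : ℤ) * c) *
          ∑ i ∈ range m, γ' ^ i * γ ^ (m - 1 - i)) := by
        have e2 : γ' - γ = C ((m : ℤ) * c) * X ^ (j + 1) := by
          rw [hγ', add_sub_cancel_left, C_mul_X_pow_eq_monomial]
        have e3 := (geom_sum₂_mul γ' γ m).symm
        rw [e3, e2]
        ring
      have e4 : φ - γ' ^ m = X ^ (j + 1) * (ψ - (C ((m : ℤ) * c) *
          ∑ i ∈ range m, γ' ^ i * γ ^ (m - 1 - i))) := by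
        rw [mul_sub, ← g4, ← e1]
        ring
      rw [e4, pow_succ]
      apply mul_dvd_mul_left
      rw [X_dvd_iff, coeff_sub, hψ, hc, coeff_C_mul, coeff_zero_eq_eval_zero, eval_finsetSum]
      have e5 : ∀ i ∈ range m, eval 0 (γ' ^ i * γ ^ (m - 1 - i)) = 1 := by
        intro i _
        rw [eval_mul, eval_pow, eval_pow, ← coeff_zero_eq_eval_zero, ← coeff_zero_eq_eval_zero, k0,
          g2]
        simp
      rw [sum_congr rfl e5, sum_const, card_range, nsmul_eq_mul]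
      ring
    · rw [hγ']
      refine (nrm_add ht.le _ _).trans ?_
      rw [nrm_monomial]
      have e1 := coeff_le ht.le (φ - γ ^ m) (j + 1)
      have e2 : nrm t (φ - γ ^ m) ≤ K + B ^ m := by
        refine (nrm_sub ht.le _ _).trans ?_
        have e3 := (nrm_pow ht.le γ m).trans (pow_le_pow_left₀ (nrm_nonneg ht.le _) g5 m)
        linarith
      have e3 : |(((m : ℤ) * c : ℤ) : ℝ)| ≤ |(((φ - γ ^ m).coeff (j + 1) : ℤ) : ℝ)| := by
        rw [hc]
        push_cast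
        rw [abs_mul, abs_mul, abs_pow]
        have e4 : (1 : ℝ) ≤ |(m : ℝ)| := by
          rw [abs_of_nonneg (Nat.cast_nonneg m)]
          exact_mod_cast hm
        have e5 : |(m : ℝ)| ≤ |(m : ℝ)| ^ 2 := le_self_pow₀ e4 (by norm_num)
        gcongr
      have e4 : |(((m : ℤ) * c : ℤ) : ℝ)| * t ^ (j + 1) ≤
          |(((φ - γ ^ m).coeff (j + 1) : ℤ) : ℝ)| * t ^ (j + 1) := by gcongr
      linarith

end Pool.Agent.N656.SE
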